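import Pool.Agent.Lib.Forcing.Fmls

/-!
# Countable elementary submodels (downward Löwenheim–Skolem) and transfer of the notions of `Defs`
-/

set_option linter.unusedSimpArgs false
set_option linter.unusedSectionVars false

namespace Pool.Agent.Lib.Forcing

universe u v

/-- code of a formula -/
def Fml.code : Fml → ℕ
  | .fmem i j => 5 * Nat.pair i j
  | .feq i j => 5 * Nat.pair i j + 1
  | .fneg φ => 5 * φ.code + 2
  | .fand φ ψ => 5 * Nat.pair φ.code ψ.code + 3
  | .fall φ => 5 * φ.code + 4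

theorem Fml.code_inj : Function.Injective Fml.code := by
  intro φ
  induction φ with
  | fmem i j =>
    intro ψ h
    cases ψ with
    | fmem i' j' =>
      have h1 : Nat.pair i j = Nat.pair i' j' := by simp only [Fml.code] at h; omega
      obtain ⟨rfl, rfl⟩ := Nat.pair_eq_pair.1 h1
      rfl
    | _ => simp only [Fml.code] at h; omega
  | feq i j =>
    intro ψ h
    cases ψ with
    | feq i' j' =>
      have h1 : Nat.pair i j = Nat.pair i' j' := by simp only [Fml.code] at h; omega
      obtain ⟨rfl, rfl⟩ := Nat.pair_eq_pair.1 h1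
      rfl
    | _ => simp only [Fml.code] at h; omega
  | fneg φ ih =>
    intro ψ h
    cases ψ with
    | fneg ψ =>
      have h1 : φ.code = ψ.code := by simp only [Fml.code] at h; omega
      rw [ih h1]
    | _ => simp only [Fml.code] at h; omega
  | fand φ φ' ih ih' =>
    intro ψ h
    cases ψ with
    | fand ψ ψ' =>
      have h1 : Nat.pair φ.code φ'.code = Nat.pair ψ.code ψ'.code := by
        simp only [Fml.code] at h; omega
      obtain ⟨h2, h3⟩ := Nat.pair_eq_pair.1 h1
      rw [ih h2, ih' h3]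
    | _ => simp only [Fml.code] at h; omega
  | fall φ ih =>
    intro ψ h
    cases ψ with
    | fall ψ =>
      have h1 : φ.code = ψ.code := by simp only [Fml.code] at h; omega
      rw [ih h1]
    | _ => simp only [Fml.code] at h; omega

instance : Countable Fml := Fml.code_inj.countable

section LS

variable {M : Type u} (E : M → M → Prop) (k : M)

/-- assignment given by a finite list -/
def asgL (l : List M) : ℕ → M := fun n => l.getD n k

open Classical in
/-- Skolem function -/
noncomputable def sk (φ : Fml) (l : List M) : M :=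
  if h : ∃ x, Sat E φ (cons x (asgL k l)) then h.choose else k

/-- one step of the closure -/
def stepA (A : Set M) : Set M :=
  A ∪ Set.range (fun p : Fml × List A => sk E k p.1 (p.2.map Subtype.val))

/-- the Skolem hull of `{k}` -/
def hull : Set M := ⋃ n : ℕ, (stepA E k)^[n] {k}

theorem hull_countable : (hull E k).Countable := by
  refine Set.countable_iUnion fun n => ?_
  induction n with
  | zero => exact Set.countable_singleton k
  | succ n ih =>
    rw [Function.iterate_succ_apply']
    have : Countable ((stepA E k)^[n] {k}) := ih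
    exact ih.union (Set.countable_range _)

theorem step_mono {n m : ℕ} (h : n ≤ m) : (stepA E k)^[n] {k} ⊆ (stepA E k)^[m] {k} := by
  induction h with
  | refl => exact subset_rfl
  | step _ ih =>
    rw [Function.iterate_succ_apply']
    exact ih.trans Set.subset_union_left

theorem mem_hull_k : k ∈ hull E k := Set.mem_iUnion.2 ⟨0, rfl⟩

theorem sk_mem_hull (φ : Fml) (l : List M) (hl : ∀ y ∈ l, y ∈ hull E k) :
    sk E k φ l ∈ hull E k := by
  have h1 : ∃ n, ∀ y ∈ l, y ∈ (stepA E k)^[n] {k} := by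
    induction l with
    | nil => exact ⟨0, fun y hy => by simp at hy⟩
    | cons a l ih =>
      obtain ⟨n, hn⟩ := ih fun y hy => hl y (List.mem_cons_of_mem _ hy)
      obtain ⟨m, hm⟩ := Set.mem_iUnion.1 (hl a List.mem_cons_self)
      refine ⟨max n m, fun y hy => ?_⟩
      rcases List.mem_cons.1 hy with rfl | hy
      · exact step_mono E k (le_max_right _ _) hm
      · exact step_mono E k (le_max_left _ _) (hn y hy)
  obtain ⟨n, hn⟩ := h1
  refine Set.mem_iUnion.2 ⟨n + 1, ?_⟩
  rw [Function.iterate_succ_apply']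
  refine Or.inr ⟨(φ, l.attach.map fun y => ⟨y.1, hn y.1 y.2⟩), ?_⟩
  simp only [List.map_map]
  congr 1
  exact List.attach_map_subtype_val l

theorem hull_elem (φ : Fml) : ∀ v : ℕ → hull E k,
    (Sat (fun x y : hull E k => E x.1 y.1) φ v ↔ Sat E φ (fun i => (v i).1)) := by
  induction φ with
  | fmem i j => intro v; rfl
  | feq i j => intro v; exact Subtype.ext_iff
  | fneg φ ih => intro v; exact not_congr (ih v)
  | fand φ ψ ih1 ih2 => intro v; exact and_congr (ih1 v) (ih2 v)
  | fall φ ih =>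
    intro v
    have hc : ∀ x : hull E k, (fun i => (cons x v i).1) = cons x.1 (fun i => (v i).1) := by
      intro x; funext i; cases i <;> rfl
    constructor
    · intro h
      by_contra hcon
      rw [sat_all] at hcon
      push Not at hcon
      obtain ⟨x, hx⟩ := hcon
      -- a finite list representing v
      let l : List M := (List.range φ.bd).map fun i => (v i).1
      have hl : ∀ i < φ.bd, asgL k l i = (v i).1 := by
        intro i hi
        simp [asgL, l, List.getD, hi]
      have hagree : ∀ y, ∀ i < φ.bd, cons y (asgL k l) i = cons y (fun i => (v i).1) i := by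
        intro y i hi
        cases i with
        | zero => rfl
        | succ n => exact hl n (by omega)
      have hex : ∃ x, Sat E (.fneg φ) (cons x (asgL k l)) :=
        ⟨x, fun h => hx ((sat_congr φ (hagree x)).1 h)⟩
      have h1 : Sat E (.fneg φ) (cons (sk E k (.fneg φ) l) (asgL k l)) := by
        unfold sk; rw [dif_pos hex]; exact hex.choose_spec
      have hmem : sk E k (.fneg φ) l ∈ hull E k := by
        apply sk_mem_hull
        intro y hy
        simp only [l, List.mem_map] at hy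
        obtain ⟨i, _, rfl⟩ := hy
        exact (v i).2
      have h2 := (ih (cons ⟨_, hmem⟩ v)).1 (h ⟨_, hmem⟩)
      rw [hc] at h2
      exact h1 ((sat_congr φ (hagree _)).2 h2)
    · intro h x
      rw [ih, hc]
      exact h x.1

/-- Every structure has a countable elementary substructure containing a given element. -/
theorem exists_countable_elementary : ∃ (N : Type) (F : N → N → Prop) (k' : N) (j : N → M),
    Countable N ∧ j k' = k ∧ ∀ φ (v : ℕ → N), Sat F φ v ↔ Sat E φ (fun i => j (v i)) := by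
  have hc : Countable (hull E k) := hull_countable E k
  obtain ⟨f, hf⟩ := exists_injective_nat (hull E k)
  let e : hull E k ≃ Set.range f := Equiv.ofInjective f hf
  refine ⟨Set.range f, fun x y => E (e.symm x).1 (e.symm y).1, e ⟨k, mem_hull_k E k⟩,
    fun x => (e.symm x).1, inferInstance, by simp, ?_⟩
  intro φ v
  rw [← hull_elem E k φ (fun i => e.symm (v i))]
  induction φ generalizing v with
  | fmem i j => rfl
  | feq i j => exact e.symm.injective.eq_iff.symm
  | fneg φ ih => exact not_congr (ih v)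
  | fand φ ψ ih1 ih2 => exact and_congr (ih1 v) (ih2 v)
  | fall φ ih =>
    have hcv : ∀ x, (fun i => e.symm (cons x v i)) = cons (e.symm x) (fun i => e.symm (v i)) := by
      intro x; funext i; cases i <;> rfl
    constructor
    · intro h x
      have h1 := (ih (cons (e x) v)).1 (h (e x))
      rw [hcv, Equiv.symm_apply_apply] at h1
      exact h1
    · intro h x
      rw [ih, hcv]
      exact h (e.symm x)

end LS

/-! ## Transfer along elementary embeddings -/

section Transfer

variable {M : Type u} {E : M → M → Prop} {N : Type v} {F : N → N → Prop} {j : N → M}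

/-- `j` is elementary -/
def Elem (F : N → N → Prop) (E : M → M → Prop) (j : N → M) : Prop :=
  ∀ φ (v : ℕ → N), Sat F φ v ↔ Sat E φ (fun i => j (v i))

theorem j_cons (x : N) (v : ℕ → N) : (fun i => j (cons x v i)) = cons (j x) (fun i => j (v i)) := by
  funext i; cases i <;> rfl

def renSep : ℕ → ℕ
  | 0 => 0
  | n + 1 => n + 3

def fSep (φ : Fml) : Fml :=
  .fall (fex (.fall (fiff (.fmem 0 1) (.fand (.fmem 0 2) (φ.ren renSep)))))

theorem sat_fSep {φ : Fml} {v : ℕ → M} : Sat E (fSep φ) v ↔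
    ∀ x, ∃ y, ∀ z, E z y ↔ E z x ∧ Sat E φ (cons z v) := by
  simp only [fSep, sat_all, sat_ex, sat_iff, sat_and, sat_mem, sat_ren, cons_zero, cons_one,
    cons_two]
  refine forall_congr' fun x => exists_congr fun y => forall_congr' fun z => ?_
  have : (fun i => cons z (cons y (cons x v)) (renSep i)) = cons z v := by
    funext i; cases i <;> rfl
  rw [this]

def renRepl1 : ℕ → ℕ
  | 0 => 1
  | 1 => 0
  | n + 2 => n + 3

def renRepl2 : ℕ → ℕ
  | 0 => 2
  | 1 => 0
  | n + 2 => n + 4

def renRepl3 : ℕ → ℕ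
  | 0 => 0
  | 1 => 1
  | n + 2 => n + 4

def fRepl (φ : Fml) : Fml :=
  .fall (fimp
    (fball 0 (fex (.fand (φ.ren renRepl1) (.fall (fimp (φ.ren renRepl2) (.feq 0 1))))))
    (fex (.fall (fiff (.fmem 0 1) (fex (.fand (.fmem 0 3) (φ.ren renRepl3)))))))

theorem sat_fRepl {φ : Fml} {v : ℕ → M} : Sat E (fRepl φ) v ↔
    ∀ x, (∀ y, E y x → ∃! z, Sat E φ (cons y (cons z v))) →
      ∃ w, ∀ z, E z w ↔ ∃ y, E y x ∧ Sat E φ (cons y (cons z v)) := by
  simp only [fRepl, sat_all, sat_ex, sat_iff, sat_and, sat_mem, sat_ren, sat_imp, sat_ball,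
    sat_eq, cons_zero, cons_one, cons_two, cons_three]
  have e1 : ∀ x y z : M, (fun i => cons z (cons y (cons x v)) (renRepl1 i)) =
      cons y (cons z v) := by
    intro x y z; funext i
    match i with
    | 0 => rfl
    | 1 => rfl
    | n + 2 => rfl
  have e2 : ∀ x y z z' : M, (fun i => cons z' (cons z (cons y (cons x v))) (renRepl2 i)) =
      cons y (cons z' v) := by
    intro x y z z'; funext i
    match i with
    | 0 => rfl
    | 1 => rfl
    | n + 2 => rfl
  have e3 : ∀ x w z y : M, (fun i => cons y (cons z (cons w (cons x v))) (renRepl3 i)) =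
      cons y (cons z v) := by
    intro x w z y; funext i
    match i with
    | 0 => rfl
    | 1 => rfl
    | n + 2 => rfl
  simp only [e1, e2, e3]
  rfl

def fExt : Fml := .fall (.fall (fimp (.fall (fiff (.fmem 0 2) (.fmem 0 1))) (.feq 1 0)))

def fFound : Fml := .fall (fimp (fex (.fmem 0 1)) (fex (.fand (.fmem 0 1)
  (.fall (fimp (.fmem 0 1) (.fneg (.fmem 0 2)))))))

def fPairing : Fml := .fall (.fall (fex (.fall (fiff (.fmem 0 1)
  (ffor (.feq 0 3) (.feq 0 2))))))

def fUnion : Fml := .fall (fex (.fall (fiff (.fmem 0 1) (fex (.fand (.fmem 0 3) (.fmem 1 0))))))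

def fPow : Fml := .fall (fex (.fall (fiff (.fmem 0 1) (.fall (fimp (.fmem 0 1) (.fmem 0 3))))))

def fInf : Fml := fex (.fand (fex (.fand (.fall (.fneg (.fmem 0 1))) (.fmem 0 1)))
  (.fall (fimp (.fmem 0 1) (fex (.fand (.fmem 0 2) (.fall (fiff (.fmem 0 1)
    (ffor (.fmem 0 2) (.feq 0 2)))))))))

def fChoice : Fml := .fall (fimp (.fall (fimp (.fmem 0 1) (fex (.fmem 0 1))))
  (fimp (.fall (.fall (fimp (.fmem 1 2) (fimp (.fmem 0 2) (fimp (.fneg (.feq 1 0))
    (.fall (.fneg (.fand (.fmem 0 2) (.fmem 0 1)))))))))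
  (fex (.fall (fimp (.fmem 0 2) (fex (.fand (.fand (.fmem 0 2) (.fmem 0 1))
    (.fall (fimp (.fand (.fmem 0 3) (.fmem 0 2)) (.feq 0 1))))))))))

theorem isZFC_iff : IsZFC M E ↔ Nonempty M ∧ ∀ v : ℕ → M, Sat E fExt v ∧ Sat E fFound v ∧
    Sat E fPairing v ∧ Sat E fUnion v ∧ Sat E fPow v ∧ Sat E fInf v ∧ (∀ φ, Sat E (fSep φ) v) ∧
    (∀ φ, Sat E (fRepl φ) v) ∧ Sat E fChoice v := by
  have e1 : ∀ v, Sat E fExt v ↔ ∀ x y, (∀ z, E z x ↔ E z y) → x = y := by
    intro v
    simp only [fExt, sat_all, sat_imp, sat_iff, sat_mem, sat_eq, cons_zero, cons_one, cons_two]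
  have e2 : ∀ v, Sat E fFound v ↔
      ∀ x, (∃ y, E y x) → ∃ y, E y x ∧ ∀ z, E z y → ¬ E z x := by
    intro v
    simp only [fFound, sat_all, sat_imp, sat_ex, sat_and, sat_neg, sat_mem, cons_zero, cons_one,
      cons_two]
  have e3 : ∀ v, Sat E fPairing v ↔ ∀ x y, ∃ z, ∀ w, E w z ↔ w = x ∨ w = y := by
    intro v
    simp only [fPairing, sat_all, sat_iff, sat_or, sat_ex, sat_eq, sat_mem, cons_zero, cons_one,
      cons_two, cons_three]
  have e4 : ∀ v, Sat E fUnion v ↔ ∀ x, ∃ y, ∀ z, E z y ↔ ∃ w, E w x ∧ E z w := by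
    intro v
    simp only [fUnion, sat_all, sat_iff, sat_ex, sat_and, sat_mem, cons_zero, cons_one,
      cons_two, cons_three]
  have e5 : ∀ v, Sat E fPow v ↔ ∀ x, ∃ y, ∀ z, E z y ↔ ∀ w, E w z → E w x := by
    intro v
    simp only [fPow, sat_all, sat_iff, sat_ex, sat_imp, sat_mem, cons_zero, cons_one,
      cons_two, cons_three]
  have e6 : ∀ v, Sat E fInf v ↔ ∃ x, (∃ e, (∀ z, ¬ E z e) ∧ E e x) ∧
      ∀ y, E y x → ∃ z, E z x ∧ ∀ w, E w z ↔ E w y ∨ w = y := by
    intro v
    simp only [fInf, sat_all, sat_iff, sat_ex, sat_imp, sat_and, sat_or, sat_neg, sat_eq,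
      sat_mem, cons_zero, cons_one, cons_two, cons_three]
  have e9 : ∀ v, Sat E fChoice v ↔ ∀ x, (∀ y, E y x → ∃ z, E z y) →
      (∀ y y', E y x → E y' x → y ≠ y' → ∀ z, ¬ (E z y ∧ E z y')) →
      ∃ c, ∀ y, E y x → ∃! z, E z c ∧ E z y := by
    intro v
    simp only [fChoice, sat_all, sat_ex, sat_imp, sat_and, sat_neg, sat_eq,
      sat_mem, cons_zero, cons_one, cons_two, cons_three]
    rfl
  constructor
  · intro H
    refine ⟨?_, fun v => ⟨(e1 v).2 H.extensionality, (e2 v).2 H.foundation, (e3 v).2 H.pairing,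
      (e4 v).2 H.union, (e5 v).2 H.powerset, (e6 v).2 H.infinity,
      fun φ => sat_fSep.2 fun x => H.separation φ v x,
      fun φ => sat_fRepl.2 fun x => H.replacement φ v x, (e9 v).2 H.choice⟩⟩
    obtain ⟨x, _⟩ := H.infinity
    exact ⟨x⟩
  · rintro ⟨⟨a⟩, H⟩
    exact ⟨(e1 _).1 (H fun _ => a).1, (e2 _).1 (H fun _ => a).2.1, (e3 _).1 (H fun _ => a).2.2.1,
      (e4 _).1 (H fun _ => a).2.2.2.1, (e5 _).1 (H fun _ => a).2.2.2.2.1,
      (e6 _).1 (H fun _ => a).2.2.2.2.2.1,
      fun φ v x => sat_fSep.1 ((H v).2.2.2.2.2.2.1 φ) x,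
      fun φ v x => sat_fRepl.1 ((H v).2.2.2.2.2.2.2.1 φ) x,
      (e9 _).1 (H fun _ => a).2.2.2.2.2.2.2.2⟩

theorem Elem.isZFC (h : Elem F E j) (a : N) (H : IsZFC M E) : IsZFC N F := by
  rw [isZFC_iff] at H ⊢
  refine ⟨⟨a⟩, fun v => ?_⟩
  obtain ⟨h1, h2, h3, h4, h5, h6, h7, h8, h9⟩ := H.2 (fun i => j (v i))
  exact ⟨(h _ _).2 h1, (h _ _).2 h2, (h _ _).2 h3, (h _ _).2 h4, (h _ _).2 h5, (h _ _).2 h6,
    fun φ => (h _ _).2 (h7 φ), fun φ => (h _ _).2 (h8 φ), (h _ _).2 h9⟩

theorem Elem.isInacc (h : Elem F E j) {k : N} : IsInacc F k ↔ IsInacc E (j k) := by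
  have := h (fInacc 0) (fun _ => k)
  rw [sat_fInacc, sat_fInacc] at this
  exact this

theorem Elem.least (h : Elem F E j) {k : N} (hk : ∀ m, E m (j k) → ¬ IsInacc E m) :
    ∀ m, F m k → ¬ IsInacc F m := by
  intro m hm hin
  refine hk (j m) ?_ (h.isInacc.1 hin)
  exact (h (.fmem 0 1) (cons m (fun _ => k))).1 hm

theorem Elem.colouring (h : Elem F E j) {k : N} (hk : Sigma1Colouring E (j k)) :
    Sigma1Colouring F k := by
  intro φ hφ z hz hpart
  have h1 := (h (fPart φ) (cons k z)).1 (sat_fPart.2 hpart)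
  rw [j_cons, sat_fPart] at h1
  have h2 := hk φ hφ (fun n => j (z n)) (fun n => by
    have h3 := (h (fInH 0 (n + 1)) (cons k z)).1 (sat_fInH.2 (hz n))
    rw [sat_fInH] at h3
    exact h3) h1
  rw [← sat_fConc, ← j_cons, ← h, sat_fConc] at h2
  exact h2

end Transfer

end Pool.Agent.Lib.Forcing
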