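import Pool.Agent.Lib.Forcing.ZFC

/-!
# Projections defined below a condition, and the transport of names
-/

namespace Pool.Agent.Lib.Forcing

universe u

variable {P : Type u} [Preorder P] {P' : Type u} [Preorder P']

/-- `π` is a projection from the cone below `p0` to (the cone below `π p0` of) `P'`. -/
structure Proj (p0 : P) (π : P → P') : Prop where
  mono : ∀ p q, p ≤ p0 → q ≤ p → π q ≤ π p
  lift : ∀ p, p ≤ p0 → ∀ s, s ≤ π p → ∃ q, q ≤ p ∧ π q ≤ s

/-- pulling back a name through a projection -/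
def Name.pull (p0 : P) (π : P → P') : Name P' → Name P
  | .mk ι nm cd => .mk {x : ι × P // x.2 ≤ p0 ∧ π x.2 ≤ cd x.1}
      (fun x => Name.pull p0 π (nm x.1.1)) (fun x => x.1.2)

variable {p0 : P} {π : P → P'}

theorem eqF_pull (h : Proj p0 π) {σ τ : Name P'} : ∀ {p : P}, p ≤ p0 →
    (EqF (σ.pull p0 π) (τ.pull p0 π) p ↔ EqF σ τ (π p)) := by
  induction σ generalizing τ with
  | mk ι nm cd ih =>
    intro p hp
    cases τ with
    | mk κ nm' cd' =>
      rw [eqF_iff, eqF_iff (Name.mk ι nm cd)]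
      constructor
      · rintro ⟨h1, h2⟩
        constructor
        · intro i s hs hc
          obtain ⟨q, hq, hqs⟩ := h.lift p hp s hs
          obtain ⟨r, hr, ⟨⟨j, q'⟩, hj1, hj2⟩, h3, h4⟩ :=
            h1 ⟨(i, q), hq.trans hp, hqs.trans hc⟩ q hq le_rfl
          refine ⟨π r, (h.mono _ _ (hq.trans hp) hr).trans hqs, j,
            (h.mono _ _ hj1 h3).trans hj2, ?_⟩
          exact (ih i (hr.trans (hq.trans hp))).1 h4
        · intro i s hs hc
          obtain ⟨q, hq, hqs⟩ := h.lift p hp s hs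
          obtain ⟨r, hr, ⟨⟨j, q'⟩, hj1, hj2⟩, h3, h4⟩ :=
            h2 ⟨(i, q), hq.trans hp, hqs.trans hc⟩ q hq le_rfl
          refine ⟨π r, (h.mono _ _ (hq.trans hp) hr).trans hqs, j,
            (h.mono _ _ hj1 h3).trans hj2, ?_⟩
          exact (ih j (hr.trans (hq.trans hp))).1 h4
      · rintro ⟨h1, h2⟩
        constructor
        · rintro ⟨⟨i, q⟩, hi1, hi2⟩ r hr hc
          have hc' : r ≤ q := hc
          obtain ⟨s, hs, j, h3, h4⟩ := h1 i (π r) (h.mono _ _ hp hr) ((h.mono _ _ hi1 hc').trans hi2)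
          obtain ⟨r', hr', h5⟩ := h.lift r (hr.trans hp) s hs
          refine ⟨r', hr', ⟨⟨j, r'⟩, hr'.trans (hr.trans hp), h5.trans h3⟩, le_rfl, ?_⟩
          exact (ih i (hr'.trans (hr.trans hp))).2 (h4.mono h5)
        · rintro ⟨⟨i, q⟩, hi1, hi2⟩ r hr hc
          have hc' : r ≤ q := hc
          obtain ⟨s, hs, j, h3, h4⟩ := h2 i (π r) (h.mono _ _ hp hr) ((h.mono _ _ hi1 hc').trans hi2)
          obtain ⟨r', hr', h5⟩ := h.lift r (hr.trans hp) s hs
          refine ⟨r', hr', ⟨⟨j, r'⟩, hr'.trans (hr.trans hp), h5.trans h3⟩, le_rfl, ?_⟩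
          exact (ih j (hr'.trans (hr.trans hp))).2 (h4.mono h5)

theorem memF_pull (h : Proj p0 π) {σ τ : Name P'} {p : P} (hp : p ≤ p0) :
    MemF (σ.pull p0 π) (τ.pull p0 π) p ↔ MemF σ τ (π p) := by
  cases τ with
  | mk κ nm' cd' =>
    constructor
    · intro h1 s hs
      obtain ⟨q, hq, hqs⟩ := h.lift p hp s hs
      obtain ⟨r, hr, ⟨⟨j, q'⟩, hj1, hj2⟩, h3, h4⟩ := h1 q hq
      exact ⟨π r, (h.mono _ _ (hq.trans hp) hr).trans hqs, j, (h.mono _ _ hj1 h3).trans hj2,
        (eqF_pull h (hr.trans (hq.trans hp))).1 h4⟩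
    · intro h1 r hr
      obtain ⟨s, hs, j, h3, h4⟩ := h1 (π r) (h.mono _ _ hp hr)
      obtain ⟨r', hr', h5⟩ := h.lift r (hr.trans hp) s hs
      exact ⟨r', hr', ⟨⟨j, r'⟩, hr'.trans (hr.trans hp), h5.trans h3⟩, le_rfl,
        (eqF_pull h (hr'.trans (hr.trans hp))).2 (h4.mono h5)⟩

theorem pull_cons (τ : Name P') (v : ℕ → Name P') :
    (fun i => (cons τ v i).pull p0 π) = cons (τ.pull p0 π) (fun i => (v i).pull p0 π) := by
  funext i; cases i <;> rfl

theorem forces_pull (h : Proj p0 π) {φ : Fml} (hφ : Delta0 φ) : ∀ {v : ℕ → Name P'} {p : P},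
    p ≤ p0 → (Forces φ (fun i => (v i).pull p0 π) p ↔ Forces φ v (π p)) := by
  induction hφ with
  | dmem i j => intro v p hp; exact memF_pull h hp
  | deq i j => intro v p hp; exact eqF_pull h hp
  | dneg φ _ ih =>
    intro v p hp
    constructor
    · intro h1 s hs h2
      obtain ⟨q, hq, hqs⟩ := h.lift p hp s hs
      exact h1 q hq ((ih (hq.trans hp)).2 (h2.mono hqs))
    · intro h1 q hq h2
      exact h1 (π q) (h.mono _ _ hp hq) ((ih (hq.trans hp)).1 h2)
  | dand φ ψ _ _ ih1 ih2 =>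
    intro v p hp
    exact and_congr (ih1 hp) (ih2 hp)
  | dball j φ _ ih =>
    intro v p hp
    have e := forces_ball (φ := φ) (j := j) (v := fun i => (v i).pull p0 π) (p := p)
    have e' := forces_ball (φ := φ) (j := j) (v := v) (p := π p)
    unfold fball fimp at e e'
    rw [e, e']
    cases hv : v j with
    | mk κ nm cd =>
      constructor
      · intro h1 i s hs hc
        have h1' : ∀ x : {x : κ × P // x.2 ≤ p0 ∧ π x.2 ≤ cd x.1}, ∀ q, q ≤ p → q ≤ x.1.2 →
            Forces φ (cons ((nm x.1.1).pull p0 π) (fun i => (v i).pull p0 π)) q := by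
          exact fun x => h1 x
        apply Forces.dense
        intro t ht
        obtain ⟨q, hq, hqs⟩ := h.lift p hp t (ht.trans hs)
        refine ⟨π q, hqs, ?_⟩
        rw [← ih (hq.trans hp), pull_cons]
        exact h1' ⟨(i, q), hq.trans hp, (hqs.trans ht).trans hc⟩ q hq le_rfl
      · intro h1
        rintro ⟨⟨i, q'⟩, hi1, hi2⟩ q hq hc
        have hc' : q ≤ q' := hc
        have h2 := h1 i (π q) (h.mono _ _ hp hq) ((h.mono _ _ hi1 hc').trans hi2)
        have h3 := (ih (v := cons (nm i) v) (hq.trans hp)).2 h2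
        rw [pull_cons] at h3
        exact h3

theorem forces_pull_sigma1 (h : Proj p0 π) {φ : Fml} (hφ : Sigma1 φ) {v : ℕ → Name P'} {p : P}
    (hp : p ≤ p0) (hf : Forces φ v (π p)) : Forces φ (fun i => (v i).pull p0 π) p := by
  obtain ⟨ψ, hψ, rfl⟩ := hφ
  have hf' : Forces (fex ψ) v (π p) := hf
  have : Forces (fex ψ) (fun i => (v i).pull p0 π) p := by
    rw [forces_ex] at hf' ⊢
    intro q hq
    obtain ⟨s, hs, τ, h1⟩ := hf' (π q) (h.mono _ _ hp hq)
    obtain ⟨q', hq', h2⟩ := h.lift q (hq.trans hp) s hs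
    refine ⟨q', hq', τ.pull p0 π, ?_⟩
    rw [← pull_cons, forces_pull h hψ (hq'.trans (hq.trans hp))]
    exact h1.mono h2
  exact this

/-- Pulling back a name all of whose conditions are `cn`-like with `True`. -/
theorem memF_pull_iff_idx (h : Proj p0 π) {τ : Name P'} {ρ : Name P} {p : P} (hp : p ≤ p0) :
    MemF ρ (τ.pull p0 π) p ↔ ∀ r, r ≤ p → ∃ s, s ≤ r ∧ ∃ j : τ.idx, π s ≤ τ.cd j ∧
      EqF ρ ((τ.nm j).pull p0 π) s := by
  cases τ with
  | mk κ nm' cd' =>
    constructor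
    · intro h1 r hr
      obtain ⟨s, hs, ⟨⟨j, q'⟩, hj1, hj2⟩, h3, h4⟩ := h1 r hr
      exact ⟨s, hs, j, (h.mono _ _ hj1 h3).trans hj2, h4⟩
    · intro h1 r hr
      obtain ⟨s, hs, j, h3, h4⟩ := h1 r hr
      exact ⟨s, hs, ⟨⟨j, s⟩, hs.trans (hr.trans hp), h3⟩, le_rfl, h4⟩

end Pool.Agent.Lib.Forcing
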