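import Pool.Agent.Lib.Forcing.NoInacc
import Pool.Agent.Lib.Forcing.Project

/-!
# Absorption: projections onto the cone below a given extension
-/

set_option linter.unusedSectionVars false

open Cardinal Ordinal Set

namespace Pool.Agent.Lib.Forcing

variable {K : Ordinal.{0}}

/-- `s₁` followed by the part of `s₂` from `δ` on -/
def glue (s₁ s₂ : Set Ordinal.{0}) (δ : Ordinal.{0}) : Set Ordinal.{0} :=
  s₁ ∪ {x | x ∈ s₂ ∧ δ ≤ x}

section Glue

variable {s₁ s₂ : Set Ordinal.{0}} {δ : Ordinal.{0}}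

theorem good_glue (h₁ : Good K s₁) (h₂ : Good K s₂) (h : mx s₁ < δ)
    (h' : (L (mx s₁)).ord ≤ δ) : Good K (glue s₁ s₂ δ) := by
  refine ⟨Or.inl h₁.zero, ?_, ?_, ?_, ?_⟩
  · rintro x (hx | hx)
    · exact h₁.lt x hx
    · exact h₂.lt x hx.1
  · rintro x (hx | hx)
    · exact h₁.ni x hx
    · exact h₂.ni x hx.1
  · rintro x (hx | hx) y (hy | hy) hxy
    · exact h₁.spaced x hx y hy hxy
    · exact ((ord_le_ord.2 (L_mono' (h₁.le_mx hx))).trans h').trans hy.2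
    · exact absurd ((h₁.le_mx hy).trans_lt h) (not_lt.2 (hx.2.trans hxy.le))
    · exact h₂.spaced x hx.1 y hy.1 hxy
  · intro T hT hne
    by_cases hbig : ∃ x ∈ T, δ ≤ x
    · obtain ⟨x, hx, hδx⟩ := hbig
      right
      have hx2 : x ∈ s₂ := by
        rcases hT hx with h3 | h3
        · exact absurd ((h₁.le_mx h3).trans_lt h) (not_lt.2 hδx)
        · exact h3.1
      have hbdd : BddAbove T := ⟨K, fun y hy => by
        rcases hT hy with h3 | h3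
        · exact (h₁.lt y h3).le
        · exact (h₂.lt y h3.1).le⟩
      have hT' : {y | y ∈ T ∧ δ ≤ y} ⊆ s₂ := by
        rintro y ⟨hy, hδy⟩
        rcases hT hy with h3 | h3
        · exact absurd ((h₁.le_mx h3).trans_lt h) (not_lt.2 hδy)
        · exact h3.1
      have he : sSup T = sSup {y | y ∈ T ∧ δ ≤ y} := by
        apply le_antisymm
        · refine csSup_le hne fun y hy => ?_
          have hb2 : BddAbove {y | y ∈ T ∧ δ ≤ y} := hbdd.mono fun y hy => hy.1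
          by_cases h3 : δ ≤ y
          · exact le_csSup hb2 ⟨hy, h3⟩
          · exact ((not_le.1 h3).le.trans hδx).trans (le_csSup hb2 ⟨hx, hδx⟩)
        · exact csSup_le ⟨x, hx, hδx⟩ fun y hy => le_csSup hbdd hy.1
      refine ⟨?_, hδx.trans (le_csSup hbdd hx)⟩
      rw [he]
      exact h₂.closed _ hT' ⟨x, hx, hδx⟩
    · push Not at hbig
      left
      refine h₁.closed T (fun y hy => ?_) hne
      rcases hT hy with h3 | h3
      · exact h3
      · exact absurd (hbig y hy) (not_lt.2 h3.2)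

theorem mx_glue (h₁ : Good K s₁) (h₂ : Good K s₂) (h : mx s₁ < δ) (hδ : δ ∈ s₂) :
    mx (glue s₁ s₂ δ) = mx s₂ := by
  have hle : ∀ x ∈ glue s₁ s₂ δ, x ≤ mx s₂ := by
    rintro x (hx | hx)
    · exact ((h₁.le_mx hx).trans h.le).trans (h₂.le_mx hδ)
    · exact h₂.le_mx hx.1
  have hmem : mx s₂ ∈ glue s₁ s₂ δ := Or.inr ⟨h₂.mx_mem, h₂.le_mx hδ⟩
  exact le_antisymm (csSup_le ⟨_, hmem⟩ hle) (le_csSup ⟨_, hle⟩ hmem)

theorem endExt_glue (h : mx s₁ < δ) : EndExt (glue s₁ s₂ δ) s₁ := by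
  refine ⟨subset_union_left, ?_⟩
  rintro x (hx | hx) hle
  · exact hx
  · exact absurd (hle.trans_lt h) (not_lt.2 hx.2)

theorem cons_glue (h₁ : Good K s₁) (h : mx s₁ < δ) (hδ : δ ∈ s₂) {γ γ' : Ordinal.{0}}
    (hc : Cons (glue s₁ s₂ δ) γ γ') :
    (γ' ≤ mx s₁ ∧ Cons s₁ γ γ') ∨ (γ = mx s₁ ∧ γ' = δ) ∨ (δ ≤ γ ∧ Cons s₂ γ γ') := by
  obtain ⟨hγ, hγ', hlt, hno⟩ := hc
  rcases lt_trichotomy γ' δ with h3 | h3 | h3
  · left
    have h4 : γ' ∈ s₁ := hγ'.resolve_right fun h => absurd h.2 (not_le.2 h3)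
    have h5 : γ ∈ s₁ := hγ.resolve_right fun h => absurd h.2 (not_le.2 (hlt.trans h3))
    exact ⟨h₁.le_mx h4, h5, h4, hlt, fun x hx => hno x (Or.inl hx)⟩
  · right; left
    have h5 : γ ∈ s₁ := hγ.resolve_right fun h => absurd (h3 ▸ hlt) (not_lt.2 h.2)
    refine ⟨?_, h3⟩
    by_contra hne
    have h6 : γ < mx s₁ := lt_of_le_of_ne (h₁.le_mx h5) hne
    exact hno _ (Or.inl h₁.mx_mem) ⟨h6, h3 ▸ h⟩
  · right; right
    have h4 : δ ≤ γ := by
      by_contra h5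
      exact hno δ (Or.inr ⟨hδ, le_rfl⟩) ⟨not_le.1 h5, h3⟩
    have h5 : γ ∈ s₂ := by
      rcases hγ with h6 | h6
      · exact absurd ((h₁.le_mx h6).trans_lt h) (not_lt.2 h4)
      · exact h6.1
    have h6 : γ' ∈ s₂ := by
      rcases hγ' with h6 | h6
      · exact absurd ((h₁.le_mx h6).trans_lt h) (not_lt.2 h3.le)
      · exact h6.1
    exact ⟨h4, h5, h6, hlt, fun x hx hx' => hno x (Or.inr ⟨hx, h4.trans hx'.1.le⟩) hx'⟩

end Glue

/-- regard an index for `γ` as an index for the smaller `m` -/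
def QIdx.weaken {m γ δ : Ordinal.{0}} (h : m ≤ γ) (Q : QIdx γ δ) : QIdx m δ :=
  ⟨Q.le, Q.refl, Q.trans, fun C hC hc => Q.closed C hC (hc.trans (Cardinal.lift_le.2 (L_mono' h)))⟩

theorem QIdx.weaken_inj {m γ δ : Ordinal.{0}} (h : m ≤ γ) {Q Q' : QIdx γ δ}
    (he : Q.weaken h = Q'.weaken h) : Q = Q' := by
  have h1 : (Q.weaken h).le = (Q'.weaken h).le := congrArg QIdx.le he
  cases Q; cases Q'
  simp only [QIdx.weaken] at h1
  subst h1
  rfl

/-- the second coordinate of the projection -/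
noncomputable def projR (m m₁ δ : Ordinal.{0}) (g : R m₁) (r : ∀ γ δ : Ordinal.{0}, B γ δ) :
    ∀ γ δ : Ordinal.{0}, B γ δ :=
  open Classical in
  fun γ γ' i => if γ' ≤ m then r γ γ' i else if γ' ≤ m₁ then ext m₁ g γ γ' i else
    if h : γ' = δ ∧ m ≤ γ then r m γ' (i.1.weaken h.2, i.2 + 1) else r γ γ' i

section ProjR

variable {m m₁ δ : Ordinal.{0}} {g : R m₁} {r : ∀ γ δ : Ordinal.{0}, B γ δ} {γ γ' : Ordinal.{0}}

theorem projR_low (h : γ' ≤ m) : projR m m₁ δ g r γ γ' = r γ γ' := by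
  funext i; simp only [projR]; rw [if_pos h]

theorem projR_mid (h : ¬ γ' ≤ m) (h' : γ' ≤ m₁) : projR m m₁ δ g r γ γ' = ext m₁ g γ γ' := by
  funext i; simp only [projR]; rw [if_neg h, if_pos h']

theorem projR_top (h : ¬ δ ≤ m) (h' : ¬ δ ≤ m₁) (hγ : m ≤ γ) (i : Idx γ δ) :
    projR m m₁ δ g r γ δ i = r m δ (i.1.weaken hγ, i.2 + 1) := by
  unfold projR; rw [if_neg h, if_neg h', dif_pos ⟨rfl, hγ⟩]

theorem projR_high (h : ¬ γ' ≤ m) (h' : ¬ γ' ≤ m₁) (h'' : γ' ≠ δ) :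
    projR m m₁ δ g r γ γ' = r γ γ' := by
  funext i; simp only [projR]; rw [if_neg h, if_neg h', dif_neg fun h => h'' h.1]

end ProjR

variable {κ : Cardinal.{0}}

/-- The data of an absorption: `t` the base condition, `p₁ ≤ t` the condition whose cone is
absorbed, `δ` the new point. -/
structure Abs (κ : Cardinal.{0}) (t p₁ : Cond κ.ord) (δ : Ordinal.{0}) : Type 1 where
  le : p₁ ≤ t
  lt : mx p₁.s < δ
  ltK : δ < κ.ord
  ni : NI δ
  Lle : (L (mx p₁.s)).ord ≤ δ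
  Q : QIdx (mx t.s) δ
  ρ : X δ → R (mx p₁.s)
  ρ_le : ∀ x γ γ', Cons p₁.s γ γ' → mx t.s ≤ γ → Ble (ext _ (ρ x) γ γ') (p₁.r γ γ')
  ρ_surj : ∀ g : (∀ γ δ : Ordinal.{0}, B γ δ),
    (∀ γ γ', Cons p₁.s γ γ' → mx t.s ≤ γ → Ble (g γ γ') (p₁.r γ γ')) →
    ∃ x, ∀ γ γ', Cons p₁.s γ γ' → mx t.s ≤ γ → ext _ (ρ x) γ γ' = g γ γ'
  Q_le : ∀ x y, Q.le x y ↔
    ∀ γ γ', Cons p₁.s γ γ' → mx t.s ≤ γ → Ble (ext _ (ρ x) γ γ') (ext _ (ρ y) γ γ')

theorem exists_abs {t p₁ : Cond κ.ord} (h : p₁ ≤ t) {δ : Ordinal.{0}}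
    (h1 : mx p₁.s < δ) (h2 : δ < κ.ord) (h3 : NI δ) (h4 : (L (mx p₁.s)).ord ≤ δ) :
    Nonempty (Abs κ t p₁ δ) := by
  classical
  let Z : Type 1 := {g : R (mx p₁.s) //
    ∀ γ γ', Cons p₁.s γ γ' → mx t.s ≤ γ → Ble (ext _ g γ γ') (p₁.r γ γ')}
  let le : Z → Z → Prop := fun g g' =>
    ∀ γ γ', Cons p₁.s γ γ' → mx t.s ≤ γ → Ble (ext _ g.1 γ γ') (ext _ g'.1 γ γ')
  have hres : ∀ (a : ∀ γ δ : Ordinal.{0}, B γ δ) γ γ', Cons p₁.s γ γ' →
      ext _ (res (mx p₁.s) a) γ γ' = a γ γ' := fun a γ γ' hc =>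
    ext_res (p₁.good.cons_le hc).1 (p₁.good.cons_le hc).2
  have hne : Nonempty Z := ⟨⟨res _ p₁.r, fun γ γ' hc _ => by rw [hres _ _ _ hc]; exact Ble.refl _⟩⟩
  have hcl : ChainClosed (lift.{1} (L (mx t.s))) le := by
    intro C hC hc
    rcases C.eq_empty_or_nonempty with rfl | ⟨z, hz⟩
    · obtain ⟨z⟩ := hne
      exact ⟨z, fun y hy => hy.elim⟩
    · have hlow : ∀ γ γ', Cons p₁.s γ γ' → mx t.s ≤ γ → ∃ b : B γ γ', ∀ g ∈ C,
          Ble b (ext _ g.1 γ γ') := by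
        intro γ γ' hcons hγ
        obtain ⟨b, hb⟩ := B_chainClosed (γ := γ) (δ := γ')
          ((fun g : Z => ext _ g.1 γ γ') '' C) (by
            rintro _ ⟨g, hg, rfl⟩ _ ⟨g', hg', rfl⟩
            rcases hC g hg g' hg' with h | h
            · exact Or.inl (h γ γ' hcons hγ)
            · exact Or.inr (h γ γ' hcons hγ))
          (mk_image_le.trans (hc.trans (Cardinal.lift_le.2 (L_mono' hγ))))
        exact ⟨b, fun g hg => hb _ ⟨g, hg, rfl⟩⟩
      let b : ∀ γ δ : Ordinal.{0}, B γ δ := fun γ γ' =>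
        if h : Cons p₁.s γ γ' ∧ mx t.s ≤ γ then (hlow γ γ' h.1 h.2).choose else p₁.r γ γ'
      have hb : ∀ γ γ', Cons p₁.s γ γ' → mx t.s ≤ γ → ∀ g ∈ C, Ble (b γ γ') (ext _ g.1 γ γ') := by
        intro γ γ' hcons hγ g hg
        simp only [b]
        rw [dif_pos ⟨hcons, hγ⟩]
        exact (hlow γ γ' hcons hγ).choose_spec g hg
      refine ⟨⟨res _ b, fun γ γ' hcons hγ => ?_⟩, fun g hg γ γ' hcons hγ => ?_⟩
      · rw [hres _ _ _ hcons]
        exact (hb γ γ' hcons hγ z hz).trans (z.2 γ γ' hcons hγ)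
      · show Ble (ext _ (res (mx p₁.s) b) γ γ') _
        rw [hres _ _ _ hcons]
        exact hb γ γ' hcons hγ g hg
  obtain ⟨Q, ρ, hρ, hQ⟩ := exists_qidx (γ := mx t.s) (δ := δ) le
    (fun g γ γ' _ _ => Ble.refl _) (fun g g' g'' h h' γ γ' hc hγ => (h γ γ' hc hγ).trans
      (h' γ γ' hc hγ)) hcl ((mk_subtype_le _).trans (mk_R_le_mk_X h4))
  refine ⟨⟨h, h1, h2, h3, h4, Q, fun x => (ρ x).1, fun x => (ρ x).2, ?_, hQ⟩⟩
  intro g hg
  obtain ⟨x, hx⟩ := hρ ⟨res _ g, fun γ γ' hc hγ => by rw [hres _ _ _ hc]; exact hg γ γ' hc hγ⟩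
  refine ⟨x, fun γ γ' hc _ => ?_⟩
  rw [hx]
  exact hres _ _ _ hc

namespace Abs

variable {t p₁ : Cond κ.ord} {δ : Ordinal.{0}} (D : Abs κ t p₁ δ)

/-- `p0` is a suitable condition with one more point `δ` above `t`. -/
structure Base (p₀ : Cond κ.ord) : Prop where
  hs : p₀.s = insert δ t.s
  hr : ∀ γ γ', Cons t.s γ γ' → Ble (p₀.r γ γ') (p₁.r γ γ')

theorem mt_le {t p₁ : Cond κ.ord} {δ : Ordinal.{0}} (D : Abs κ t p₁ δ) : mx t.s ≤ mx p₁.s :=
  p₁.good.le_mx (D.le.1.1 t.good.mx_mem)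

theorem mt_lt {t p₁ : Cond κ.ord} {δ : Ordinal.{0}} (D : Abs κ t p₁ δ) : mx t.s < δ :=
  D.mt_le.trans_lt D.lt

variable {D} {p₀ : Cond κ.ord}

section Facts

variable (h0 : Base (t := t) (p₁ := p₁) (δ := δ) p₀) {p : Cond κ.ord} (hp : p ≤ p₀)

include D h0 hp

theorem mem_δ : δ ∈ p.s := hp.1.1 (by rw [h0.hs]; exact mem_insert _ _)

theorem sub_t : t.s ⊆ p.s := fun x hx => hp.1.1 (by rw [h0.hs]; exact mem_insert_of_mem _ hx)

theorem below_δ {x : Ordinal.{0}} (hx : x ∈ p.s) (h : x < δ) : x ∈ t.s := by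
  have h1 : mx p₀.s = δ := by rw [h0.hs]; exact mx_insert t.good D.mt_lt
  have h2 := hp.1.2 x hx (by rw [h1]; exact h.le)
  rw [h0.hs] at h2
  exact h2.resolve_left h.ne

theorem endExt_t : EndExt p.s t.s :=
  ⟨sub_t (D := D) h0 hp, fun _ hx hle => below_δ (D := D) h0 hp hx (hle.trans_lt D.mt_lt)⟩

theorem cons_mδ : Cons p.s (mx t.s) δ :=
  ⟨sub_t (D := D) h0 hp t.good.mx_mem, mem_δ (D := D) h0 hp, D.mt_lt, fun _ hx hx' =>
    absurd (t.good.le_mx (below_δ (D := D) h0 hp hx hx'.2)) (not_le.2 hx'.1)⟩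

end Facts

open Classical in
/-- the projection -/
noncomputable def proj (D : Abs κ t p₁ δ) (p : Cond κ.ord) : Cond κ.ord :=
  ⟨glue p₁.s p.s δ, projR (mx t.s) (mx p₁.s) δ (D.ρ (p.r (mx t.s) δ (D.Q, 0))) p.r,
    good_glue p₁.good p.good D.lt D.Lle⟩

theorem proj_s (p : Cond κ.ord) : (D.proj p).s = glue p₁.s p.s δ := rfl

/-- the part up to `mx t.s` is not changed -/
theorem proj_low (p : Cond κ.ord) {γ γ' : Ordinal.{0}} (h : γ' ≤ mx t.s) :
    (D.proj p).r γ γ' = p.r γ γ' := projR_low h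

theorem m_le_of_cons {γ γ' : Ordinal.{0}} (D : Abs κ t p₁ δ) (hc : Cons p₁.s γ γ')
    (h : ¬ γ' ≤ mx t.s) : mx t.s ≤ γ := by
  by_contra h1
  exact hc.2.2.2 (mx t.s) (D.le.1.1 t.good.mx_mem) ⟨not_le.1 h1, not_le.1 h⟩

variable (D)

theorem proj_mono (h0 : Base (t := t) (p₁ := p₁) (δ := δ) p₀) {p q : Cond κ.ord} (hp : p ≤ p₀)
    (hq : q ≤ p) : D.proj q ≤ D.proj p := by
  have hδp := mem_δ (D := D) h0 hp
  have hmx : mx (glue p₁.s p.s δ) = mx p.s := mx_glue p₁.good p.good D.lt hδp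
  refine ⟨⟨?_, ?_⟩, ?_⟩
  · rintro x (hx | hx)
    · exact Or.inl hx
    · exact Or.inr ⟨hq.1.1 hx.1, hx.2⟩
  · rintro x (hx | hx) hle
    · exact Or.inl hx
    · rw [proj_s, hmx] at hle
      exact Or.inr ⟨hq.1.2 x hx.1 hle, hx.2⟩
  · intro γ γ' hc
    rcases cons_glue p₁.good D.lt hδp hc with ⟨h1, hc1⟩ | ⟨rfl, rfl⟩ | ⟨h1, hc1⟩
    · by_cases h2 : γ' ≤ mx t.s
      · rw [proj_low _ h2, proj_low _ h2]
        exact hq.2 γ γ' ((hc1.of_ext D.le.1 h2).ext (endExt_t (D := D) h0 hp) t.good)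
      · have h3 := m_le_of_cons D hc1 h2
        show Ble (projR _ _ _ _ _ γ γ') (projR _ _ _ _ _ γ γ')
        rw [projR_mid h2 h1, projR_mid h2 h1]
        exact (D.Q_le _ _).1 (hq.2 _ _ (cons_mδ (D := D) h0 hp) (D.Q, 0)) γ γ' hc1 h3
    · intro i
      show i.1.le (projR _ _ _ _ _ _ _ i) (projR _ _ _ _ _ _ _ i)
      rw [projR_top (not_le.2 D.mt_lt) (not_le.2 D.lt) D.mt_le,
        projR_top (not_le.2 D.mt_lt) (not_le.2 D.lt) D.mt_le]
      exact hq.2 _ _ (cons_mδ (D := D) h0 hp) (i.1.weaken D.mt_le, i.2 + 1)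
    · have h2 : δ < γ' := h1.trans_lt hc1.2.2.1
      show Ble (projR _ _ _ _ _ γ γ') (projR _ _ _ _ _ γ γ')
      rw [projR_high (not_le.2 (D.mt_lt.trans h2)) (not_le.2 (D.lt.trans h2)) h2.ne',
        projR_high (not_le.2 (D.mt_lt.trans h2)) (not_le.2 (D.lt.trans h2)) h2.ne']
      exact hq.2 γ γ' hc1

theorem proj_le (h0 : Base (t := t) (p₁ := p₁) (δ := δ) p₀) {p : Cond κ.ord} (hp : p ≤ p₀) :
    D.proj p ≤ p₁ := by
  refine ⟨endExt_glue D.lt, fun γ γ' hc1 => ?_⟩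
  have h1 := (p₁.good.cons_le hc1).2
  by_cases h2 : γ' ≤ mx t.s
  · rw [proj_low _ h2]
    have hct : Cons t.s γ γ' := hc1.of_ext D.le.1 h2
    have hc0 : Cons p₀.s γ γ' := by
      refine hct.ext ?_ t.good
      rw [h0.hs]
      exact endExt_insert t.good D.mt_lt
    exact (hp.2 γ γ' hc0).trans (h0.hr γ γ' hct)
  · have h3 := m_le_of_cons D hc1 h2
    show Ble (projR _ _ _ _ _ γ γ') _
    rw [projR_mid h2 h1]
    exact D.ρ_le _ γ γ' hc1 h3

/-- lifting -/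
theorem proj_lift (h0 : Base (t := t) (p₁ := p₁) (δ := δ) p₀) {p : Cond κ.ord} (hp : p ≤ p₀)
    {q : Cond κ.ord} (hq : q ≤ D.proj p) : ∃ p', p' ≤ p ∧ D.proj p' ≤ q := by
  classical
  have hδp := mem_δ (D := D) h0 hp
  have hmx : mx (glue p₁.s p.s δ) = mx p.s := mx_glue p₁.good p.good D.lt hδp
  have hδq : δ ∈ q.s := hq.1.1 (Or.inr ⟨hδp, le_rfl⟩)
  have hq1 : q ≤ p₁ := hq.trans (D.proj_le h0 hp)
  -- elements of q.s below δ
  have hqlow : ∀ x ∈ q.s, x < δ → x ∈ p₁.s := by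
    intro x hx hlt
    have h1 : x ≤ mx (D.proj p).s := by
      rw [proj_s, hmx]; exact hlt.le.trans (p.good.le_mx hδp)
    rcases hq.1.2 x hx h1 with h2 | h2
    · exact h2
    · exact absurd hlt (not_lt.2 h2.2)
  obtain ⟨x, hx⟩ := D.ρ_surj q.r (fun γ γ' hc _ => hq1.2 γ γ' hc)
  let b : B (mx t.s) δ := fun i => match i with
    | (Q', 0) => if Q' = D.Q then x else p.r (mx t.s) δ (Q', 0)
    | (Q', n + 1) => if h : ∃ Q'' : QIdx (mx p₁.s) δ, Q''.weaken D.mt_le = Q' then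
        q.r (mx p₁.s) δ (h.choose, n) else p.r (mx t.s) δ (Q', n + 1)
  have hbQ : b (D.Q, 0) = x := by simp [b]
  have hbw : ∀ (Q'' : QIdx (mx p₁.s) δ) (n : ℕ),
      b (Q''.weaken D.mt_le, n + 1) = q.r (mx p₁.s) δ (Q'', n) := by
    intro Q'' n
    have h : ∃ Q₃ : QIdx (mx p₁.s) δ, Q₃.weaken D.mt_le = Q''.weaken D.mt_le := ⟨Q'', rfl⟩
    have h2 : h.choose = Q'' := QIdx.weaken_inj _ h.choose_spec
    simp only [b]
    rw [dif_pos h, h2]
  let r' : ∀ γ δ : Ordinal.{0}, B γ δ :=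
    Function.update q.r (mx t.s) (Function.update (q.r (mx t.s)) δ b)
  have hr'b : r' (mx t.s) δ = b := by simp only [r', Function.update_self]
  have hr'ne : ∀ γ γ', γ' ≠ δ → r' γ γ' = q.r γ γ' := by
    intro γ γ' hne
    by_cases h : γ = mx t.s
    · subst h; simp only [r', Function.update_self, Function.update_of_ne hne]
    · simp only [r', Function.update_of_ne h]
  let p' : Cond κ.ord := ⟨glue t.s q.s δ, r', good_glue t.good q.good D.mt_lt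
    ((ord_le_ord.2 (L_mono' D.mt_le)).trans D.Lle)⟩
  have hcons_p : ∀ {γ γ'}, Cons p.s γ γ' →
      (γ' ≤ mx t.s ∧ Cons t.s γ γ') ∨ (γ = mx t.s ∧ γ' = δ) ∨ (δ ≤ γ ∧ Cons p.s γ γ') := by
    intro γ γ' hc
    have he : p.s = glue t.s p.s δ := by
      ext y
      constructor
      · intro hy
        by_cases h : y < δ
        · exact Or.inl (below_δ (D := D) h0 hp hy h)
        · exact Or.inr ⟨hy, not_lt.1 h⟩
      · rintro (hy | hy)
        · exact sub_t (D := D) h0 hp hy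
        · exact hy.1
    have hc' := hc
    rw [he] at hc'
    exact cons_glue t.good D.mt_lt hδp hc'
  refine ⟨p', ⟨⟨?_, ?_⟩, ?_⟩, ⟨⟨?_, ?_⟩, ?_⟩⟩
  · -- p.s ⊆ p'.s
    intro y hy
    by_cases h : y < δ
    · exact Or.inl (below_δ (D := D) h0 hp hy h)
    · exact Or.inr ⟨hq.1.1 (Or.inr ⟨hy, not_lt.1 h⟩), not_lt.1 h⟩
  · rintro y (hy | ⟨hy, hδy⟩) hle
    · exact sub_t (D := D) h0 hp hy
    · have h1 : y ≤ mx (D.proj p).s := by rw [proj_s, hmx]; exact hle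
      rcases hq.1.2 y hy h1 with h2 | h2
      · exact absurd ((p₁.good.le_mx h2).trans_lt D.lt) (not_lt.2 hδy)
      · exact h2.1
  · intro γ γ' hc
    rcases hcons_p hc with ⟨h1, hc1⟩ | ⟨rfl, rfl⟩ | ⟨h1, hc1⟩
    · show Ble (r' γ γ') (p.r γ γ')
      rw [hr'ne γ γ' (h1.trans_lt D.mt_lt).ne]
      have h2 := hq.2 γ γ' ((hc1.ext D.le.1 t.good).ext (endExt_glue D.lt) p₁.good)
      rw [proj_low _ h1] at h2
      exact h2
    · show Ble (r' (mx t.s) γ') (p.r (mx t.s) γ')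
      rw [hr'b]
      rintro ⟨Q', n⟩
      cases n with
      | zero =>
        by_cases hQ' : Q' = D.Q
        · subst hQ'
          rw [hbQ]
          show D.Q.le x (p.r (mx t.s) γ' (D.Q, 0))
          rw [D.Q_le]
          intro γ₁ γ₂ hc1 hγ
          rw [hx γ₁ γ₂ hc1 hγ]
          have h2 := hq.2 γ₁ γ₂ (hc1.ext (endExt_glue D.lt) p₁.good)
          have h3 : ¬ γ₂ ≤ mx t.s := not_le.2 (hγ.trans_lt hc1.2.2.1)
          have h4 : (D.proj p).r γ₁ γ₂ = ext _ (D.ρ (p.r (mx t.s) γ' (D.Q, 0))) γ₁ γ₂ :=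
            projR_mid h3 (p₁.good.cons_le hc1).2
          rw [h4] at h2
          exact h2
        · have : b (Q', 0) = p.r (mx t.s) γ' (Q', 0) := by simp only [b]; rw [if_neg hQ']
          rw [this]; exact Q'.refl _
      | succ n =>
        by_cases h : ∃ Q'' : QIdx (mx p₁.s) γ', Q''.weaken D.mt_le = Q'
        · obtain ⟨Q'', rfl⟩ := h
          rw [hbw]
          have hc2 : Cons (D.proj p).s (mx p₁.s) γ' := by
            refine ⟨Or.inl p₁.good.mx_mem, Or.inr ⟨hδp, le_rfl⟩, D.lt, ?_⟩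
            rintro y (hy | hy) hy'
            · exact absurd (p₁.good.le_mx hy) (not_le.2 hy'.1)
            · exact absurd hy'.2 (not_lt.2 hy.2)
          have h2 := hq.2 _ _ hc2 (Q'', n)
          have h3 : (D.proj p).r (mx p₁.s) γ' (Q'', n) =
              p.r (mx t.s) γ' (Q''.weaken D.mt_le, n + 1) :=
            projR_top (not_le.2 D.mt_lt) (not_le.2 D.lt) D.mt_le (Q'', n)
          rw [h3] at h2
          exact h2
        · have : b (Q', n + 1) = p.r (mx t.s) γ' (Q', n + 1) := by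
            simp only [b]; rw [dif_neg h]
          rw [this]; exact Q'.refl _
    · have h2 : δ < γ' := h1.trans_lt hc1.2.2.1
      show Ble (r' γ γ') (p.r γ γ')
      rw [hr'ne γ γ' h2.ne']
      have hc2 : Cons (D.proj p).s γ γ' := by
        refine ⟨Or.inr ⟨hc1.1, h1⟩, Or.inr ⟨hc1.2.1, h2.le⟩, hc1.2.2.1, ?_⟩
        rintro y (hy | hy) hy'
        · exact absurd ((p₁.good.le_mx hy).trans_lt D.lt) (not_lt.2 (h1.trans hy'.1.le))
        · exact hc1.2.2.2 y hy.1 hy'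
      have h3 := hq.2 γ γ' hc2
      have h4 : (D.proj p).r γ γ' = p.r γ γ' :=
        projR_high (not_le.2 (D.mt_lt.trans h2)) (not_le.2 (D.lt.trans h2)) h2.ne'
      rw [h4] at h3
      exact h3
  · -- q.s ⊆ (proj p').s
    intro y hy
    by_cases h : y < δ
    · exact Or.inl (hqlow y hy h)
    · exact Or.inr ⟨Or.inr ⟨hy, not_lt.1 h⟩, not_lt.1 h⟩
  · rintro y (hy | ⟨hy | hy, hδy⟩) _
    · exact hq1.1.1 hy
    · exact absurd ((t.good.le_mx hy).trans_lt D.mt_lt) (not_lt.2 hδy)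
    · exact hy.1
  · intro γ γ' hc
    have he : q.s = glue p₁.s q.s δ := by
      ext y
      constructor
      · intro hy
        by_cases h : y < δ
        · exact Or.inl (hqlow y hy h)
        · exact Or.inr ⟨hy, not_lt.1 h⟩
      · rintro (hy | hy)
        · exact hq1.1.1 hy
        · exact hy.1
    have hc' := hc
    rw [he] at hc'
    rcases cons_glue p₁.good D.lt hδq hc' with ⟨h1, hc1⟩ | ⟨h1, h2⟩ | ⟨h1, hc1⟩
    · by_cases h2 : γ' ≤ mx t.s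
      · rw [proj_low _ h2]
        show Ble (r' γ γ') (q.r γ γ')
        rw [hr'ne γ γ' (h2.trans_lt D.mt_lt).ne]
        exact Ble.refl _
      · have h3 := m_le_of_cons D hc1 h2
        show Ble (projR _ _ _ (D.ρ (r' (mx t.s) δ (D.Q, 0))) _ γ γ') _
        rw [projR_mid h2 h1, hr'b, hbQ, hx γ γ' hc1 h3]
        exact Ble.refl _
    · subst h1 h2
      rintro ⟨Q'', n⟩
      have h3 : (D.proj p').r (mx p₁.s) γ' (Q'', n) =
          p'.r (mx t.s) γ' (Q''.weaken D.mt_le, n + 1) :=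
        projR_top (not_le.2 D.mt_lt) (not_le.2 D.lt) D.mt_le (Q'', n)
      rw [h3]
      show Q''.le (r' (mx t.s) γ' (Q''.weaken D.mt_le, n + 1)) _
      rw [hr'b, hbw]
      exact Q''.refl _
    · have h2 : δ < γ' := h1.trans_lt hc1.2.2.1
      have h4 : (D.proj p').r γ γ' = p'.r γ γ' :=
        projR_high (not_le.2 (D.mt_lt.trans h2)) (not_le.2 (D.lt.trans h2)) h2.ne'
      rw [h4]
      show Ble (r' γ γ') (q.r γ γ')
      rw [hr'ne γ γ' h2.ne']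
      exact Ble.refl _

theorem isProj (h0 : Base (t := t) (p₁ := p₁) (δ := δ) p₀) : Proj p₀ D.proj :=
  ⟨fun _ _ hp hq => D.proj_mono h0 hp hq, fun _ hp _ hs => D.proj_lift h0 hp hs⟩

end Abs

end Pool.Agent.Lib.Forcing
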