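import Pool.Agent.Lib.Forcing.Defs

/-!
Weakly compact cardinals, defined by the partition property `κ → (κ)²₂`: they are inaccessible and
satisfy `κ → (κ)²_C` for every set `C` of fewer than `κ` colours.
-/

set_option autoImplicit false

open Cardinal Ordinal Set

namespace Pool.Agent.Lib.Forcing

section Basic

variable {κ : Cardinal.{0}}

theorem mk_Iio_lt_lift {b : Ordinal.{0}} (hb : b < κ.ord) : #(Set.Iio b) < lift.{1} κ := by
  rw [Cardinal.mk_Iio_ordinal, Cardinal.lift_lt]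
  exact lt_ord.1 hb

/-- A subset of `κ` of size `κ` is unbounded. -/
theorem unbounded_of_mk {H : Set Ordinal.{0}} (hH : #H = lift.{1} κ) {b : Ordinal.{0}}
    (hb : b < κ.ord) : ∃ a ∈ H, b ≤ a := by
  by_contra! h
  have h1 : #H ≤ #(Set.Iio b) := mk_le_mk_of_subset h
  exact absurd (h1.trans_lt (mk_Iio_lt_lift hb)) (by rw [hH]; exact lt_irrefl _)

/-- A subset of a regular cardinal `κ` with fewer than `κ` elements is bounded. -/
theorem bounded_of_mk_lt (hκ : κ.IsRegular) {S : Set Ordinal.{0}} (hS : S ⊆ Set.Iio κ.ord)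
    (hc : #S < lift.{1} κ) : ∃ b < κ.ord, ∀ a ∈ S, a < b := by
  refine ⟨sSup ((· + 1) '' S), ?_, ?_⟩
  · refine sSup_add_one_lt_of_lt_cof ?_ hS
    rw [← lift_cof, hκ.cof_ord]
    exact hc
  · intro a ha
    refine lt_of_lt_of_le (Order.lt_add_one_iff.2 le_rfl) (le_csSup ?_ ⟨a, ha, rfl⟩)
    refine ⟨κ.ord, ?_⟩
    rintro _ ⟨x, hx, rfl⟩
    exact Order.add_one_le_of_lt (hS hx)

/-- An unbounded subset of a regular cardinal `κ` has size `κ`. -/
theorem mk_of_unbounded (hκ : κ.IsRegular) {H : Set Ordinal.{0}} (hH : H ⊆ Set.Iio κ.ord)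
    (hu : ∀ b < κ.ord, ∃ a ∈ H, b ≤ a) : #H = lift.{1} κ := by
  refine le_antisymm ?_ ?_
  · refine (mk_le_mk_of_subset hH).trans ?_
    rw [Cardinal.mk_Iio_ordinal, card_ord]
  · by_contra! h
    obtain ⟨b, hb, hb'⟩ := bounded_of_mk_lt hκ hH h
    obtain ⟨a, ha, hab⟩ := hu b hb
    exact absurd (hb' a ha) (not_lt.2 hab)

/-- A family of fewer than `κ` ordinals below the regular cardinal `κ` is bounded. -/
theorem bounded_family (hκ : κ.IsRegular) {ι : Type 1} (hι : #ι < lift.{1} κ)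
    {g : ι → Ordinal.{0}} (hg : ∀ i, g i < κ.ord) : ∃ b < κ.ord, ∀ i, g i < b := by
  obtain ⟨b, hb, h⟩ := bounded_of_mk_lt hκ (S := Set.range g)
    (by rintro _ ⟨i, rfl⟩; exact hg i) (mk_range_le.trans_lt hι)
  exact ⟨b, hb, fun i => h _ ⟨i, rfl⟩⟩

end Basic

/-- Sequences that increase in the sense of first differences are eventually constant at every
coordinate with few predecessors. -/
theorem eventually_const {κ : Cardinal.{0}} (hκ : κ.IsRegular) {H : Set Ordinal.{0}}
    (hH : H ⊆ Set.Iio κ.ord) (hc : #H = lift.{1} κ) {ι : Type 1} [LinearOrder ι]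
    [WellFoundedLT ι] {D : Type 1} (hD : #D < lift.{1} κ) (r : D → D → Prop)
    (hirr : ∀ x, ¬ r x x) (htr : ∀ x y z, r x y → r y z → r x z) (F : Ordinal.{0} → ι → D)
    (hF : ∀ a ∈ H, ∀ b ∈ H, a < b → ∃ ξ, (∀ η < ξ, F a η = F b η) ∧ r (F a ξ) (F b ξ)) :
    ∀ ξ : ι, #(Set.Iio ξ) < lift.{1} κ → ∃ γ < κ.ord, ∃ d, ∀ a ∈ H, γ ≤ a → F a ξ = d := by
  intro ξ
  induction ξ using WellFoundedLT.induction with
  | ind ξ ih =>
    intro hξ
    have h1 : ∀ η : Set.Iio ξ, ∃ γ < κ.ord, ∃ d, ∀ a ∈ H, γ ≤ a → F a η.1 = d := by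
      intro η
      refine ih η.1 η.2 (lt_of_le_of_lt (mk_le_mk_of_subset ?_) hξ)
      exact fun x hx => lt_trans hx η.2
    choose g hg d hd using h1
    obtain ⟨γ, hγ, hγ'⟩ := bounded_family hκ hξ hg
    -- past `γ`, the sequence is weakly increasing at `ξ`
    have hmono : ∀ a ∈ H, ∀ b ∈ H, γ ≤ a → a < b → F a ξ = F b ξ ∨ r (F a ξ) (F b ξ) := by
      intro a ha b hb hγa hab
      obtain ⟨ζ, hζ, hr⟩ := hF a ha b hb hab
      have hle : ξ ≤ ζ := by
        by_contra! hlt
        have e1 := hd ⟨ζ, hlt⟩ a ha ((hγ' _).le.trans hγa)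
        have e2 := hd ⟨ζ, hlt⟩ b hb ((hγ' _).le.trans (hγa.trans hab.le))
        have e : F a ζ = F b ζ := e1.trans e2.symm
        rw [e] at hr
        exact hirr _ hr
      rcases hle.lt_or_eq with h | h
      · exact Or.inl (hζ ξ h)
      · subst h
        exact Or.inr hr
    have h0 : ℵ₀ ≤ #H := by
      rw [hc, ← Cardinal.lift_aleph0.{1, 0}, Cardinal.lift_le]
      exact hκ.aleph0_le
    obtain ⟨e, he⟩ := infinite_pigeonhole (fun a : H => F a.1 ξ) h0 (by
      rw [hc, hκ.lift.cof_ord]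
      exact hD)
    have he' : #(((fun a : H => a.1) '' ((fun a : H => F a.1 ξ) ⁻¹' {e})) : Set Ordinal.{0})
        = lift.{1} κ := by
      rw [mk_image_eq Subtype.val_injective, he, hc]
    obtain ⟨a0, ⟨a0', ha0, rfl⟩, hγa⟩ := unbounded_of_mk he' hγ
    have ha0H : (a0' : Ordinal.{0}) ∈ H := a0'.2
    have ha0e : F a0'.1 ξ = e := ha0
    refine ⟨a0', hH ha0H, e, ?_⟩
    intro b hb hab
    rcases hab.eq_or_lt with hab | hab
    · rw [← hab]
      exact ha0e
    · have hbκ : b + 1 < κ.ord := by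
        have := (isSuccLimit_ord hκ.aleph0_le).add_one_lt (hH hb)
        exact this
      obtain ⟨a1, ⟨a1', ha1, rfl⟩, hba⟩ := unbounded_of_mk he' hbκ
      have ha1H : (a1' : Ordinal.{0}) ∈ H := a1'.2
      have ha1e : F a1'.1 ξ = e := ha1
      have hba' : b < a1'.1 := lt_of_lt_of_le (Order.lt_add_one_iff.2 le_rfl) hba
      rcases hmono _ ha0H b hb hγa hab with h | h
      · rw [← h]
        exact ha0e
      · rcases hmono b hb _ ha1H (hγa.trans hab.le) hba' with h' | h'
        · rw [h']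
          exact ha1e
        · exfalso
          have := htr _ _ _ h h'
          rw [ha0e, ha1e] at this
          exact hirr _ this

theorem WeaklyCompact.isRegular {κ : Cardinal.{0}} (h : WeaklyCompact κ) : κ.IsRegular := by
  refine ⟨h.1.le, ?_⟩
  by_contra! hlt
  -- a cofinal set of size less than `κ`
  obtain ⟨S, hS, hScard⟩ := Order.exists_cof_eq (Set.Iio κ.ord)
  have hSlt : #S < lift.{1} κ := by
    rw [hScard, cof_Iio, ← lift_cof, Cardinal.lift_lt]
    exact hlt
  classical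
  -- the block of an ordinal
  have hex : ∀ a : Ordinal.{0}, a < κ.ord → ∃ s : S, a ≤ s.1.1 := by
    intro a ha
    obtain ⟨s, hs, has⟩ := hS ⟨a, ha⟩
    exact ⟨⟨s, hs⟩, has⟩
  have hne : Nonempty S := by
    obtain ⟨s, -⟩ := hex 0 (by rw [lt_ord, card_zero]; exact (aleph0_pos.trans h.1))
    exact ⟨s⟩
  let p : Ordinal.{0} → S := fun a =>
    if ha : a < κ.ord then
      ((inferInstance : WellFoundedLT (Set.Iio κ.ord)).wf.onFun (f := fun s : S => s.1)).min
        {s : S | a ≤ s.1.1} (hex a ha)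
    else Classical.choice hne
  have hp : ∀ a, a < κ.ord → a ≤ (p a).1.1 := by
    intro a ha
    simp only [p, dif_pos ha]
    exact WellFounded.min_mem ((inferInstance : WellFoundedLT (Set.Iio κ.ord)).wf.onFun
      (f := fun s : S => s.1)) {s : S | a ≤ s.1.1} (hex a ha)
  obtain ⟨H, hH, hc, i, hi⟩ := h.2 fun a b => decide (p a = p b)
  have hcard0 : (0 : Ordinal.{0}) < κ.ord := by
    rw [lt_ord, card_zero]; exact aleph0_pos.trans h.1
  cases i with
  | false =>
    have hinj : Function.Injective (fun a : H => p a.1) := by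
      intro a b hab
      by_contra hne
      rcases lt_or_gt_of_ne (fun e => hne (Subtype.ext e)) with hlt | hlt
      · have := hi a.1 a.2 b.1 b.2 hlt
        exact absurd hab (of_decide_eq_false this)
      · have := hi b.1 b.2 a.1 a.2 hlt
        exact absurd hab.symm (of_decide_eq_false this)
    have := mk_le_of_injective hinj
    rw [hc] at this
    exact absurd hSlt (not_lt.2 this)
  | true =>
    obtain ⟨a0, ha0, -⟩ := unbounded_of_mk hc hcard0
    have hb : ∀ a ∈ H, p a = p a0 := by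
      intro a ha
      rcases lt_trichotomy a a0 with hlt | rfl | hlt
      · exact of_decide_eq_true (hi a ha a0 ha0 hlt)
      · rfl
      · exact (of_decide_eq_true (hi a0 ha0 a ha hlt)).symm
    have hlim : (p a0).1.1 + 1 < κ.ord := (isSuccLimit_ord h.1.le).add_one_lt (p a0).1.2
    obtain ⟨a, ha, hle⟩ := unbounded_of_mk hc hlim
    have h1 := hp a (hH ha)
    rw [hb a ha] at h1
    have h2 : (p a0).1.1 < a := lt_of_lt_of_le (Order.lt_add_one_iff.2 le_rfl) hle
    exact absurd h1 (not_le.2 h2)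

/-- The first coordinate at which two functions differ. -/
theorem exists_first_diff {ι : Type 1} [LinearOrder ι] [WellFoundedLT ι] {D : Type 1}
    {f g : ι → D} (h : f ≠ g) : ∃ ξ, (∀ η < ξ, f η = g η) ∧ f ξ ≠ g ξ := by
  have hne : {ξ | f ξ ≠ g ξ}.Nonempty := by
    by_contra hc
    rw [Set.not_nonempty_iff_eq_empty] at hc
    apply h
    funext ξ
    by_contra hx
    have : ξ ∈ {ξ | f ξ ≠ g ξ} := hx
    rw [hc] at this
    exact this
  refine ⟨WellFounded.min (inferInstance : WellFoundedLT ι).wf _ hne, ?_,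
    WellFounded.min_mem (inferInstance : WellFoundedLT ι).wf _ hne⟩
  intro η hη
  by_contra hx
  exact WellFounded.not_lt_min (inferInstance : WellFoundedLT ι).wf _ hx hη

/-- The consequence of `κ → (κ)²₂` used twice below: a sequence of distinct functions has a
subsequence of length `κ` which is eventually constant at every coordinate with few
predecessors. -/
theorem WeaklyCompact.stabilise {κ : Cardinal.{0}} (h : WeaklyCompact κ) {ι : Type 1}
    [LinearOrder ι] [WellFoundedLT ι] {D : Type 1} (hD : #D < lift.{1} κ)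
    (F : Ordinal.{0} → ι → D) (hF : ∀ a < κ.ord, ∀ b < κ.ord, a < b → F a ≠ F b) :
    ∃ H : Set Ordinal.{0}, H ⊆ Set.Iio κ.ord ∧ #H = lift.{1} κ ∧
      ∀ ξ : ι, #(Set.Iio ξ) < lift.{1} κ → ∃ γ < κ.ord, ∃ d, ∀ a ∈ H, γ ≤ a → F a ξ = d := by
  classical
  let r : D → D → Prop := WellOrderingRel
  obtain ⟨H, hH, hc, i, hi⟩ := h.2 fun a b =>
    decide (∃ ξ, (∀ η < ξ, F a η = F b η) ∧ r (F a ξ) (F b ξ))
  refine ⟨H, hH, hc, ?_⟩
  cases i with
  | true =>
    refine eventually_const h.isRegular hH hc hD r (fun x => irrefl_of r x)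
      (fun x y z => trans_of r) F ?_
    intro a ha b hb hab
    exact of_decide_eq_true (hi a ha b hb hab)
  | false =>
    refine eventually_const h.isRegular hH hc hD (fun x y => r y x) (fun x => irrefl_of r x)
      (fun x y z h1 h2 => trans_of r h2 h1) F ?_
    intro a ha b hb hab
    have h1 := of_decide_eq_false (hi a ha b hb hab)
    obtain ⟨ξ, hξ, hne⟩ := exists_first_diff (hF a (hH ha) b (hH hb) hab)
    refine ⟨ξ, hξ, ?_⟩
    rcases trichotomous_of r (F a ξ) (F b ξ) with h2 | h2 | h2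
    · exact absurd ⟨ξ, hξ, h2⟩ h1
    · exact absurd h2 hne
    · exact h2

/-- A weakly compact cardinal is inaccessible. -/
theorem WeaklyCompact.isInaccessible {κ : Cardinal.{0}} (h : WeaklyCompact κ) :
    κ.IsInaccessible := by
  refine ⟨h.1, h.isRegular.le_cof_ord, ?_⟩
  by_contra hcon
  rw [not_isStrongPrelimit_iff] at hcon
  obtain ⟨μ, hμ, hle⟩ := hcon
  -- an injection of `κ` into `2 ^ μ`
  have hinj : ∃ f : Set.Iio κ.ord → (Set.Iio μ.ord → ULift.{1} Bool), Function.Injective f := by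
    have : #(Set.Iio κ.ord) ≤ #(Set.Iio μ.ord → ULift.{1} Bool) := by
      rw [Cardinal.mk_Iio_ordinal, card_ord]
      have e : #(Set.Iio μ.ord → ULift.{1} Bool) = lift.{1} (2 ^ μ) := by
        rw [← Cardinal.power_def, Cardinal.mk_Iio_ordinal, card_ord, mk_uLift, mk_bool, lift_power]
      rw [e, Cardinal.lift_le]
      exact hle
    obtain ⟨f⟩ := this
    exact ⟨f, f.injective⟩
  obtain ⟨f, hf⟩ := hinj
  classical
  let F : Ordinal.{0} → (Set.Iio μ.ord → ULift.{1} Bool) := fun a =>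
    if ha : a < κ.ord then f ⟨a, ha⟩ else fun _ => ⟨false⟩
  have hFne : ∀ a < κ.ord, ∀ b < κ.ord, a < b → F a ≠ F b := by
    intro a ha b hb hab he
    simp only [F, dif_pos ha, dif_pos hb] at he
    have := congrArg Subtype.val (hf he)
    exact absurd this hab.ne
  have hD : #(ULift.{1} Bool) < lift.{1} κ := by
    rw [mk_uLift, mk_bool, Cardinal.lift_lt]
    exact (Cardinal.natCast_lt_aleph0 (n := 2)).trans h.1
  obtain ⟨H, hH, hc, hst⟩ := h.stabilise hD F hFne
  have hι : #(Set.Iio μ.ord) < lift.{1} κ := by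
    rw [Cardinal.mk_Iio_ordinal, card_ord, Cardinal.lift_lt]
    exact hμ
  have hall : ∀ ξ : Set.Iio μ.ord, ∃ γ < κ.ord, ∃ d, ∀ a ∈ H, γ ≤ a → F a ξ = d := by
    intro ξ
    exact hst ξ (lt_of_le_of_lt (mk_set_le _) hι)
  choose g hg d hd using hall
  obtain ⟨γ, hγ, hγ'⟩ := bounded_family h.isRegular hι hg
  obtain ⟨a, ha, hγa⟩ := unbounded_of_mk hc hγ
  have haκ : a + 1 < κ.ord := (isSuccLimit_ord h.1.le).add_one_lt (hH ha)
  obtain ⟨b, hb, hab⟩ := unbounded_of_mk hc haκ
  have hab' : a < b := lt_of_lt_of_le (Order.lt_add_one_iff.2 le_rfl) hab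
  refine hFne a (hH ha) b (hH hb) hab' ?_
  funext ξ
  rw [hd ξ a ha ((hγ' ξ).le.trans hγa), hd ξ b hb ((hγ' ξ).le.trans (hγa.trans hab'.le))]

/-- A weakly compact cardinal satisfies `κ → (κ)²_C` for every set `C` of fewer than `κ`
colours. -/
theorem WeaklyCompact.partition {κ : Cardinal.{0}} (h : WeaklyCompact κ) {C : Type 1}
    (hC : Cardinal.mk C < Cardinal.lift.{1} κ) (c : Ordinal.{0} → Ordinal.{0} → C) :
    ∃ H : Set Ordinal.{0}, H ⊆ Set.Iio κ.ord ∧ Cardinal.mk H = Cardinal.lift.{1} κ ∧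
      ∃ i, ∀ a ∈ H, ∀ b ∈ H, a < b → c a b = i := by
  classical
  have hreg := h.isRegular
  -- the sequences of colours
  let F : Ordinal.{0} → Ordinal.{0} → Option C := fun a ξ => if ξ < a then some (c ξ a) else none
  have hFne : ∀ a < κ.ord, ∀ b < κ.ord, a < b → F a ≠ F b := by
    intro a _ b _ hab he
    have := congrFun he a
    simp [F, hab] at this
  have hD : #(Option C) < lift.{1} κ := by
    rw [mk_option]
    refine add_lt_of_lt ?_ hC ?_
    · rw [← Cardinal.lift_aleph0.{1, 0}, Cardinal.lift_le]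
      exact h.1.le
    · rw [← Cardinal.lift_one.{0, 1}, Cardinal.lift_lt]
      exact (Cardinal.natCast_lt_aleph0 (n := 1)).trans_le' (by simp) |>.trans h.1
  obtain ⟨H, hH, hc, hst⟩ := h.stabilise hD F hFne
  -- the limit branch
  have hbr : ∀ ξ : Ordinal.{0}, ∃ e : C, ξ < κ.ord →
      ∃ γ < κ.ord, ∀ a ∈ H, γ ≤ a → ξ < a ∧ c ξ a = e := by
    intro ξ
    by_cases hξ : ξ < κ.ord
    · obtain ⟨γ, hγ, d, hd⟩ := hst ξ (mk_Iio_lt_lift hξ)
      have hξ1 : ξ + 1 < κ.ord := (isSuccLimit_ord h.1.le).add_one_lt hξ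
      obtain ⟨a0, ha0, hle0⟩ := unbounded_of_mk hc (max_lt hγ hξ1)
      have hlt0 : ξ < a0 := lt_of_lt_of_le (Order.lt_add_one_iff.2 le_rfl)
        ((le_max_right _ _).trans hle0)
      refine ⟨c ξ a0, fun _ => ⟨max γ (ξ + 1), max_lt hγ hξ1, ?_⟩⟩
      intro a ha hle
      have hlt : ξ < a := lt_of_lt_of_le (Order.lt_add_one_iff.2 le_rfl)
        ((le_max_right _ _).trans hle)
      refine ⟨hlt, ?_⟩
      have e1 := hd a ha ((le_max_left _ _).trans hle)
      have e2 := hd a0 ha0 ((le_max_left _ _).trans hle0)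
      have e3 : F a ξ = F a0 ξ := e1.trans e2.symm
      simpa [F, hlt, hlt0] using e3
    · exact ⟨c ξ ξ, fun h' => absurd h' hξ⟩
  choose g hg using hbr
  -- a maximal end-homogeneous set
  let P : Set (Set Ordinal.{0}) := {S | S ⊆ H ∧ ∀ x ∈ S, ∀ y ∈ S, x < y → c x y = g x}
  obtain ⟨S, hS⟩ : ∃ S, Maximal (· ∈ P) S := by
    refine zorn_subset P ?_
    intro K hKP hK
    refine ⟨⋃₀ K, ⟨?_, ?_⟩, fun s hs => Set.subset_sUnion_of_mem hs⟩
    · exact Set.sUnion_subset fun s hs => (hKP hs).1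
    · rintro x ⟨s, hs, hxs⟩ y ⟨t, ht, hyt⟩ hxy
      rcases hK.total hs ht with hst | hst
      · exact (hKP ht).2 x (hst hxs) y hyt hxy
      · exact (hKP hs).2 x hxs y (hst hyt) hxy
  have hSH : S ⊆ H := hS.prop.1
  have hSend := hS.prop.2
  have hunb : ∀ b < κ.ord, ∃ a ∈ S, b ≤ a := by
    by_contra! hcon
    obtain ⟨b, hb, hbS⟩ := hcon
    have hScard : #S < lift.{1} κ :=
      lt_of_le_of_lt (mk_le_mk_of_subset (fun x hx => hbS x hx)) (mk_Iio_lt_lift hb)
    have h2 : ∀ x : S, ∃ γ < κ.ord, ∀ a ∈ H, γ ≤ a → x.1 < a ∧ c x.1 a = g x.1 :=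
      fun x => hg x.1 (hH (hSH x.2))
    choose γ hγ hγ' using h2
    obtain ⟨δ, hδ, hδ'⟩ := bounded_family hreg hScard hγ
    obtain ⟨y, hy, hδy⟩ := unbounded_of_mk hc (max_lt hδ hb)
    have hyS : y ∉ S := fun hyS =>
      absurd (hbS y hyS) (not_lt.2 ((le_max_right _ _).trans hδy))
    have hins : insert y S ∈ P := by
      refine ⟨Set.insert_subset hy hSH, ?_⟩
      intro x hx z hz hxz
      rcases hx with rfl | hx
      · rcases hz with rfl | hz
        · exact absurd hxz (lt_irrefl _)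
        · exact absurd (hxz.trans (hbS z hz)) (not_lt.2 ((le_max_right _ _).trans hδy))
      · rcases hz with rfl | hz
        · exact (hγ' ⟨x, hx⟩ z hy ((hδ' ⟨x, hx⟩).le.trans ((le_max_left _ _).trans hδy))).2
        · exact hSend x hx z hz hxz
    have := hS.eq_of_subset hins (Set.subset_insert y S)
    exact hyS (this ▸ Set.mem_insert y S)
  have hSκ : #S = lift.{1} κ := mk_of_unbounded hreg (hSH.trans hH) hunb
  -- pigeonhole on the colour of the branch
  have h0 : ℵ₀ ≤ #S := by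
    rw [hSκ, ← Cardinal.lift_aleph0.{1, 0}, Cardinal.lift_le]
    exact h.1.le
  obtain ⟨e, he⟩ := infinite_pigeonhole (fun a : S => g a.1) h0 (by
    rw [hSκ, hreg.lift.cof_ord]
    exact hC)
  refine ⟨(fun a : S => a.1) '' ((fun a : S => g a.1) ⁻¹' {e}), ?_, ?_, e, ?_⟩
  · rintro _ ⟨a, -, rfl⟩
    exact hH (hSH a.2)
  · rw [mk_image_eq Subtype.val_injective, he, hSκ]
  · rintro _ ⟨a, ha, rfl⟩ _ ⟨b, hb, rfl⟩ hab
    rw [hSend a.1 a.2 b.1 b.2 hab]
    exact ha

end Pool.Agent.Lib.Forcing
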