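import Pool.Agent.Lib.Forcing.PosetDefs
import Pool.Agent.Lib.Forcing.WeaklyCompact

/-!
# Closure of the tail and distributivity
-/

set_option linter.unusedSectionVars false

open Cardinal Ordinal Set

namespace Pool.Agent.Lib.Forcing

/-- Distributivity of closed preorders. -/
theorem distrib {T : Type 1} [Preorder T] {c : Cardinal.{1}}
    (hcl : ChainClosed c (fun x y : T => x ≤ y)) {I : Type 1} (hI : #I ≤ c) (D : I → T → Prop)
    (hopen : ∀ i t t', D i t → t' ≤ t → D i t') (hdense : ∀ i t, ∃ t', t' ≤ t ∧ D i t')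
    (t : T) : ∃ t', t' ≤ t ∧ ∀ i, D i t' := by
  classical
  let lt : I → I → Prop := WellOrderingRel
  have wf : WellFounded lt := IsWellFounded.wf
  let F : I → T := wf.fix (fun i ih =>
    if h : ∃ x, x ≤ t ∧ D i x ∧ ∀ j (hj : lt j i), x ≤ ih j hj then h.choose else t)
  have F_eq : ∀ i, F i =
      if h : ∃ x, x ≤ t ∧ D i x ∧ ∀ j, lt j i → x ≤ F j then h.choose else t :=
    fun i => wf.fix_eq _ i
  have lower : ∀ C : Set T, (∀ x ∈ C, ∀ y ∈ C, x ≤ y ∨ y ≤ x) → #C ≤ c → (∀ x ∈ C, x ≤ t) →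
      ∃ y, y ≤ t ∧ ∀ x ∈ C, y ≤ x := by
    intro C h1 h2 h3
    rcases C.eq_empty_or_nonempty with rfl | ⟨z, hz⟩
    · exact ⟨t, le_rfl, fun x hx => hx.elim⟩
    · obtain ⟨y, hy⟩ := hcl C h1 h2
      exact ⟨y, (hy z hz).trans (h3 z hz), hy⟩
  have spec : ∀ i, F i ≤ t ∧ D i (F i) ∧ ∀ j, lt j i → F i ≤ F j := by
    intro i
    induction i using wf.induction with
    | _ i ih =>
      have hex : ∃ x, x ≤ t ∧ D i x ∧ ∀ j, lt j i → x ≤ F j := by
        obtain ⟨y, hy1, hy2⟩ := lower (F '' {j | lt j i}) (by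
          rintro _ ⟨j, hj, rfl⟩ _ ⟨k, hk, rfl⟩
          rcases trichotomous_of lt j k with h | h | h
          · exact Or.inr ((ih k hk).2.2 j h)
          · rw [h]; exact Or.inl le_rfl
          · exact Or.inl ((ih j hj).2.2 k h)) (mk_image_le.trans ((mk_set_le _).trans hI)) (by
          rintro _ ⟨j, hj, rfl⟩
          exact (ih j hj).1)
        obtain ⟨x, hx1, hx2⟩ := hdense i y
        exact ⟨x, hx1.trans hy1, hx2, fun j hj => hx1.trans (hy2 _ ⟨j, hj, rfl⟩)⟩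
      rw [F_eq i, dif_pos hex]
      exact hex.choose_spec
  obtain ⟨y, hy1, hy2⟩ := lower (Set.range F) (by
      rintro _ ⟨j, rfl⟩ _ ⟨k, rfl⟩
      rcases trichotomous_of lt j k with h | h | h
      · exact Or.inr ((spec k).2.2 j h)
      · rw [h]; exact Or.inl le_rfl
      · exact Or.inl ((spec j).2.2 k h)) (mk_range_le.trans hI) (by
      rintro _ ⟨j, rfl⟩
      exact (spec j).1)
  exact ⟨y, hy1, fun i => hopen i _ _ (spec i).2.1 (hy2 _ ⟨i, rfl⟩)⟩

/-- lower bounds of chains in `B γ δ` -/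
theorem B_chainClosed {γ δ : Ordinal.{0}} : ChainClosed (lift.{1} (L γ)) (Ble (γ := γ) (δ := δ)) := by
  intro C hC hc
  have h : ∀ i : Idx γ δ, ∃ x : X δ, ∀ y ∈ C, i.1.le x (y i) := by
    intro i
    obtain ⟨x, hx⟩ := i.1.closed ((fun b : B γ δ => b i) '' C) (by
      rintro _ ⟨b, hb, rfl⟩ _ ⟨b', hb', rfl⟩
      rcases hC b hb b' hb' with h | h
      · exact Or.inl (h i)
      · exact Or.inr (h i)) (mk_image_le.trans hc)
    exact ⟨x, fun y hy => hx _ ⟨y, hy, rfl⟩⟩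
  choose f hf using h
  exact ⟨f, fun y hy i => hf i y hy⟩

variable {κ : Cardinal.{0}}

/-- `t` is a tail extension of `p`: it agrees with `p` up to the maximum of `p.s`. -/
def TailExt {K : Ordinal.{0}} (t p : Cond K) : Prop :=
  t ≤ p ∧ ∀ γ δ, γ ≤ mx p.s → δ ≤ mx p.s → t.r γ δ = p.r γ δ

theorem L_mono' {γ δ : Ordinal.{0}} (h : γ ≤ δ) : L γ ≤ L δ := by
  unfold L
  rw [beth_le_beth]
  gcongr

theorem aleph0_le_L (γ : Ordinal.{0}) : ℵ₀ ≤ L γ := aleph0_le_beth _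

/-- Chains of tail extensions of size at most `L (mx p.s)` have lower bounds. -/
theorem tail_chain (hκ : κ.IsRegular) {p : Cond κ.ord} (hL : L (mx p.s) < κ)
    (C : Set (Cond κ.ord)) (hne : C.Nonempty) (hchain : ∀ x ∈ C, ∀ y ∈ C, x ≤ y ∨ y ≤ x)
    (hC : #C ≤ lift.{1} (L (mx p.s))) (hT : ∀ t ∈ C, TailExt t p) :
    ∃ u, TailExt u p ∧ ∀ t ∈ C, u ≤ t := by
  classical
  obtain ⟨t0, ht0⟩ := hne
  set m := mx p.s with hm
  -- the union of the first coordinates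
  let S : Set Ordinal.{0} := {x | ∃ t ∈ C, x ∈ t.s}
  have hSsub : ∀ t ∈ C, t.s ⊆ S := fun t ht x hx => ⟨t, ht, hx⟩
  have hmS : ∀ t ∈ C, m ∈ t.s := fun t ht => (hT t ht).1.1.1 p.good.mx_mem
  -- coherence
  have hcoh : ∀ t ∈ C, ∀ x ∈ S, x ≤ mx t.s → x ∈ t.s := by
    rintro t ht x ⟨t', ht', hx⟩ hle
    rcases hchain t ht t' ht' with h | h
    · exact h.1.1 hx
    · exact h.1.2 x hx hle
  obtain ⟨b, hb, hbS⟩ : ∃ b < κ.ord, ∀ x ∈ S, x < b := by
    obtain ⟨b, hb, h⟩ := bounded_family hκ (ι := C) (hC.trans_lt (lift_lt.2 hL))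
      (g := fun t => mx t.1.s) (fun t => t.1.good.lt _ t.1.good.mx_mem)
    refine ⟨b, hb, ?_⟩
    rintro x ⟨t, ht, hx⟩
    exact (t.good.le_mx hx).trans_lt (h ⟨t, ht⟩)
  have hSbdd : BddAbove S := ⟨b, fun x hx => (hbS x hx).le⟩
  have hSne : S.Nonempty := ⟨m, t0, ht0, hmS t0 ht0⟩
  set σ := sSup S with hσ
  have hσlt : σ < κ.ord := (csSup_le hSne fun x hx => (hbS x hx).le).trans_lt hb
  let S' : Set Ordinal.{0} := insert σ S
  have hS'le : ∀ x ∈ S', x ≤ σ := by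
    rintro x (rfl | hx)
    · exact le_rfl
    · exact le_csSup hSbdd hx
  have hS'bdd : BddAbove S' := ⟨σ, hS'le⟩
  have hspacedS : ∀ x ∈ S, ∀ y ∈ S, x < y → (L x).ord ≤ y := by
    rintro x ⟨t, ht, hx⟩ y ⟨t', ht', hy⟩ hxy
    rcases hchain t ht t' ht' with h | h
    · exact t.good.spaced x hx y (h.1.1 hy) hxy
    · exact t'.good.spaced x (h.1.1 hx) y hy hxy
  have hmxS' : sSup S' = σ := le_antisymm (csSup_le ⟨σ, mem_insert _ _⟩ hS'le)
    (le_csSup hS'bdd (mem_insert _ _))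
  -- σ is not inaccessible
  have hni : NI σ := by
    by_cases hmem : σ ∈ S
    · obtain ⟨t, ht, hx⟩ := hmem
      exact t.good.ni _ hx
    · right; left
      have hnomax : ∀ x ∈ S, ∃ y ∈ S, x < y := by
        intro x hx
        have h1 : x < σ := lt_of_le_of_ne (le_csSup hSbdd hx) (fun h => hmem (h ▸ hx))
        obtain ⟨y, hy, h2⟩ := exists_lt_of_lt_csSup hSne h1
        exact ⟨y, hy, h2⟩
      have hlt : (L m).ord < σ := by
        obtain ⟨y, hy, h1⟩ := hnomax m ⟨t0, ht0, hmS t0 ht0⟩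
        obtain ⟨z, hz, h2⟩ := hnomax y hy
        exact ((hspacedS m ⟨t0, ht0, hmS t0 ht0⟩ y hy h1).trans_lt h2).trans_le
          (le_csSup hSbdd hz)
      -- enumerate `C` by `(L m).ord`
      have h1 : #C ≤ #(Set.Iio (L m).ord) := by
        rw [Cardinal.mk_Iio_ordinal, card_ord]; exact hC
      obtain ⟨e⟩ := h1
      let g : Ordinal.{0} → Ordinal.{0} := fun ξ =>
        if h : ∃ t : C, (e t).1 = ξ then mx h.choose.1.s else 0
      refine ⟨(L m).ord, hlt, g, ?_, ?_⟩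
      · intro ξ _
        have hpos : 0 < σ := zero_le.trans_lt hlt
        simp only [g]
        split_ifs with h
        · have h2 := h.choose.2
          have h3 : mx h.choose.1.s ∈ S := ⟨_, h2, h.choose.1.good.mx_mem⟩
          exact lt_of_le_of_ne (le_csSup hSbdd h3) (fun h4 => hmem (h4 ▸ h3))
        · exact hpos
      · intro β hβ
        obtain ⟨x, ⟨t, ht, hx⟩, h2⟩ := exists_lt_of_lt_csSup hSne hβ
        refine ⟨(e ⟨t, ht⟩).1, (e ⟨t, ht⟩).2, ?_⟩
        have h3 : ∃ t' : C, (e t').1 = (e ⟨t, ht⟩).1 := ⟨⟨t, ht⟩, rfl⟩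
        have h4 : h3.choose = ⟨t, ht⟩ := e.injective (Subtype.ext h3.choose_spec)
        simp only [g]
        rw [dif_pos h3, h4]
        exact h2.le.trans (t.good.le_mx hx)
  have hgood : Good κ.ord S' := by
    refine ⟨Or.inr ⟨t0, ht0, t0.good.zero⟩, ?_, ?_, ?_, ?_⟩
    · intro x hx
      exact (hS'le x hx).trans_lt hσlt
    · rintro x (rfl | ⟨t, ht, hx⟩)
      · exact hni
      · exact t.good.ni _ hx
    · rintro x (rfl | hx) y (rfl | hy) hxy
      · exact (lt_irrefl _ hxy).elim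
      · exact (not_lt.2 (le_csSup hSbdd hy) hxy).elim
      · obtain ⟨z, hz, h2⟩ := exists_lt_of_lt_csSup hSne hxy
        exact (hspacedS x hx z hz h2).trans (le_csSup hSbdd hz)
      · exact hspacedS x hx y hy hxy
    · intro T hTS hTne
      by_cases hσT : σ ∈ T
      · left
        exact le_antisymm (csSup_le hTne fun x hx => hS'le x (hTS hx))
          (le_csSup (hS'bdd.mono hTS) hσT)
      · have hTS' : T ⊆ S := fun x hx => (hTS hx).resolve_left fun h => hσT (h ▸ hx)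
        by_cases hub : ∃ x ∈ S, ∀ y ∈ T, y ≤ x
        · obtain ⟨x, ⟨t, ht, hx⟩, h2⟩ := hub
          right
          refine ⟨t, ht, t.good.closed T ?_ hTne⟩
          intro y hy
          exact hcoh t ht y (hTS' hy) ((h2 y hy).trans (t.good.le_mx hx))
        · push Not at hub
          left
          refine le_antisymm (csSup_le hTne fun x hx => hS'le x (hTS hx)) ?_
          refine csSup_le hSne fun x hx => ?_
          obtain ⟨y, hy, h2⟩ := hub x hx
          exact h2.le.trans (le_csSup (hS'bdd.mono hTS) hy)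
  -- the second coordinate
  have hlow : ∀ γ δ : Ordinal.{0}, m ≤ γ → ∃ b : B γ δ, ∀ t ∈ C, Cons t.s γ δ →
      Ble b (t.r γ δ) := by
    intro γ δ hγ
    obtain ⟨b, hb⟩ := B_chainClosed (γ := γ) (δ := δ)
      ((fun t : Cond κ.ord => t.r γ δ) '' {t | t ∈ C ∧ Cons t.s γ δ}) (by
        rintro _ ⟨t, ⟨ht, hc⟩, rfl⟩ _ ⟨t', ⟨ht', hc'⟩, rfl⟩
        rcases hchain t ht t' ht' with h | h
        · exact Or.inl (h.2 γ δ hc')
        · exact Or.inr (h.2 γ δ hc))
      (mk_image_le.trans ((mk_le_mk_of_subset fun x hx => hx.1).trans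
        (hC.trans (lift_le.2 (L_mono' hγ)))))
    exact ⟨b, fun t ht hc => hb _ ⟨t, ⟨ht, hc⟩, rfl⟩⟩
  let r' : ∀ γ δ : Ordinal.{0}, B γ δ := fun γ δ =>
    if γ ≤ m ∧ δ ≤ m then p.r γ δ else if h : m ≤ γ then (hlow γ δ h).choose else p.r γ δ
  have hEnd : ∀ t ∈ C, EndExt S' t.s := by
    intro t ht
    refine ⟨fun x hx => Or.inr ⟨t, ht, hx⟩, ?_⟩
    rintro x (rfl | hx) hle
    · have h1 : mx t.s = σ := le_antisymm (le_csSup hSbdd ⟨t, ht, t.good.mx_mem⟩) hle
      rw [← h1]; exact t.good.mx_mem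
    · exact hcoh t ht x hx hle
  let u : Cond κ.ord := ⟨S', r', hgood⟩
  have hu : ∀ t ∈ C, u ≤ t := by
    intro t ht
    refine ⟨hEnd t ht, ?_⟩
    intro γ δ hc
    show Ble (r' γ δ) (t.r γ δ)
    simp only [r']
    split_ifs with h1 h2
    · rw [(hT t ht).2 γ δ h1.1 h1.2]; exact Ble.refl _
    · exact (hlow γ δ h2).choose_spec t ht hc
    · exfalso
      push Not at h1 h2
      exact hc.2.2.2 m (hmS t ht) ⟨h2, h1 h2.le⟩
  refine ⟨u, ⟨(hu t0 ht0).trans (hT t0 ht0).1, ?_⟩, hu⟩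
  intro γ δ hγ hδ
  show r' γ δ = p.r γ δ
  simp only [r']
  rw [if_pos ⟨hγ, hδ⟩]

end Pool.Agent.Lib.Forcing
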