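import Pool.Agent.Lib.Forcing.Preserve

/-!
# Uniqueness of the transitive collapse inside a model
-/

set_option linter.unusedSimpArgs false
set_option linter.unusedSectionVars false

namespace Pool.Agent.Lib.Forcing

theorem collapse_unique {M : Type*} {E : M → M → Prop} (H : IsZFC M E) {μ T T' f f' z z' : M}
    (hf : IsFun E f μ T) (hs : ∀ y, E y T → ∃ x, IsApp E f x y) (hT : IsTrans E T)
    (hf' : IsFun E f' μ T') (hs' : ∀ y, E y T' → ∃ x, IsApp E f' x y) (hT' : IsTrans E T')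
    (hrel : ∀ x y, E x μ → E y μ → ((∃ a b, IsApp E f x a ∧ IsApp E f y b ∧ E a b) ↔
      (∃ a b, IsApp E f' x a ∧ IsApp E f' y b ∧ E a b)))
    (hz : ∀ x, E x μ → ((∃ a, IsApp E f x a ∧ E a z) ↔ (∃ a, IsApp E f' x a ∧ E a z')))
    (hzT : IsSub E z T) (hzT' : IsSub E z' T') : z = z' := by
  have key : ∀ x a a', IsApp E f x a → IsApp E f' x a' → a = a' := by
    obtain ⟨D, hD⟩ := H.separation (fex (fex (.fand (dApp 3 1 2) (.fand (dApp 4 1 0)
      (.fneg (.feq 2 0)))))) (cons f (fun _ => f')) T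
    have hD' : ∀ a, E a D ↔ E a T ∧ ∃ x a', IsApp E f x a ∧ IsApp E f' x a' ∧ a ≠ a' := by
      intro a
      rw [hD]
      simp only [sat_ex, sat_and, sat_dApp, sat_neg, sat_eq, cons_zero, cons_one, cons_two,
        cons_three, cons_four, ne_eq]
    by_contra hcon
    push Not at hcon
    obtain ⟨x0, a0, a0', h1, h2, h3⟩ := hcon
    obtain ⟨a, ha, hmin⟩ := H.foundation D ⟨a0, (hD' a0).2 ⟨(hf.app_mem H h1).2, x0, a0', h1, h2, h3⟩⟩
    obtain ⟨haT, x, a', hxa, hxa', hne⟩ := (hD' a).1 ha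
    have hxμ := (hf.app_mem H hxa).1
    -- elements of `a` are not in D
    have hsmall : ∀ c, E c a → ∀ y c', IsApp E f y c → IsApp E f' y c' → c = c' := by
      intro c hc y c' h4 h5
      by_contra h6
      exact hmin c hc ((hD' c).2 ⟨hT a haT c hc, y, c', h4, h5, h6⟩)
    apply hne
    apply H.extensionality
    intro c
    constructor
    · intro hc
      obtain ⟨y, hy⟩ := hs c (hT a haT c hc)
      have hyμ := (hf.app_mem H hy).1
      obtain ⟨c', a'', h4, h5, h6⟩ := (hrel y x hyμ hxμ).1 ⟨c, a, hy, hxa, hc⟩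
      have e1 : a'' = a' := hf'.app_unique H h5 hxa'
      have e2 : c = c' := hsmall c hc y c' hy h4
      rw [e2, ← e1]; exact h6
    · intro hc
      have ha'T' := (hf'.app_mem H hxa').2
      obtain ⟨y, hy⟩ := hs' c (hT' a' ha'T' c hc)
      have hyμ := (hf'.app_mem H hy).1
      obtain ⟨c', a'', h4, h5, h6⟩ := (hrel y x hyμ hxμ).2 ⟨c, a', hy, hxa', hc⟩
      have e1 : a'' = a := hf.app_unique H h5 hxa
      subst e1
      have e2 : c' = c := hsmall c' h6 y c h4 hy
      rw [← e2]; exact h6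
  apply H.extensionality
  intro c
  constructor
  · intro hc
    obtain ⟨x, hx⟩ := hs c (hzT c hc)
    have hxμ := (hf.app_mem H hx).1
    obtain ⟨c', h4, h5⟩ := (hz x hxμ).1 ⟨c, hx, hc⟩
    rw [key x c c' hx h4]; exact h5
  · intro hc
    obtain ⟨x, hx⟩ := hs' c (hzT' c hc)
    have hxμ := (hf'.app_mem H hx).1
    obtain ⟨c', h4, h5⟩ := (hz x hxμ).2 ⟨c, hx, hc⟩
    rw [← key x c' c h4 hx]; exact h5

end Pool.Agent.Lib.Forcing
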