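import Pool.Agent.Lib.Forcing.Absorb
import Pool.Agent.Lib.Forcing.Internal

/-!
# Deciding codes of elements of `H(κ)`; invariance of their names under the projections
-/

set_option linter.unusedSimpArgs false
set_option linter.unusedSectionVars false

open Cardinal Ordinal Set

namespace Pool.Agent.Lib.Forcing

theorem pull_chk {P P' : Type 1} [Preorder P] [Preorder P'] {p0 : P} {π : P → P'}
    (_h : Proj p0 π) (o : Ordinal.{0}) : ∀ {p : P}, p ≤ p0 →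
      EqF ((chk o : Name P').pull p0 π) (chk o) p := by
  induction o using WellFoundedLT.induction with
  | ind o ih =>
    intro p hp
    rw [chk_eq o, chk_eq o, eqF_iff]
    constructor
    · rintro ⟨⟨⟨⟨a, c⟩, _⟩, q⟩, hq1, hq2⟩ r hr _
      exact ⟨r, le_rfl, ⟨(a, r), trivial⟩, le_rfl, ih a.1 a.2 (hr.trans hp)⟩
    · rintro ⟨⟨a, c⟩, _⟩ r hr _
      exact ⟨r, le_rfl, ⟨(⟨(a, π r), trivial⟩, r), hr.trans hp, le_rfl⟩, le_rfl,
        ih a.1 a.2 (hr.trans hp)⟩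

/-- formula for `f(x) ∈ f(y)` and `f(x) ∈ ζ`, in the assignment `x, y, f, T, ζ` -/
def chi (b : Bool) : Fml :=
  if b then fbex 3 (fbex 4 (.fand (dApp 4 2 1) (.fand (dApp 4 3 0) (.fmem 1 0))))
  else fbex 3 (.fand (dApp 3 1 0) (.fmem 0 5))

theorem delta0_chi (b : Bool) : Delta0 (chi b) := by
  cases b
  · exact (Delta0.dand _ _ (delta0_dApp _ _ _) (.dmem _ _)).bex _
  · exact ((Delta0.dand _ _ (delta0_dApp _ _ _) (.dand _ _ (delta0_dApp _ _ _)
      (.dmem _ _))).bex _).bex _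

def asg5 {M : Type*} (x y f T ζ : M) : ℕ → M := cons x (cons y (cons f (cons T (fun _ => ζ))))

theorem sat_chi_true {M : Type*} {E : M → M → Prop} {x y f T ζ : M} :
    Sat E (chi true) (asg5 x y f T ζ) ↔
      ∃ a, E a T ∧ ∃ b, E b T ∧ IsApp E f x a ∧ IsApp E f y b ∧ E a b := by
  simp only [chi, asg5, if_true, sat_bex, sat_and, sat_dApp, sat_mem, cons_zero, cons_one,
    cons_two, cons_three, cons_four]

theorem sat_chi_false {M : Type*} {E : M → M → Prop} {x y f T ζ : M} :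
    Sat E (chi false) (asg5 x y f T ζ) ↔ ∃ a, E a T ∧ IsApp E f x a ∧ E a ζ := by
  simp only [chi, asg5, sat_bex, sat_and, sat_dApp, sat_mem, cons_zero, cons_one,
    cons_two, cons_three, cons_four, cons_five, Bool.false_eq_true, if_false]

/-- assignment `f, m, T, ζ` -/
def asg4 {M : Type*} (f m T ζ : M) : ℕ → M := cons f (cons m (cons T (fun _ => ζ)))

def fct : Fml := .fand (dTrans 2) (.fand (dSub 3 2) (.fand (dFun 0 1 2) (dSurj 0 1 2)))

theorem delta0_fct : Delta0 fct :=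
  .dand _ _ (delta0_dTrans _) (.dand _ _ (delta0_dSub _ _) (.dand _ _ (delta0_dFun _ _ _)
    (delta0_dSurj _ _ _)))

theorem sat_fct {M : Type*} {E : M → M → Prop} {f m T ζ : M} :
    Sat E fct (asg4 f m T ζ) ↔ IsTrans E T ∧ IsSub E ζ T ∧ IsFun E f m T ∧
      ∀ y, E y T → ∃ x, E x m ∧ IsApp E f x y := by
  simp only [fct, asg4, sat_and, sat_dTrans, sat_dSub, sat_dFun, sat_dSurj, cons_zero,
    cons_one, cons_two, cons_three]

section Asg

variable {P P' : Type 1} [Preorder P] [Preorder P']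

theorem cl_asg5 (U : GenUlt P) (x y f T ζ : Name P) : (fun i => U.cl (asg5 x y f T ζ i)) =
    asg5 (U.cl x) (U.cl y) (U.cl f) (U.cl T) (U.cl ζ) := by
  funext i
  match i with
  | 0 => rfl
  | 1 => rfl
  | 2 => rfl
  | 3 => rfl
  | n + 4 => rfl

theorem cl_asg4 (U : GenUlt P) (f m T ζ : Name P) : (fun i => U.cl (asg4 f m T ζ i)) =
    asg4 (U.cl f) (U.cl m) (U.cl T) (U.cl ζ) := by
  funext i
  match i with
  | 0 => rfl
  | 1 => rfl
  | 2 => rfl
  | n + 3 => rfl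

theorem congr_asg5 {p : P} {φ : Fml} {x y f T ζ x' y' f' T' ζ' : Name P} (h1 : EqF x x' p)
    (h2 : EqF y y' p) (h3 : EqF f f' p) (h4 : EqF T T' p) (h5 : EqF ζ ζ' p)
    (h : Forces φ (asg5 x y f T ζ) p) : Forces φ (asg5 x' y' f' T' ζ') p := by
  refine h.congr fun i => ?_
  match i with
  | 0 => exact h1
  | 1 => exact h2
  | 2 => exact h3
  | 3 => exact h4
  | n + 4 => exact h5

theorem congr_asg4 {p : P} {φ : Fml} {f m T ζ f' m' T' ζ' : Name P} (h1 : EqF f f' p)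
    (h2 : EqF m m' p) (h3 : EqF T T' p) (h4 : EqF ζ ζ' p)
    (h : Forces φ (asg4 f m T ζ) p) : Forces φ (asg4 f' m' T' ζ') p := by
  refine h.congr fun i => ?_
  match i with
  | 0 => exact h1
  | 1 => exact h2
  | 2 => exact h3
  | n + 3 => exact h4

theorem pull_asg5 (p0 : P) (π : P → P') (x y f T ζ : Name P') :
    (fun i => (asg5 x y f T ζ i).pull p0 π) =
      asg5 (x.pull p0 π) (y.pull p0 π) (f.pull p0 π) (T.pull p0 π) (ζ.pull p0 π) := by
  funext i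
  match i with
  | 0 => rfl
  | 1 => rfl
  | 2 => rfl
  | 3 => rfl
  | n + 4 => rfl

theorem pull_asg4 (p0 : P) (π : P → P') (f m T ζ : Name P') :
    (fun i => (asg4 f m T ζ i).pull p0 π) =
      asg4 (f.pull p0 π) (m.pull p0 π) (T.pull p0 π) (ζ.pull p0 π) := by
  funext i
  match i with
  | 0 => rfl
  | 1 => rfl
  | 2 => rfl
  | n + 3 => rfl

end Asg

variable {κ : Cardinal.{0}}

/-- `t` forces that `ζ` is an element of `H(κ)` and reduces a code for it to the part up to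
`mx t.s`. -/
def Code (t : Cond κ.ord) (ζ : Name (Cond κ.ord)) : Prop :=
  ∃ μ < κ.ord, ∃ T f : Name (Cond κ.ord), Forces fct (asg4 f (chk μ) T ζ) t ∧
    ∀ ξ < μ, ∀ η < μ, ∀ b, ∀ q, q ≤ t → ∃ q', q' ≤ q ∧ ∃ e : Cond κ.ord, e.s = t.s ∧ q' ≤ e ∧
      (Forces (chi b) (asg5 (chk ξ) (chk η) f T ζ) e ∨
        Forces (.fneg (chi b)) (asg5 (chk ξ) (chk η) f T ζ) e)

theorem Code.mono {t t₁ : Cond κ.ord} {ζ : Name (Cond κ.ord)} (h : Code t ζ) (ht : t₁ ≤ t) :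
    Code t₁ ζ := by
  obtain ⟨μ, hμ, T, f, h1, h2⟩ := h
  refine ⟨μ, hμ, T, f, h1.mono ht, ?_⟩
  intro ξ hξ η hη b q hq
  obtain ⟨q', hq', e, he, hqe, h3⟩ := h2 ξ hξ η hη b q (hq.trans ht)
  have hle : repl (mx t.s) e.r t₁ ≤ e := by
    refine ⟨?_, fun γ γ' hc => ?_⟩
    · rw [he]; exact ht.1
    · rw [he] at hc
      have h4 := t.good.cons_le hc
      rw [repl_r_of_le h4.1 h4.2]
      exact Ble.refl _
  refine ⟨q', hq', repl (mx t.s) e.r t₁, rfl, ?_, ?_⟩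
  · refine ⟨(hq'.trans hq).1, fun γ γ' hc => ?_⟩
    have hc' : Cons t₁.s γ γ' := hc
    by_cases h4 : γ ≤ mx t.s ∧ γ' ≤ mx t.s
    · rw [repl_r_of_le h4.1 h4.2]
      apply hqe.2
      rw [he]
      exact hc'.of_ext ht.1 h4.2
    · rw [repl_r_of_not h4]
      exact (hq'.trans hq).2 γ γ' hc'
  · rcases h3 with h3 | h3
    · exact Or.inl (h3.mono hle)
    · exact Or.inr (h3.mono hle)

theorem code_dense (hκ : κ.IsInaccessible) {p : Cond κ.ord} {ζ : Name (Cond κ.ord)}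
    (h : ∀ V : GenUlt (Cond κ.ord), V.Has p → InH (ModE V) (V.cl (chk κ.ord)) (V.cl ζ)) :
    ∃ t, t ≤ p ∧ Code t ζ := by
  obtain ⟨V, hV⟩ := exists_genUlt p
  obtain ⟨T', hT1, hT2, m', hm, f', hf1, hf2⟩ := h V hV
  obtain ⟨T, rfl⟩ := exists_cl T'
  obtain ⟨m, rfl⟩ := exists_cl m'
  obtain ⟨f, rfl⟩ := exists_cl f'
  have hfct : Sat (ModE V) fct (fun i => V.cl (asg4 f m T ζ i)) := by
    rw [cl_asg4, sat_fct]
    refine ⟨hT1, hT2, hf1, fun y hy => ?_⟩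
    obtain ⟨x, hx⟩ := hf2 y hy
    exact ⟨x, (hf1.app_mem (mod_isZFC V) hx).1, hx⟩
  rw [los] at hfct
  obtain ⟨p₁, ⟨⟨μ, hμ, hm1⟩, h1⟩, hp₁⟩ := (((ev_memF_chk' hm).and hfct).and hV).exists
  have h1' : Forces fct (asg4 f (chk μ) T ζ) p₁ :=
    congr_asg4 (EqF.refl _ _) hm1 (EqF.refl _ _) (EqF.refl _ _) h1
  obtain ⟨p₂, hp₂, hμ2⟩ := exists_ext_above hκ p₁ hμ
  have hL := L_lt hκ p₂.mx_lt
  have hω : ℵ₀ ≤ lift.{1} (L (mx p₂.s)) := by
    rw [← Cardinal.lift_aleph0.{1, 0}, Cardinal.lift_le]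
    exact aleph0_le_L _
  have hJ1 : #(Set.Iio μ) ≤ lift.{1} (L (mx p₂.s)) := by
    rw [Cardinal.mk_Iio_ordinal, Cardinal.lift_le]
    refine (Ordinal.card_le_card hμ2.le).trans ((Ordinal.card_le_beth _).trans ?_)
    rw [L, beth_le_beth]
    exact le_self_add
  have hJ : #(Set.Iio μ × Set.Iio μ × ULift.{1} Bool) ≤ lift.{1} (L (mx p₂.s)) := by
    rw [mk_prod, Cardinal.lift_id, Cardinal.lift_id, mk_prod, Cardinal.lift_id, Cardinal.lift_id]
    have hB : #(ULift.{1} Bool) ≤ lift.{1} (L (mx p₂.s)) :=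
      (Cardinal.mk_le_aleph0 (α := ULift.{1} Bool)).trans hω
    refine (mul_le_mul' hJ1 ((mul_le_mul' hJ1 hB).trans (mul_eq_self hω).le)).trans
      (mul_eq_self hω).le
  obtain ⟨t, ht, hdec⟩ := decision hκ.isRegular hL (mk_R_le _) hJ
    (fun j q => Forces (chi j.2.2.down) (asg5 (chk j.1.1) (chk j.2.1.1) f T ζ) q ∨
        Forces (.fneg (chi j.2.2.down)) (asg5 (chk j.1.1) (chk j.2.1.1) f T ζ) q) (by
      rintro j q q' (h | h) hq
      · exact Or.inl (h.mono hq)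
      · exact Or.inr (h.mono hq)) (fun j q _ => forces_decide _ _ q)
  refine ⟨t, ht.1.trans (hp₂.trans hp₁), μ, hμ, T, f, h1'.mono (ht.1.trans hp₂), ?_⟩
  intro ξ hξ η hη b q hq
  obtain ⟨ρ', h2, h3⟩ := hdec (⟨ξ, hξ⟩, ⟨η, hη⟩, ⟨b⟩) q.r (hq.trans ht.1).2
  exact ⟨repl (mx p₂.s) (ext _ ρ') q, repl_le_self h2 (hq.trans ht.1),
    repl (mx p₂.s) (ext _ ρ') t, rfl, repl_mono (fun γ δ _ => Ble.refl _) ht.1 hq, h3⟩

theorem code_dense_finite (hκ : κ.IsInaccessible) (z : ℕ → Name (Cond κ.ord)) (N : ℕ)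
    {p : Cond κ.ord} (h : ∀ V : GenUlt (Cond κ.ord), V.Has p → ∀ n < N,
      InH (ModE V) (V.cl (chk κ.ord)) (V.cl (z n))) :
    ∃ t, t ≤ p ∧ ∀ n < N, Code t (z n) := by
  induction N with
  | zero => exact ⟨p, le_rfl, fun n hn => absurd hn (Nat.not_lt_zero _)⟩
  | succ N ih =>
    obtain ⟨t, ht, h1⟩ := ih fun V hV n hn => h V hV n (hn.trans (Nat.lt_succ_self N))
    obtain ⟨t', ht', h2⟩ := code_dense hκ (p := t) (ζ := z N) fun V hV =>
      h V (hV.mono ht) N (Nat.lt_succ_self N)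
    refine ⟨t', ht'.trans ht, fun n hn => ?_⟩
    rcases Nat.lt_succ_iff_lt_or_eq.1 hn with h3 | rfl
    · exact (h1 n h3).mono ht'
    · exact h2

/-- the projection stays below conditions with first coordinate `t.s` -/
theorem Abs.proj_le_of {t p₁ : Cond κ.ord} {δ : Ordinal.{0}} (D : Abs κ t p₁ δ)
    {q e : Cond κ.ord} (he : e.s = t.s) (hqe : q ≤ e) : D.proj q ≤ e := by
  refine ⟨?_, fun γ γ' hc => ?_⟩
  · rw [he]
    exact (endExt_glue (s₂ := q.s) D.lt).trans D.le.1 p₁.good t.good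
  · have h1 : γ' ≤ mx t.s := by rw [← he]; exact (e.good.cons_le hc).2
    rw [D.proj_low q h1]
    exact hqe.2 γ γ' hc

theorem Abs.base_le {t p₁ p₀ : Cond κ.ord} {δ : Ordinal.{0}} (D : Abs κ t p₁ δ)
    (h0 : Abs.Base (t := t) (p₁ := p₁) (δ := δ) p₀) : p₀ ≤ t := by
  refine ⟨?_, fun γ γ' hc => ?_⟩
  · rw [h0.hs]; exact endExt_insert t.good D.mt_lt
  · exact (h0.hr γ γ' hc).trans (D.le.2 γ γ' hc)

/-- Invariance: below `p₀` a coded element of `H(κ)` is equal to its pull-back. -/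
theorem Code.pull_eq {t p₁ p₀ : Cond κ.ord} {δ : Ordinal.{0}} {ζ : Name (Cond κ.ord)}
    (hζ : Code t ζ) (D : Abs κ t p₁ δ) (h0 : Abs.Base (t := t) (p₁ := p₁) (δ := δ) p₀)
    (V : GenUlt (Cond κ.ord)) (hV : V.Has p₀) : V.cl (ζ.pull p₀ D.proj) = V.cl ζ := by
  obtain ⟨μ, hμ, T, f, h1, h2⟩ := hζ
  have hπ := D.isProj h0
  have hp0t := D.base_le h0
  -- the facts about the pulled back names
  have hfct : Forces fct (asg4 f (chk μ) T ζ) p₀ := h1.mono hp0t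
  have hfct' : Forces fct (asg4 (f.pull p₀ D.proj) (chk μ) (T.pull p₀ D.proj)
      (ζ.pull p₀ D.proj)) p₀ := by
    have h3 : Forces fct (asg4 f (chk μ) T ζ) (D.proj p₀) :=
      h1.mono ((D.proj_le h0 le_rfl).trans D.le)
    rw [← forces_pull hπ delta0_fct le_rfl, pull_asg4] at h3
    exact congr_asg4 (EqF.refl _ _) (pull_chk hπ μ le_rfl) (EqF.refl _ _) (EqF.refl _ _) h3
  -- transfer of forcing of `chi`
  have tr : ∀ ξ η b p, p ≤ p₀ → (Forces (chi b) (asg5 (chk ξ) (chk η) (f.pull p₀ D.proj)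
      (T.pull p₀ D.proj) (ζ.pull p₀ D.proj)) p ↔
      Forces (chi b) (asg5 (chk ξ) (chk η) f T ζ) (D.proj p)) := by
    intro ξ η b p hp
    rw [← forces_pull hπ (delta0_chi b) hp, pull_asg5]
    exact ⟨congr_asg5 (pull_chk hπ ξ hp).symm (pull_chk hπ η hp).symm (EqF.refl _ _)
      (EqF.refl _ _) (EqF.refl _ _), congr_asg5 (pull_chk hπ ξ hp) (pull_chk hπ η hp)
      (EqF.refl _ _) (EqF.refl _ _) (EqF.refl _ _)⟩
  have inv : ∀ ξ < μ, ∀ η < μ, ∀ b p, p ≤ p₀ → (Forces (chi b) (asg5 (chk ξ) (chk η) f T ζ) p ↔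
      Forces (chi b) (asg5 (chk ξ) (chk η) (f.pull p₀ D.proj)
      (T.pull p₀ D.proj) (ζ.pull p₀ D.proj)) p) := by
    intro ξ hξ η hη b p hp
    constructor
    · intro h3
      apply Forces.dense
      intro q hq
      obtain ⟨q', hq', e, he, hqe, h4⟩ := h2 ξ hξ η hη b q ((hq.trans hp).trans hp0t)
      refine ⟨q', hq', ?_⟩
      rw [tr ξ η b q' (hq'.trans (hq.trans hp))]
      rcases h4 with h4 | h4
      · exact h4.mono (D.proj_le_of he hqe)
      · exact (h4 q' hqe (h3.mono (hq'.trans hq))).elim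
    · intro h3
      apply Forces.dense
      intro q hq
      obtain ⟨q', hq', e, he, hqe, h4⟩ := h2 ξ hξ η hη b q ((hq.trans hp).trans hp0t)
      refine ⟨q', hq', ?_⟩
      rcases h4 with h4 | h4
      · exact h4.mono hqe
      · have h5 := (tr ξ η b q' (hq'.trans (hq.trans hp))).1 (h3.mono (hq'.trans hq))
        exact (h4 _ (D.proj_le_of he hqe) h5).elim
  -- in the model
  have hrel : ∀ b x y, ModE V x (V.cl (chk μ)) → ModE V y (V.cl (chk μ)) →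
      (Sat (ModE V) (chi b) (asg5 x y (V.cl f) (V.cl T) (V.cl ζ)) ↔
        Sat (ModE V) (chi b) (asg5 x y (V.cl (f.pull p₀ D.proj)) (V.cl (T.pull p₀ D.proj))
          (V.cl (ζ.pull p₀ D.proj)))) := by
    intro b x y hx hy
    obtain ⟨x, rfl⟩ := exists_cl x
    obtain ⟨y, rfl⟩ := exists_cl y
    rw [← cl_asg5, ← cl_asg5, los, los]
    constructor
    · intro h3
      refine ((ev_memF_chk' hx).and (ev_memF_chk' hy)).imp3 h3 hV ?_
      rintro p ⟨⟨ξ, hξ, h4⟩, η, hη, h5⟩ h6 h7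
      exact congr_asg5 h4.symm h5.symm (EqF.refl _ _) (EqF.refl _ _) (EqF.refl _ _)
        ((inv ξ hξ η hη b p h7).1 (congr_asg5 h4 h5 (EqF.refl _ _) (EqF.refl _ _)
          (EqF.refl _ _) h6))
    · intro h3
      refine ((ev_memF_chk' hx).and (ev_memF_chk' hy)).imp3 h3 hV ?_
      rintro p ⟨⟨ξ, hξ, h4⟩, η, hη, h5⟩ h6 h7
      exact congr_asg5 h4.symm h5.symm (EqF.refl _ _) (EqF.refl _ _) (EqF.refl _ _)
        ((inv ξ hξ η hη b p h7).2 (congr_asg5 h4 h5 (EqF.refl _ _) (EqF.refl _ _)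
          (EqF.refl _ _) h6))
  have e1 := hV.forces hfct
  have e2 := hV.forces hfct'
  rw [cl_asg4, sat_fct] at e1 e2
  obtain ⟨a1, a2, a3, a4⟩ := e1
  obtain ⟨b1, b2, b3, b4⟩ := e2
  have H := mod_isZFC V
  refine (collapse_unique H a3 (fun y hy => ?_) a1 b3 (fun y hy => ?_) b1 ?_ ?_ a2 b2).symm
  · obtain ⟨x, _, hx⟩ := a4 y hy; exact ⟨x, hx⟩
  · obtain ⟨x, _, hx⟩ := b4 y hy; exact ⟨x, hx⟩
  · intro x y hx hy
    have h3 := hrel true x y hx hy
    rw [sat_chi_true, sat_chi_true] at h3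
    constructor
    · rintro ⟨a, b, h4, h5, h6⟩
      obtain ⟨a', _, b', _, h7, h8, h9⟩ := h3.1 ⟨a, (a3.app_mem H h4).2, b, (a3.app_mem H h5).2,
        h4, h5, h6⟩
      exact ⟨a', b', h7, h8, h9⟩
    · rintro ⟨a, b, h4, h5, h6⟩
      obtain ⟨a', _, b', _, h7, h8, h9⟩ := h3.2 ⟨a, (b3.app_mem H h4).2, b, (b3.app_mem H h5).2,
        h4, h5, h6⟩
      exact ⟨a', b', h7, h8, h9⟩
  · intro x hx
    have h3 := hrel false x x hx hx
    rw [sat_chi_false, sat_chi_false] at h3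
    constructor
    · rintro ⟨a, h4, h5⟩
      obtain ⟨a', _, h7, h8⟩ := h3.1 ⟨a, (a3.app_mem H h4).2, h4, h5⟩
      exact ⟨a', h7, h8⟩
    · rintro ⟨a, h4, h5⟩
      obtain ⟨a', _, h7, h8⟩ := h3.2 ⟨a, (b3.app_mem H h4).2, h4, h5⟩
      exact ⟨a', h7, h8⟩

end Pool.Agent.Lib.Forcing
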