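import Pool.Agent.Lib.Forcing.Codes

/-!
# The `Σ_1`-colouring property of `κ` in the extension
-/

set_option linter.unusedSimpArgs false
set_option linter.unusedSectionVars false

open Cardinal Ordinal Set

namespace Pool.Agent.Lib.Forcing

/-- the assignment `a, b, y, k, z 0, z 1, ...` -/
def asgF {M : Type*} (a b y k : M) (z : ℕ → M) : ℕ → M := cons a (cons b (cons y (cons k z)))

section

variable {P P' : Type 1} [Preorder P] [Preorder P']

theorem cl_asgF (U : GenUlt P) (a b y k : Name P) (z : ℕ → Name P) :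
    (fun i => U.cl (asgF a b y k z i)) =
      asgF (U.cl a) (U.cl b) (U.cl y) (U.cl k) (fun i => U.cl (z i)) := by
  funext i
  match i with
  | 0 => rfl
  | 1 => rfl
  | 2 => rfl
  | 3 => rfl
  | n + 4 => rfl

theorem congr_asgF {p : P} {φ : Fml} {a b y k a' b' y' k' : Name P} {z : ℕ → Name P}
    (h1 : EqF a a' p) (h2 : EqF b b' p) (h3 : EqF y y' p) (h4 : EqF k k' p)
    (h : Forces φ (asgF a b y k z) p) : Forces φ (asgF a' b' y' k' z) p := by
  refine h.congr fun i => ?_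
  match i with
  | 0 => exact h1
  | 1 => exact h2
  | 2 => exact h3
  | 3 => exact h4
  | n + 4 => exact EqF.refl _ _

theorem pull_asgF (p0 : P) (π : P → P') (a b y k : Name P') (z : ℕ → Name P') :
    (fun i => (asgF a b y k z i).pull p0 π) =
      asgF (a.pull p0 π) (b.pull p0 π) (y.pull p0 π) (k.pull p0 π)
        (fun i => (z i).pull p0 π) := by
  funext i
  match i with
  | 0 => rfl
  | 1 => rfl
  | 2 => rfl
  | 3 => rfl
  | n + 4 => rfl

theorem mod_isZero (U : GenUlt P) : IsZero (ModE U) (U.cl (chk 0)) := by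
  intro z hz
  obtain ⟨ζ, rfl⟩ := exists_cl z
  obtain ⟨p, x, hx, _⟩ := (ev_memF_chk' hz).exists
  exact absurd hx (not_lt.2 zero_le)

theorem isZero_iff (U : GenUlt P) {y : Mod U} : IsZero (ModE U) y ↔ y = U.cl (chk 0) := by
  constructor
  · intro h
    apply mod_ext
    intro z
    exact ⟨fun hz => (h z hz).elim, fun hz => (mod_isZero U z hz).elim⟩
  · rintro rfl; exact mod_isZero U

theorem isOne_iff (U : GenUlt P) {y : Mod U} : IsOne (ModE U) y ↔ y = U.cl (chk 1) := by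
  have h1 : IsOne (ModE U) (U.cl (chk 1)) := by
    intro z
    rw [isZero_iff]
    constructor
    · intro hz
      obtain ⟨ζ, rfl⟩ := exists_cl z
      rw [cl_eq]
      refine (ev_memF_chk' hz).imp ?_
      rintro p ⟨x, hx, h⟩
      rw [Order.lt_one_iff] at hx
      subst hx
      exact h
    · rintro rfl
      exact (mod_chk_mem U).2 zero_lt_one
  constructor
  · intro h
    apply mod_ext
    intro z
    rw [h z, h1 z]
  · rintro rfl; exact h1

end

/-- the ordinal `0` or `1` -/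
def bit (j : Bool) : Ordinal.{0} := if j then 1 else 0

variable {κ : Cardinal.{0}}

/-- two conditions agreeing up to `mx r.s` cannot force different colours of the same pair -/
theorem no_conflict (hκ : κ.IsInaccessible) {φ : Fml} (hφ : Sigma1 φ)
    {z : ℕ → Name (Cond κ.ord)} {r : Cond κ.ord}
    (hpart : ∀ V : GenUlt (Cond κ.ord), V.Has r →
      DefinesPartition (ModE V) φ (V.cl (chk κ.ord)) (fun i => V.cl (z i)))
    (hcode : ∀ n < φ.bd, Code r (z n)) {α β : Ordinal.{0}} (hαβ : α < β) (hβ : β < κ.ord)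
    {p₁ p₂ : Cond κ.ord} (h1 : p₁ ≤ r) (h2 : p₂ ≤ r)
    (hres : res (mx r.s) p₁.r = res (mx r.s) p₂.r) {j j' : Bool}
    (hj1 : Forces φ (asgF (chk α) (chk β) (chk (bit j)) (chk κ.ord) z) p₁)
    (hj2 : Forces φ (asgF (chk α) (chk β) (chk (bit j')) (chk κ.ord) z) p₂) : j = j' := by
  -- the new point
  have hb1 : (L (mx p₁.s)).ord < κ.ord := ord_lt_ord.2 (L_lt hκ p₁.mx_lt)
  have hb2 : (L (mx p₂.s)).ord < κ.ord := ord_lt_ord.2 (L_lt hκ p₂.mx_lt)
  obtain ⟨δ, hδ, hlt, hni⟩ := exists_NI_above hκ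
    (β := max (max (mx p₁.s) (mx p₂.s)) (max (L (mx p₁.s)).ord (L (mx p₂.s)).ord))
    (max_lt (max_lt p₁.mx_lt p₂.mx_lt) (max_lt hb1 hb2))
  have l1 : mx p₁.s < δ := (le_max_left _ _).trans_lt ((le_max_left _ _).trans_lt hlt)
  have l2 : mx p₂.s < δ := (le_max_right _ _).trans_lt ((le_max_left _ _).trans_lt hlt)
  have l3 : (L (mx p₁.s)).ord < δ := (le_max_left _ _).trans_lt ((le_max_right _ _).trans_lt hlt)
  have l4 : (L (mx p₂.s)).ord < δ := (le_max_right _ _).trans_lt ((le_max_right _ _).trans_lt hlt)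
  obtain ⟨D₁⟩ := exists_abs h1 l1 hδ hni l3.le
  obtain ⟨D₂⟩ := exists_abs h2 l2 hδ hni l4.le
  let p₀ : Cond κ.ord := ⟨insert δ r.s, p₁.r, r.good.addPoint D₁.mt_lt hδ hni
    ((ord_le_ord.2 (L_mono' D₁.mt_le)).trans l3.le)⟩
  have hB1 : Abs.Base (t := r) (p₁ := p₁) (δ := δ) p₀ := ⟨rfl, fun _ _ _ => Ble.refl _⟩
  have hB2 : Abs.Base (t := r) (p₁ := p₂) (δ := δ) p₀ := by
    refine ⟨rfl, fun γ γ' hc => ?_⟩
    have h3 := r.good.cons_le hc
    have h4 : p₁.r γ γ' = p₂.r γ γ' := congrFun hres (⟨γ, h3.1⟩, ⟨γ', h3.2⟩)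
    show Ble (p₁.r γ γ') (p₂.r γ γ')
    rw [h4]; exact Ble.refl _
  obtain ⟨V, hV⟩ := exists_genUlt p₀
  -- transfer
  have key : ∀ (p : Cond κ.ord) (D : Abs κ r p δ) (_ : Abs.Base (t := r) (p₁ := p) (δ := δ) p₀)
      (j : Bool), Forces φ (asgF (chk α) (chk β) (chk (bit j)) (chk κ.ord) z) p →
      Sat (ModE V) φ (asgF (V.cl (chk α)) (V.cl (chk β)) (V.cl (chk (bit j)))
        (V.cl (chk κ.ord)) (fun i => V.cl (z i))) := by
    intro p D hB j hj
    have hπ := D.isProj hB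
    have h3 := forces_pull_sigma1 hπ hφ le_rfl (hj.mono (D.proj_le hB le_rfl))
    rw [pull_asgF] at h3
    have h4 := congr_asgF (pull_chk hπ α le_rfl) (pull_chk hπ β le_rfl)
      (pull_chk hπ (bit j) le_rfl) (pull_chk hπ κ.ord le_rfl) h3
    have h5 := hV.forces h4
    rw [cl_asgF] at h5
    refine (sat_congr φ ?_).1 h5
    intro i hi
    match i with
    | 0 => rfl
    | 1 => rfl
    | 2 => rfl
    | 3 => rfl
    | n + 4 => exact (hcode n (by omega)).pull_eq D hB V hV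
  have e1 := key p₁ D₁ hB1 j hj1
  have e2 := key p₂ D₂ hB2 j' hj2
  have hVr : V.Has r := hV.mono (D₁.base_le hB1)
  obtain ⟨y, _, hy⟩ := hpart V hVr (V.cl (chk α)) (V.cl (chk β)) ((mod_chk_mem V).2 hαβ)
    ((mod_chk_mem V).2 hβ)
  have e3 : V.cl (chk (bit j)) = y := (hy _).1 e1
  have e4 : V.cl (chk (bit j')) = y := (hy _).1 e2
  have e5 : bit j = bit j' := (mod_chk_eq V).1 (e3.trans e4.symm)
  cases j <;> cases j' <;> simp [bit] at e5 ⊢

/-- Some `r ≤ p` forces the existence of a homogeneous set. -/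
theorem colouring_core (hκ : WeaklyCompact κ) {φ : Fml} (hφ : Sigma1 φ)
    {z : ℕ → Name (Cond κ.ord)} {p : Cond κ.ord}
    (hpart : ∀ V : GenUlt (Cond κ.ord), V.Has p →
      DefinesPartition (ModE V) φ (V.cl (chk κ.ord)) (fun i => V.cl (z i)))
    (hH : ∀ V : GenUlt (Cond κ.ord), V.Has p → ∀ n < φ.bd,
      InH (ModE V) (V.cl (chk κ.ord)) (V.cl (z n))) :
    ∃ r, r ≤ p ∧ ∀ V : GenUlt (Cond κ.ord), V.Has r →
      ∃ h, IsSub (ModE V) h (V.cl (chk κ.ord)) ∧ HasInj (ModE V) (V.cl (chk κ.ord)) h ∧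
        ∃ i, ∀ a b, ModE V a h → ModE V b h → ModE V a b →
          Sat (ModE V) φ (cons a (cons b (cons i (cons (V.cl (chk κ.ord))
            (fun n => V.cl (z n)))))) := by
  classical
  have hin := hκ.isInaccessible
  obtain ⟨r, hr, hcode⟩ := code_dense_finite hin z φ.bd hH
  have hpart' : ∀ V : GenUlt (Cond κ.ord), V.Has r →
      DefinesPartition (ModE V) φ (V.cl (chk κ.ord)) (fun i => V.cl (z i)) :=
    fun V hV => hpart V (hV.mono hr)
  set m := mx r.s with hm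
  -- the colouring in the ground model
  let col : Ordinal.{0} → Ordinal.{0} → (R m → Bool → Prop) := fun α β a j =>
    ∃ q, q ≤ r ∧ res m q.r = a ∧ Forces φ (asgF (chk α) (chk β) (chk (bit j)) (chk κ.ord) z) q
  obtain ⟨H, hHsub, hHcard, i0, hi0⟩ := hκ.partition (mk_colours_lt hin r.mx_lt) col
  -- two elements of H
  obtain ⟨α0, hα0, -⟩ := unbounded_of_mk hHcard (b := 0)
    (zero_le.trans_lt r.mx_lt)
  obtain ⟨β0, hβ0, hlt0⟩ := unbounded_of_mk hHcard (b := Order.succ α0)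
    ((Cardinal.isSuccLimit_ord hin.isRegular.aleph0_le).succ_lt (hHsub hα0))
  have hlt : α0 < β0 := Order.succ_le_iff.1 hlt0
  -- the claim
  have claim : ∀ q, q ≤ r → ∀ j, Forces φ (asgF (chk α0) (chk β0) (chk (bit j)) (chk κ.ord) z) q →
      ∀ α ∈ H, ∀ β ∈ H, α < β →
        Forces φ (asgF (chk α) (chk β) (chk (bit j)) (chk κ.ord) z) q := by
    intro q hq j hj α hα β hβ hαβ
    apply Forces.dense
    intro q₁ hq₁
    obtain ⟨V, hV⟩ := exists_genUlt q₁
    obtain ⟨y, hy1, hy2⟩ := hpart' V (hV.mono (hq₁.trans hq)) (V.cl (chk α)) (V.cl (chk β))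
      ((mod_chk_mem V).2 hαβ) ((mod_chk_mem V).2 (hHsub hβ))
    obtain ⟨j', hj'⟩ : ∃ j', y = V.cl (chk (bit j')) := by
      rcases hy1 with h | h
      · exact ⟨false, (isZero_iff V).1 h⟩
      · exact ⟨true, (isOne_iff V).1 h⟩
    have h3 := (hy2 y).2 rfl
    rw [hj'] at h3
    have h4 : Sat (ModE V) φ (asgF (V.cl (chk α)) (V.cl (chk β)) (V.cl (chk (bit j')))
      (V.cl (chk κ.ord)) (fun i => V.cl (z i))) := h3
    rw [← cl_asgF, los] at h4
    obtain ⟨q₂, h5, h6⟩ := (h4.and hV).exists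
    -- q₂ ≤ q₁ forces colour j'
    have h7 : Forces φ (asgF (chk α0) (chk β0) (chk (bit j)) (chk κ.ord) z) q₂ :=
      hj.mono (h6.trans hq₁)
    have hq₂ : q₂ ≤ r := h6.trans (hq₁.trans hq)
    have h8 : col α0 β0 (res m q₂.r) j := ⟨q₂, hq₂, rfl, h7⟩
    have h9 : col α β (res m q₂.r) j := by
      rw [hi0 α hα β hβ hαβ, ← hi0 α0 hα0 β0 hβ0 hlt]
      exact h8
    obtain ⟨q₃, hq₃, h10, h11⟩ := h9
    have h12 : j = j' := no_conflict hin hφ hpart' hcode hαβ (hHsub hβ) hq₃ hq₂ h10 h11 h5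
    subst h12
    exact ⟨q₂, h6, h5⟩
  refine ⟨r, hr, ?_⟩
  intro V hV
  refine ⟨V.cl (setN κ.ord H), mod_setN_sub V, ?_, ?_⟩
  · -- an injection of κ into H
    have h1 : #(Set.Iio κ.ord) = #H := by
      rw [Cardinal.mk_Iio_ordinal, card_ord, hHcard]
    obtain ⟨e⟩ := Cardinal.eq.1 h1
    let g : Ordinal.{0} → Ordinal.{0} := fun ξ => if h : ξ < κ.ord then (e ⟨ξ, h⟩).1 else 0
    have hg : ∀ ξ (h : ξ < κ.ord), g ξ = (e ⟨ξ, h⟩).1 := fun ξ h => by simp only [g]; rw [dif_pos h]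
    refine ⟨V.cl (fnN κ.ord (fun ξ => chk (g ξ))), ?_, ?_⟩
    · apply isFun_fnN
      intro ξ hξ p
      rw [memF_iff_models]
      intro W _
      rw [mod_chk_mem_setN, hg ξ hξ]
      exact ⟨hHsub (e ⟨ξ, hξ⟩).2, (e ⟨ξ, hξ⟩).2⟩
    · intro x x' y h2 h3
      obtain ⟨x, rfl⟩ := exists_cl x
      obtain ⟨x', rfl⟩ := exists_cl x'
      obtain ⟨y, rfl⟩ := exists_cl y
      rw [isApp_fnN] at h2 h3
      rw [cl_eq]
      refine h2.imp2 h3 ?_
      rintro p ⟨ξ, hξ, h4, h5⟩ ⟨ξ', hξ', h6, h7⟩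
      have h8 : g ξ = g ξ' := chk_inj (h5.symm.trans h7)
      rw [hg ξ hξ, hg ξ' hξ'] at h8
      have h9 := congrArg Subtype.val (e.injective (Subtype.ext h8))
      have h9' : ξ = ξ' := h9
      subst h9'
      exact h4.trans h6.symm
  · obtain ⟨y, hy1, hy2⟩ := hpart' V hV (V.cl (chk α0)) (V.cl (chk β0))
      ((mod_chk_mem V).2 hlt) ((mod_chk_mem V).2 (hHsub hβ0))
    obtain ⟨j, hj⟩ : ∃ j, y = V.cl (chk (bit j)) := by
      rcases hy1 with h | h
      · exact ⟨false, (isZero_iff V).1 h⟩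
      · exact ⟨true, (isOne_iff V).1 h⟩
    refine ⟨V.cl (chk (bit j)), ?_⟩
    have h3 := (hy2 y).2 rfl
    rw [hj] at h3
    have h4 : Sat (ModE V) φ (asgF (V.cl (chk α0)) (V.cl (chk β0)) (V.cl (chk (bit j)))
      (V.cl (chk κ.ord)) (fun i => V.cl (z i))) := h3
    rw [← cl_asgF, los] at h4
    intro a b ha hb hab
    obtain ⟨a, rfl⟩ := exists_cl a
    obtain ⟨b, rfl⟩ := exists_cl b
    show Sat (ModE V) φ (asgF (V.cl a) (V.cl b) (V.cl (chk (bit j)))
      (V.cl (chk κ.ord)) (fun i => V.cl (z i)))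
    rw [← cl_asgF, los]
    rw [modE_cl, ev_memF_setN] at ha hb
    rw [modE_cl] at hab
    refine (h4.and hV).imp2 ((ha.and hb).and hab) ?_
    rintro q ⟨h5, h6⟩ ⟨⟨⟨α, _, hα, h7⟩, β, _, hβ, h8⟩, h9⟩
    have h10 : MemF (chk α) (chk β) q := (h9.congr_left h7).congr_right h8
    have h11 := claim q h6 j h5 α hα β hβ (chk_mem_iff.1 h10)
    exact congr_asgF h7.symm h8.symm (EqF.refl _ _) (EqF.refl _ _) h11

/-- The colouring property holds in the extension. -/
theorem mod_colouring (hκ : WeaklyCompact κ) (U : GenUlt (Cond κ.ord)) :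
    Sigma1Colouring (ModE U) (U.cl (chk κ.ord)) := by
  intro φ hφ z hz hpart
  obtain ⟨w, rfl⟩ := cl_surj z
  have h1 : Sat (ModE U) (fPart φ) (fun i => U.cl (cons (chk κ.ord) w i)) := by
    rw [cl_cons, sat_fPart]; exact hpart
  rw [los] at h1
  have h2 : ∀ n, U.Ev (Forces (fInH 0 (n + 1)) (cons (chk κ.ord) w)) := by
    intro n
    rw [← los, sat_fInH]
    exact hz n
  have h3 : U.Ev (fun p => ∀ n ∈ {n | n < φ.bd}, Forces (fInH 0 (n + 1)) (cons (chk κ.ord) w) p) :=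
    GenUlt.ev_finite (Set.finite_lt_nat φ.bd) fun n _ => h2 n
  have h4 : U.Ev (Forces (fConc φ) (cons (chk κ.ord) w)) := by
    refine GenUlt.ev_of_dense_ev (fun p q h hq => h.mono hq) (h1.imp2 h3 ?_)
    intro p hp1 hp2 q hq
    obtain ⟨r, hr, h5⟩ := colouring_core hκ hφ (z := w) (p := q) (by
      intro V hV
      have h6 := (hV.mono hq).forces hp1
      rw [cl_cons, sat_fPart] at h6
      exact h6) (by
      intro V hV n hn
      have h6 := (hV.mono hq).forces (hp2 n hn)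
      rw [sat_fInH] at h6
      exact h6)
    refine ⟨r, hr, ?_⟩
    rw [forces_iff]
    intro V hV
    rw [cl_cons, sat_fConc]
    exact h5 V hV
  rw [← los, cl_cons, sat_fConc] at h4
  exact h4

/-- The main theorem. -/
theorem main_consistency (h : ∃ κ : Cardinal.{0}, WeaklyCompact κ) :
    ∃ (M : Type 2) (E : M → M → Prop), IsZFC M E ∧
      ∃ k, IsInacc E k ∧ (∀ m, E m k → ¬ IsInacc E m) ∧ Sigma1Colouring E k := by
  obtain ⟨κ, hκ⟩ := h
  have hin := hκ.isInaccessible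
  -- a condition
  have hpos : (0 : Ordinal.{0}) < κ.ord := by
    rw [Cardinal.lt_ord]; simpa using hin.pos
  have hgood : Good κ.ord {0} := by
    refine ⟨rfl, ?_, ?_, ?_, ?_⟩
    · rintro x rfl; exact hpos
    · rintro x rfl; exact Or.inl zero_le
    · rintro x rfl y rfl hxy; exact (lt_irrefl _ hxy).elim
    · intro T hT hne
      have : T = {0} := (Set.subset_singleton_iff_eq.1 hT).resolve_left hne.ne_empty
      rw [this, csSup_singleton]; rfl
  let p : Cond κ.ord := ⟨{0}, fun γ δ => fun _ => ∅, hgood⟩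
  obtain ⟨U, _⟩ := exists_genUlt p
  refine ⟨Mod U, ModE U, mod_isZFC U, U.cl (chk κ.ord), ⟨mod_ordinal_chk U _, ?_, ?_, ?_⟩, ?_,
    mod_colouring hκ U⟩
  · refine ⟨U.cl (chk Ordinal.omega0), (mod_chk_mem U).2 ?_,
      mod_limit_chk U Ordinal.omega0_pos fun x hx => ?_⟩
    · rw [← Cardinal.ord_aleph0]; exact ord_lt_ord.2 hκ.1
    · exact Ordinal.isSuccLimit_omega0.succ_lt hx
  · exact mod_regular U (regCore hin)
  · exact mod_strong U (strongCore hin)
  · intro m hm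
    obtain ⟨m, rfl⟩ := exists_cl m
    have h1 : Sat (ModE U) (.fneg (fInacc 0)) (fun i => U.cl ((fun _ => m) i)) := by
      rw [los]
      refine (ev_memF_chk' hm).imp ?_
      rintro q ⟨δ, hδ, h2⟩
      have h3 : Forces (.fneg (fInacc 0)) (fun _ => chk δ) q := by
        rw [forces_iff]
        intro V _
        rw [sat_neg, sat_fInacc]
        exact mod_not_inacc hin V hδ
      exact h3.congr fun _ => h2.symm
    rw [sat_neg, sat_fInacc] at h1
    exact h1

end Pool.Agent.Lib.Forcing
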