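import Pool.Agent.Lib.Forcing.Inacc

/-!
# Preservation of regularity and of the strong limit property, from combinatorial properties
-/

set_option linter.unusedSimpArgs false
set_option linter.unusedSectionVars false

namespace Pool.Agent.Lib.Forcing

variable {P : Type 1} [Preorder P]

/-- combinatorial form of the preservation of regularity -/
def RegCore (P : Type 1) [Preorder P] (K : Ordinal.{0}) : Prop :=
  ∀ (F : Ordinal.{0} → Ordinal.{0} → P → Prop) (p : P) (μ : Ordinal.{0}), μ < K →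
    (∀ ξ η p q, F ξ η p → q ≤ p → F ξ η q) →
    (∀ ξ η η' p, F ξ η p → F ξ η' p → η = η') →
    (∀ ξ < μ, ∀ q, q ≤ p → ∃ r, r ≤ q ∧ ∃ η < K, F ξ η r) →
    ∃ r, r ≤ p ∧ ∃ β < K, ∀ ξ < μ, ∀ η, ∀ s, s ≤ r → F ξ η s → η < β

/-- combinatorial form of the preservation of the strong limit property -/
def StrongCore (P : Type 1) [Preorder P] (K : Ordinal.{0}) : Prop :=
  ∀ (F : Ordinal.{0} → Ordinal.{0} → P → Prop) (p : P) (μ : Ordinal.{0}), μ < K →
    (∀ ξ η p q, F ξ η p → q ≤ p → F ξ η q) →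
    ∃ r, r ≤ p ∧ ∃ ξ < K, ∃ ξ' < K, ξ ≠ ξ' ∧ ∀ η < μ, ∀ s, s ≤ r → ∃ t, t ≤ s ∧
      ((F ξ η t ∧ F ξ' η t) ∨ ∀ t', t' ≤ t → ¬ F ξ η t' ∧ ¬ F ξ' η t')

theorem mod_regular (U : GenUlt P) {K : Ordinal.{0}} (core : RegCore P K) :
    ∀ m, ModE U m (U.cl (chk K)) → ∀ f, IsFun (ModE U) f m (U.cl (chk K)) →
      ∃ b, ModE U b (U.cl (chk K)) ∧ ∀ x y, IsApp (ModE U) f x y → ModE U y b := by
  have main : Sat (ModE U) (fReg 0) (fun i => U.cl ((fun _ => chk K) i)) := by
    rw [los]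
    apply GenUlt.ev_true
    intro p
    unfold fReg
    rw [forces_ball_chk rfl]
    intro μ hμ f
    rw [forces_imp]
    intro q _ hfun
    rw [forces_ex]
    intro q' hq'
    -- everything below q'
    have hfun' : ∀ V : GenUlt P, V.Has q' →
        IsFun (ModE V) (V.cl f) (V.cl (chk μ)) (V.cl (chk K)) := by
      intro V hV
      have := (hV.mono hq').forces hfun
      rw [sat_dFun] at this
      exact this
    obtain ⟨r, hr, β, hβ, h⟩ := core (fun ξ η p => MemF (opN (chk ξ) (chk η)) f p ∧ p ≤ q')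
      q' μ hμ (fun ξ η p q h hq => ⟨h.1.mono hq, hq.trans h.2⟩)
      (by
        rintro ξ η η' p ⟨h1, h2⟩ ⟨h3, _⟩
        obtain ⟨V, hV⟩ := exists_genUlt p
        have h4 := (isApp_iff V f (chk ξ) (chk η)).2 (GenUlt.Ev.imp hV fun s hs => h1.mono hs)
        have h5 := (isApp_iff V f (chk ξ) (chk η')).2 (GenUlt.Ev.imp hV fun s hs => h3.mono hs)
        exact (mod_chk_eq V).1
          (IsFun.app_unique (mod_isZFC V) (hfun' V (hV.mono h2)) h4 h5))
      (by
        intro ξ hξ s hs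
        obtain ⟨V, hV⟩ := exists_genUlt s
        obtain ⟨y, hy, h1⟩ := (hfun' V (hV.mono hs)).exists_app ((mod_chk_mem V).2 hξ)
        obtain ⟨υ, rfl⟩ := exists_cl y
        rw [isApp_iff] at h1
        obtain ⟨t, ⟨⟨η, hη, h2⟩, h3⟩, h4⟩ := ((ev_memF_chk' hy).and h1 |>.and hV).exists
        exact ⟨t, h4, η, hη, h3.congr_left (eqF_opN.2 ⟨EqF.refl _ _, h2⟩), h4.trans hs⟩)
    refine ⟨r, hr, chk β, ?_⟩
    rw [forces_iff]
    intro V hV
    simp only [sat_and, sat_all, sat_mem, sat_imp, sat_dApp, cons_zero, cons_one, cons_two,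
      cons_three]
    refine ⟨(mod_chk_mem V).2 hβ, ?_⟩
    intro x y hxy
    have hmem := (hfun' V (hV.mono hr)).app_mem (mod_isZFC V) hxy
    obtain ⟨ρ, rfl⟩ := exists_cl x
    obtain ⟨υ, rfl⟩ := exists_cl y
    rw [isApp_iff] at hxy
    have : V.Ev (MemF υ (chk β)) := by
      refine (((ev_memF_chk' hmem.1).and (ev_memF_chk' hmem.2)).and hxy).imp2 hV ?_
      rintro s ⟨⟨⟨ξ, hξ, h1⟩, η, hη, h2⟩, h3⟩ hs
      have h4 := h ξ hξ η s hs ⟨h3.congr_left (eqF_opN.2 ⟨h1, h2⟩), hs.trans hr⟩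
      exact (chk_mem h4 s).congr_left h2.symm
    exact modE_cl.2 this
  rw [sat_fReg] at main
  exact main

theorem mod_strong (U : GenUlt P) {K : Ordinal.{0}} (core : StrongCore P K) :
    ∀ m, ModE U m (U.cl (chk K)) → ∀ p, IsPower (ModE U) p m →
      ¬ HasInj (ModE U) (U.cl (chk K)) p := by
  have main : Sat (ModE U) (fStrong 0) (fun i => U.cl ((fun _ => chk K) i)) := by
    rw [los]
    apply GenUlt.ev_true
    intro p
    unfold fStrong
    rw [forces_ball_chk rfl]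
    intro μ hμ π
    rw [forces_imp]
    intro q _ hpow q' hq' hinj
    unfold fInj at hinj
    rw [forces_ex] at hinj
    obtain ⟨q0, hq0, g, hg⟩ := hinj q' le_rfl
    -- facts in all models through q0
    have hg' : ∀ V : GenUlt P, V.Has q0 →
        IsFun (ModE V) (V.cl g) (V.cl (chk K)) (V.cl π) ∧
        (∀ x x' y, IsApp (ModE V) (V.cl g) x y → IsApp (ModE V) (V.cl g) x' y → x = x') ∧
        IsPower (ModE V) (V.cl π) (V.cl (chk μ)) := by
      intro V hV
      have h1 := hV.forces hg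
      have h2 := (hV.mono (hq0.trans hq')).forces hpow
      rw [sat_and, sat_dFun, sat_fInjRel] at h1
      rw [sat_fPower] at h2
      exact ⟨h1.1, h1.2, h2⟩
    -- the formula for η ∈ g(ξ)
    let χ : Fml := fex (.fand (dApp 3 1 0) (.fmem 2 0))
    let F : Ordinal.{0} → Ordinal.{0} → P → Prop := fun ξ η p =>
      Forces χ (cons (chk ξ) (cons (chk η) (fun _ => g))) p
    obtain ⟨r, hr, ξ, hξ, ξ', hξ', hne, h⟩ := core F q0 μ hμ
      (fun ξ η p q h hq => h.mono hq)
    obtain ⟨V, hV⟩ := exists_genUlt r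
    obtain ⟨hf, hinj', hpow'⟩ := hg' V (hV.mono hr)
    obtain ⟨y, hy, hxy⟩ := hf.exists_app ((mod_chk_mem V).2 hξ)
    obtain ⟨y', hy', hxy'⟩ := hf.exists_app ((mod_chk_mem V).2 hξ')
    -- one direction, symmetric in ξ, ξ'
    have key : ∀ ξ₁ ξ₂ y₁ y₂, IsApp (ModE V) (V.cl g) (V.cl (chk ξ₁)) y₁ →
        IsApp (ModE V) (V.cl g) (V.cl (chk ξ₂)) y₂ → IsSub (ModE V) y₁ (V.cl (chk μ)) →
        (∀ η < μ, ∀ s, s ≤ r → ∃ t, t ≤ s ∧
          ((F ξ₁ η t ∧ F ξ₂ η t) ∨ ∀ t', t' ≤ t → ¬ F ξ₁ η t' ∧ ¬ F ξ₂ η t')) →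
        ∀ z, ModE V z y₁ → ModE V z y₂ := by
      intro ξ₁ ξ₂ y₁ y₂ h1 h2 h3 h4 z hz
      have hzμ := h3 z hz
      obtain ⟨ζ, rfl⟩ := exists_cl z
      have e1 : Sat (ModE V) χ (fun i => V.cl (cons (chk ξ₁) (cons ζ (fun _ => g)) i)) := by
        simp only [χ, sat_ex, sat_and, sat_dApp, sat_mem, cons_zero, cons_one, cons_two,
          cons_three]
        exact ⟨y₁, h1, hz⟩
      rw [los] at e1
      have e2 : Sat (ModE V) χ (fun i => V.cl (cons (chk ξ₂) (cons ζ (fun _ => g)) i)) := by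
        rw [los]
        refine ((ev_memF_chk' hzμ).and e1).imp2 hV ?_
        rintro s ⟨⟨η, hη, h5⟩, h6⟩ hs
        have h7 : F ξ₁ η s := h6.congr (by
          intro i
          match i with
          | 0 => exact EqF.refl _ _
          | 1 => exact h5
          | (n + 2) => exact EqF.refl _ _)
        have h8 : F ξ₂ η s := by
          apply Forces.dense
          intro s' hs'
          obtain ⟨t, ht, h9 | h9⟩ := h4 η hη s' (hs'.trans hs)
          · exact ⟨t, ht, h9.2⟩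
          · exact ((h9 t le_rfl).1 (Forces.mono h7 (ht.trans hs'))).elim
        exact h8.congr (by
          intro i
          match i with
          | 0 => exact EqF.refl _ _
          | 1 => exact h5.symm
          | (n + 2) => exact EqF.refl _ _)
      simp only [χ, sat_ex, sat_and, sat_dApp, sat_mem, cons_zero, cons_one, cons_two,
          cons_three] at e2
      obtain ⟨y₃, h5, h6⟩ := e2
      rw [hf.app_unique (mod_isZFC V) h2 h5]
      exact h6
    have hyy : y = y' := by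
      apply mod_ext
      intro z
      constructor
      · exact key ξ ξ' y y' hxy hxy' ((hpow' y).1 hy) h z
      · refine key ξ' ξ y' y hxy' hxy ((hpow' y').1 hy') ?_ z
        intro η hη s hs
        obtain ⟨t, ht, h1 | h1⟩ := h η hη s hs
        · exact ⟨t, ht, Or.inl ⟨h1.2, h1.1⟩⟩
        · exact ⟨t, ht, Or.inr fun t' ht' => ⟨(h1 t' ht').2, (h1 t' ht').1⟩⟩
    subst hyy
    exact hne ((mod_chk_eq V).1 (hinj' _ _ _ hxy hxy'))
  rw [sat_fStrong] at main
  exact main

end Pool.Agent.Lib.Forcing
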