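import Pool.Agent.Lib.Forcing.PosetDefs
import Pool.Agent.Lib.Forcing.WeaklyCompact

/-!
# Cardinal arithmetic for the forcing notion
-/

open Cardinal Ordinal Set

namespace Pool.Agent.Lib.Forcing

theorem add_omega_lt {κ : Cardinal.{0}} (hκ : κ.IsInaccessible) {γ : Ordinal.{0}}
    (h : γ < κ.ord) : γ + Ordinal.omega0 < κ.ord := by
  have h1 : ℵ₀ < κ := hκ.aleph0_lt
  refine Ordinal.isPrincipal_add_ord h1.le h ?_
  rw [← Cardinal.ord_aleph0]
  exact ord_lt_ord.2 h1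

theorem L_lt {κ : Cardinal.{0}} (hκ : κ.IsInaccessible) {γ : Ordinal.{0}} (h : γ < κ.ord) :
    L γ < κ := by
  have h1 := beth_strictMono (add_omega_lt hκ h)
  rw [hκ.beth_ord] at h1
  exact h1

/-- crude bounds -/
noncomputable def bb (m : Ordinal.{0}) (n : ℕ) : Cardinal.{1} := lift.{1} (beth (m + n))

theorem aleph0_le_bb (m : Ordinal.{0}) (n : ℕ) : ℵ₀ ≤ bb m n := by
  rw [bb, ← Cardinal.lift_aleph0.{1, 0}, Cardinal.lift_le]
  exact aleph0_le_beth _

theorem two_pow_bb (m : Ordinal.{0}) (n : ℕ) : (2 : Cardinal.{1}) ^ bb m n = bb m (n + 1) := by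
  rw [bb, bb, Nat.cast_succ, ← add_assoc, beth_add_one, Cardinal.lift_power, Cardinal.lift_two]

theorem bb_mono (m : Ordinal.{0}) {n k : ℕ} (h : n ≤ k) : bb m n ≤ bb m k := by
  rw [bb, bb, Cardinal.lift_le, beth_le_beth]
  gcongr

theorem bb_le_L (m : Ordinal.{0}) (n : ℕ) : bb m n ≤ lift.{1} (L m) := by
  rw [bb, Cardinal.lift_le, L, beth_le_beth]
  gcongr
  exact (natCast_lt_omega0 n).le

theorem mk_Iio_le_bb {m δ : Ordinal.{0}} (h : δ ≤ m) : #(Set.Iio δ) ≤ bb m 0 := by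
  rw [Cardinal.mk_Iio_ordinal, bb, Cardinal.lift_le]
  refine (Ordinal.card_le_beth δ).trans (beth_mono ?_)
  simpa using h

theorem mk_X_le_bb {m δ : Ordinal.{0}} (h : δ ≤ m) : #(X δ) ≤ bb m 1 := by
  rw [mk_set, ← two_pow_bb]
  exact power_le_power_left two_ne_zero (mk_Iio_le_bb h)

theorem mk_QIdx_le_bb {m γ δ : Ordinal.{0}} (h : δ ≤ m) : #(QIdx γ δ) ≤ bb m 2 := by
  have h1 : #(QIdx γ δ) ≤ #(Set (X δ × X δ)) := by
    refine mk_le_of_injective (f := fun Q => {x | Q.le x.1 x.2}) ?_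
    intro Q Q' he
    have h1 : Q.le = Q'.le := by
      funext x y
      exact congrFun he (x, y)
    cases Q; cases Q'
    simp only at h1
    subst h1
    rfl
  refine h1.trans ?_
  rw [mk_set, mk_prod, Cardinal.lift_id, ← two_pow_bb]
  refine power_le_power_left two_ne_zero ?_
  exact (mul_le_mul' (mk_X_le_bb h) (mk_X_le_bb h)).trans (mul_eq_self (aleph0_le_bb m 1)).le

theorem mk_Idx_le_bb {m γ δ : Ordinal.{0}} (h : δ ≤ m) : #(Idx γ δ) ≤ bb m 2 := by
  rw [mk_prod]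
  have h2 : lift.{1} #ℕ = (ℵ₀ : Cardinal.{1}) := by simp
  rw [h2]
  have h3 : lift.{0} #(QIdx γ δ) ≤ bb m 2 := by rw [Cardinal.lift_id']; exact mk_QIdx_le_bb h
  exact (mul_le_mul' h3 (aleph0_le_bb m 2)).trans (mul_eq_self (aleph0_le_bb m 2)).le

theorem mk_B_le_bb {m γ δ : Ordinal.{0}} (h : δ ≤ m) : #(B γ δ) ≤ bb m 3 := by
  rw [← power_def]
  have h1 : #(X δ) ≤ bb m 2 := (mk_X_le_bb h).trans (bb_mono m (by norm_num))
  have h0 : bb m 2 ≠ 0 := (lt_of_lt_of_le aleph0_pos (aleph0_le_bb m 2)).ne'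
  calc #(X δ) ^ #(Idx γ δ) ≤ bb m 2 ^ #(Idx γ δ) := power_le_power_right h1
    _ ≤ bb m 2 ^ bb m 2 := power_le_power_left h0 (mk_Idx_le_bb h)
    _ = bb m 3 := by rw [power_self_eq (aleph0_le_bb m 2), two_pow_bb]

theorem mk_R_le_bb (m : Ordinal.{0}) : #(R m) ≤ bb m 4 := by
  have h1 : #(Set.Iic m) ≤ bb m 1 := by
    have h2 : #(Set.Iic m) ≤ #(Set.Iio (m + 1)) :=
      mk_le_mk_of_subset fun x (hx : x ≤ m) => Order.lt_add_one_iff.2 hx
    refine h2.trans ?_
    rw [Cardinal.mk_Iio_ordinal, bb, Cardinal.lift_le]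
    refine (Ordinal.card_le_beth _).trans (beth_mono ?_)
    simp
  have h0 : bb m 3 ≠ 0 := (lt_of_lt_of_le aleph0_pos (aleph0_le_bb m 3)).ne'
  rw [mk_pi]
  calc Cardinal.prod (fun c : Set.Iic m × Set.Iic m => #(B c.1.1 c.2.1))
      ≤ Cardinal.prod (fun _ : Set.Iic m × Set.Iic m => bb m 3) :=
        prod_le_prod _ _ fun c => mk_B_le_bb c.2.2
    _ = bb m 3 ^ #(Set.Iic m × Set.Iic m) := by rw [prod_const, Cardinal.lift_id, Cardinal.lift_id]
    _ ≤ bb m 3 ^ bb m 3 := by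
        refine power_le_power_left h0 ?_
        rw [mk_prod, Cardinal.lift_id]
        exact (mul_le_mul' h1 h1).trans ((mul_eq_self (aleph0_le_bb m 1)).le.trans
          (bb_mono m (by norm_num)))
    _ = bb m 4 := by rw [power_self_eq (aleph0_le_bb m 3), two_pow_bb]

theorem mk_R_le (m : Ordinal.{0}) : #(R m) ≤ lift.{1} (L m) := (mk_R_le_bb m).trans (bb_le_L m 4)

theorem mk_setset_le {m μ : Ordinal.{0}} (h : μ ≤ m) :
    #(Set (Set (Set.Iio μ × R m))) ≤ lift.{1} (L m) := by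
  refine le_trans ?_ (bb_le_L m 6)
  rw [mk_set, mk_set, mk_prod, Cardinal.lift_id, Cardinal.lift_id, ← two_pow_bb, ← two_pow_bb]
  refine power_le_power_left two_ne_zero (power_le_power_left two_ne_zero ?_)
  exact (mul_le_mul' ((mk_Iio_le_bb h).trans (bb_mono m (by norm_num))) (mk_R_le_bb m)).trans
    (mul_eq_self (aleph0_le_bb m 4)).le

theorem mk_R_le_mk_X {m δ : Ordinal.{0}} (h : (L m).ord ≤ δ) : #(R m) ≤ #(X δ) := by
  refine (mk_R_le m).trans ?_
  rw [mk_set]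
  refine le_trans ?_ (cantor _).le
  rw [Cardinal.mk_Iio_ordinal, Cardinal.lift_le]
  exact ord_le.1 h

theorem mk_prod_le {lam del g : Ordinal.{0}} (h1 : lam < g) (h2 : del < g)
    (hinf : Ordinal.omega0 ≤ g) : #(Set (Set.Iio lam × Set.Iio del)) ≤ #(X g) := by
  rw [mk_set, mk_set, mk_prod, Cardinal.lift_id, Cardinal.lift_id]
  refine power_le_power_left two_ne_zero ?_
  have h3 : ℵ₀ ≤ #(Set.Iio g) := by
    rw [Cardinal.mk_Iio_ordinal, ← Cardinal.lift_aleph0.{1, 0}, Cardinal.lift_le]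
    rw [← Ordinal.card_omega0]
    exact Ordinal.card_le_card hinf
  refine (mul_le_mul' (mk_le_mk_of_subset (Set.Iio_subset_Iio h1.le))
    (mk_le_mk_of_subset (Set.Iio_subset_Iio h2.le))).trans (mul_eq_self h3).le

theorem exists_fresh {g del : Ordinal.{0}}
    (A : Set (Set.Iio ((Order.succ (L g)).ord) × Set.Iio del)) (hA : #A ≤ lift.{1} (L g)) :
    ∃ x, ∀ y, (x, y) ∉ A := by
  by_contra hcon
  push Not at hcon
  have hs : Function.Surjective (fun a : A => a.1.1) := by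
    intro x
    obtain ⟨y, hy⟩ := hcon x
    exact ⟨⟨(x, y), hy⟩, rfl⟩
  have h1 := (mk_le_of_surjective hs).trans hA
  rw [Cardinal.mk_Iio_ordinal, Cardinal.lift_le, card_ord] at h1
  exact absurd (Order.lt_succ (L g)) (not_lt.2 h1)

theorem mk_colours_lt {κ : Cardinal.{0}} (hκ : κ.IsInaccessible) {m : Ordinal.{0}}
    (h : m < κ.ord) : #(R m → Bool → Prop) < lift.{1} κ := by
  refine lt_of_le_of_lt ?_ (Cardinal.lift_lt.2 (L_lt hκ h))
  have h1 : #(R m → Bool → Prop) ≤ #(Set (R m × ULift.{1} Bool)) := by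
    refine mk_le_of_injective (f := fun c => {x | c x.1 x.2.down}) ?_
    intro c c' he
    funext a b
    exact congrFun he (a, ⟨b⟩)
  refine h1.trans (le_trans ?_ (bb_le_L m 5))
  rw [mk_set, mk_prod, Cardinal.lift_id, Cardinal.lift_id, ← two_pow_bb]
  refine power_le_power_left two_ne_zero ?_
  have hB : #(ULift.{1} Bool) ≤ bb m 4 :=
    (Cardinal.mk_le_aleph0 (α := ULift.{1} Bool)).trans (aleph0_le_bb m 4)
  exact (mul_le_mul' (mk_R_le_bb m) hB).trans (mul_eq_self (aleph0_le_bb m 4)).le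

/-! ## Non-inaccessible ordinals -/

theorem NI_of_card_lt {δ : Ordinal.{0}} (h : δ.card.ord < δ) : NI δ := by
  classical
  right; left
  refine ⟨δ.card.ord, h, ?_⟩
  have h1 : #(Set.Iio δ.card.ord) = #(Set.Iio δ) := by
    rw [Cardinal.mk_Iio_ordinal, Cardinal.mk_Iio_ordinal, card_ord]
  obtain ⟨e⟩ := Cardinal.eq.1 h1
  have hpos : 0 < δ := zero_le.trans_lt h
  refine ⟨fun ξ => if hξ : ξ < δ.card.ord then (e ⟨ξ, hξ⟩).1 else 0, ?_, ?_⟩
  · intro ξ hξ
    simp only [dif_pos hξ]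
    exact (e ⟨ξ, hξ⟩).2
  · intro β hβ
    refine ⟨(e.symm ⟨β, hβ⟩).1, (e.symm ⟨β, hβ⟩).2, ?_⟩
    have h2 : (e.symm ⟨β, hβ⟩).1 < δ.card.ord := (e.symm ⟨β, hβ⟩).2
    simp only [dif_pos h2]
    have h3 : e ⟨(e.symm ⟨β, hβ⟩).1, h2⟩ = ⟨β, hβ⟩ := e.apply_symm_apply ⟨β, hβ⟩
    rw [h3]

theorem NI_of_le_beth {δ β : Ordinal.{0}} (h : δ ≤ (beth β).ord) (hβ : β < δ) : NI δ := by
  classical
  by_cases hω : δ ≤ Ordinal.omega0
  · exact Or.inl hω
  by_cases hin : δ.card.ord < δ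
  · exact NI_of_card_lt hin
  have heq : δ.card.ord = δ := le_antisymm (ord_card_le δ) (not_lt.1 hin)
  set c := δ.card with hc
  have hcω : ℵ₀ < c := by
    rw [← ord_lt_ord, heq, Cardinal.ord_aleph0]
    exact not_le.1 hω
  have hne : {α : Ordinal.{0} | c ≤ beth α}.Nonempty := ⟨β, by
    rw [← heq, ord_le_ord] at h; exact h⟩
  set α := sInf {α : Ordinal.{0} | c ≤ beth α} with hα
  have hαmem : c ≤ beth α := csInf_mem hne
  have hαmin : ∀ ξ < α, beth ξ < c := fun ξ hξ => by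
    by_contra hcon
    exact absurd (csInf_le (OrderBot.bddBelow _) (show ξ ∈ {α : Ordinal.{0} | c ≤ beth α} from
      not_lt.1 hcon)) (not_le.2 hξ)
  have hαβ : α ≤ β := csInf_le (OrderBot.bddBelow _) (by
    show c ≤ beth β
    rw [← heq, ord_le_ord] at h; exact h)
  rcases Ordinal.zero_or_succ_or_isSuccLimit α with h0 | ⟨α', hs⟩ | hl
  · rw [h0, beth_zero] at hαmem
    exact absurd hcω (not_lt.2 hαmem)
  · -- successor
    have h1 : beth α' < c := hαmin α' (by rw [← hs]; exact Order.lt_succ α')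
    have h2 : c ≤ 2 ^ beth α' := by rw [← hs, beth_succ] at hαmem; exact hαmem
    right; right
    refine ⟨(beth α').ord, ?_, ?_⟩
    · rw [← heq]; exact ord_lt_ord.2 h1
    · have h3 : #(Set.Iio δ) ≤ #(Set (Set.Iio (beth α').ord)) := by
        rw [mk_set, Cardinal.mk_Iio_ordinal, Cardinal.mk_Iio_ordinal, card_ord,
          ← Cardinal.lift_two.{1, 0}, ← Cardinal.lift_power, Cardinal.lift_le]
        exact h2
      obtain ⟨e⟩ := h3
      refine ⟨fun ξ => if hξ : ξ < δ then Subtype.val '' (e ⟨ξ, hξ⟩) else ∅, ?_⟩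
      intro ξ hξ ξ' hξ' hiff
      simp only [dif_pos hξ, dif_pos hξ'] at hiff
      have h4 : e ⟨ξ, hξ⟩ = e ⟨ξ', hξ'⟩ := by
        ext ⟨η, hη⟩
        have h5 := hiff η hη
        constructor
        · intro h6
          obtain ⟨y, hy, hy'⟩ := h5.1 ⟨_, h6, rfl⟩
          have : y = ⟨η, hη⟩ := Subtype.ext hy'
          rw [← this]; exact hy
        · intro h6
          obtain ⟨y, hy, hy'⟩ := h5.2 ⟨_, h6, rfl⟩
          have : y = ⟨η, hη⟩ := Subtype.ext hy'
          rw [← this]; exact hy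
      exact congrArg Subtype.val (e.injective h4)
  · -- limit
    right; left
    refine ⟨α, hαβ.trans_lt hβ, fun ξ => (beth ξ).ord, ?_, ?_⟩
    · intro ξ hξ
      show (beth ξ).ord < δ
      rw [← heq]; exact ord_lt_ord.2 (hαmin ξ hξ)
    · intro x hx
      have h1 : x.card < beth α := by
        refine lt_of_lt_of_le ?_ hαmem
        rw [← heq] at hx
        exact lt_ord.1 hx
      rw [beth_limit hl] at h1
      have hne : Nonempty (Set.Iio α) := ⟨⟨0, hl.bot_lt⟩⟩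
      obtain ⟨ξ, hξ⟩ := exists_lt_of_lt_ciSup h1
      exact ⟨ξ.1, ξ.2, (lt_ord.2 hξ).le⟩

theorem NI_of_between {γ δ : Ordinal.{0}} (h : γ < δ) (h2 : δ ≤ (Order.succ (L γ)).ord) :
    NI δ := by
  by_cases hω : δ ≤ Ordinal.omega0
  · exact Or.inl hω
  by_cases hin : δ.card.ord < δ
  · exact NI_of_card_lt hin
  have heq : δ.card.ord = δ := le_antisymm (ord_card_le δ) (not_lt.1 hin)
  have hcω : ℵ₀ < δ.card := by
    rw [← ord_lt_ord, heq, Cardinal.ord_aleph0]
    exact not_le.1 hω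
  have h3 : δ ≤ (beth (γ + Ordinal.omega0 + 1)).ord := by
    refine h2.trans (ord_le_ord.2 ?_)
    rw [beth_add_one]
    exact Order.succ_le_of_lt (cantor _)
  refine NI_of_le_beth h3 ?_
  by_contra hcon
  have h4 : δ.card ≤ (γ + Ordinal.omega0 + 1).card := Ordinal.card_le_card (not_lt.1 hcon)
  rw [Ordinal.card_add, Ordinal.card_add, Ordinal.card_omega0, Ordinal.card_one] at h4
  have h5 : γ.card < δ.card := by
    rw [← heq] at h
    exact lt_ord.1 h
  have h6 : γ.card + ℵ₀ + 1 < δ.card :=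
    add_lt_of_lt hcω.le (add_lt_of_lt hcω.le h5 hcω) (one_lt_aleph0.trans hcω)
  exact absurd h4 (not_le.2 h6)

theorem exists_NI_above {κ : Cardinal.{0}} (hκ : κ.IsInaccessible) {β : Ordinal.{0}}
    (hb : β < κ.ord) : ∃ δ < κ.ord, β < δ ∧ NI δ := by
  refine ⟨β + Ordinal.omega0, add_omega_lt hκ hb, ?_, ?_⟩
  · exact lt_add_of_pos_right _ Ordinal.omega0_pos
  · by_cases hω : β + Ordinal.omega0 ≤ Ordinal.omega0
    · exact Or.inl hω
    · right; left
      refine ⟨Ordinal.omega0, not_le.1 hω, fun ξ => β + ξ, ?_, ?_⟩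
      · intro ξ hξ
        exact (add_lt_add_iff_left β).2 hξ
      · intro x hx
        rcases le_total x β with h1 | h1
        · exact ⟨0, Ordinal.omega0_pos, by simpa using h1⟩
        · refine ⟨x - β, ?_, ?_⟩
          · exact (Ordinal.sub_lt_of_le h1).2 hx
          · exact (Ordinal.add_sub_cancel_of_le h1).ge

end Pool.Agent.Lib.Forcing
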