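import Pool.Agent.Lib.Forcing.Decision
import Pool.Agent.Lib.Forcing.Sizes
import Pool.Agent.Lib.Forcing.Preserve

/-!
# Adding points; preservation of regularity and of the strong limit property
-/

set_option linter.unusedSectionVars false

open Cardinal Ordinal Set

namespace Pool.Agent.Lib.Forcing

variable {κ : Cardinal.{0}}

theorem Good.addPoint {K : Ordinal.{0}} {s : Set Ordinal.{0}} (h : Good K s) {δ : Ordinal.{0}}
    (h1 : mx s < δ) (h2 : δ < K) (h3 : NI δ) (h4 : (L (mx s)).ord ≤ δ) :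
    Good K (insert δ s) := by
  have hle : ∀ x ∈ insert δ s, x ≤ δ := by
    rintro x (rfl | hx)
    · exact le_rfl
    · exact (h.le_mx hx).trans h1.le
  refine ⟨Or.inr h.zero, ?_, ?_, ?_, ?_⟩
  · intro x hx; exact (hle x hx).trans_lt h2
  · rintro x (rfl | hx)
    · exact h3
    · exact h.ni x hx
  · rintro x (rfl | hx) y (rfl | hy) hxy
    · exact (lt_irrefl _ hxy).elim
    · exact (not_lt.2 ((h.le_mx hy).trans h1.le) hxy).elim
    · exact (ord_le_ord.2 (L_mono' (h.le_mx hx))).trans h4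
    · exact h.spaced x hx y hy hxy
  · intro T hT hne
    by_cases hδ : δ ∈ T
    · left
      exact le_antisymm (csSup_le hne fun x hx => hle x (hT hx))
        (le_csSup ⟨δ, fun x hx => hle x (hT hx)⟩ hδ)
    · right
      exact h.closed T (fun x hx => (hT hx).resolve_left fun h => hδ (h ▸ hx)) hne

theorem mx_insert {K : Ordinal.{0}} {s : Set Ordinal.{0}} (h : Good K s) {δ : Ordinal.{0}}
    (h1 : mx s < δ) : mx (insert δ s) = δ := by
  have hle : ∀ x ∈ insert δ s, x ≤ δ := by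
    rintro x (rfl | hx)
    · exact le_rfl
    · exact (h.le_mx hx).trans h1.le
  exact le_antisymm (csSup_le ⟨δ, mem_insert _ _⟩ hle) (le_csSup ⟨δ, hle⟩ (mem_insert _ _))

theorem endExt_insert {K : Ordinal.{0}} {s : Set Ordinal.{0}} (h : Good K s) {δ : Ordinal.{0}}
    (h1 : mx s < δ) : EndExt (insert δ s) s := by
  refine ⟨subset_insert _ _, ?_⟩
  rintro x (rfl | hx) hle
  · exact (not_le.2 h1 hle).elim
  · exact hx

/-- add the point `δ` on top, with arbitrary new part -/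
def addPt {K : Ordinal.{0}} (p : Cond K) (r : ∀ γ δ : Ordinal.{0}, B γ δ) (δ : Ordinal.{0})
    (h : Good K (insert δ p.s)) : Cond K := ⟨insert δ p.s, r, h⟩

theorem exists_ext_above (hκ : κ.IsInaccessible) (p : Cond κ.ord) {β : Ordinal.{0}}
    (hβ : β < κ.ord) : ∃ q, q ≤ p ∧ β < mx q.s := by
  have h1 : mx p.s < κ.ord := p.good.lt _ p.good.mx_mem
  have h2 : (L (mx p.s)).ord < κ.ord := ord_lt_ord.2 (L_lt hκ h1)
  obtain ⟨δ, hδ, hlt, hni⟩ := exists_NI_above hκ
    (β := max β (max (mx p.s) (L (mx p.s)).ord)) (max_lt hβ (max_lt h1 h2))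
  have h3 : mx p.s < δ := (le_max_left _ _).trans_lt ((le_max_right _ _).trans_lt hlt)
  have h4 : (L (mx p.s)).ord < δ := (le_max_right _ _).trans_lt ((le_max_right _ _).trans_lt hlt)
  refine ⟨⟨insert δ p.s, p.r, p.good.addPoint h3 hδ hni h4.le⟩,
    ⟨endExt_insert p.good h3, fun γ δ _ => Ble.refl _⟩, ?_⟩
  show β < mx (insert δ p.s)
  rw [mx_insert p.good h3]
  exact (le_max_left _ _).trans_lt hlt

theorem Cond.mx_lt (p : Cond κ.ord) : mx p.s < κ.ord := p.good.lt _ p.good.mx_mem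

/-- regularity is preserved -/
theorem regCore (hκ : κ.IsInaccessible) : RegCore (Cond κ.ord) κ.ord := by
  classical
  intro F p0 μ hμ hopen hfun htot
  obtain ⟨p, hp, hμp⟩ := exists_ext_above hκ p0 hμ
  have hL := L_lt hκ p.mx_lt
  have hJ : #(Set.Iio μ) ≤ lift.{1} (L (mx p.s)) := by
    rw [Cardinal.mk_Iio_ordinal, Cardinal.lift_le]
    refine (Ordinal.card_le_card hμp.le).trans ((Ordinal.card_le_beth _).trans ?_)
    rw [L, beth_le_beth]
    exact le_self_add
  obtain ⟨t, ht, h⟩ := decision hκ.isRegular hL (mk_R_le _) (J := Set.Iio μ) hJ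
    (fun ξ q => ∃ η < κ.ord, F ξ.1 η q) (by
      rintro ξ q q' ⟨η, hη, h⟩ hq
      exact ⟨η, hη, hopen _ _ _ _ h hq⟩) (by
      intro ξ q hq
      exact htot ξ.1 ξ.2 q (hq.trans hp))
  set m := mx p.s with hm
  -- the values
  let val : Set.Iio μ × R m → Ordinal.{0} := fun i =>
    if h : ∃ η < κ.ord, F i.1.1 η (repl m (ext m i.2) t) then h.choose else 0
  have hpos : (0 : Ordinal.{0}) < κ.ord := zero_le.trans_lt hμ
  have hval : ∀ i, val i < κ.ord := by
    intro i
    simp only [val]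
    split_ifs with h
    · exact h.choose_spec.1
    · exact hpos
  have hsize : #(Set.Iio μ × R m) < lift.{1} κ := by
    rw [mk_prod, Cardinal.lift_id, Cardinal.lift_id]
    refine lt_of_le_of_lt ((mul_le_mul' hJ (mk_R_le _)).trans ?_)
      (Cardinal.lift_lt.{0, 1}.2 hL)
    rw [mul_eq_self]
    rw [← Cardinal.lift_aleph0.{1, 0}, Cardinal.lift_le]
    exact aleph0_le_L m
  obtain ⟨β, hβ, hb⟩ := bounded_family hκ.isRegular hsize hval
  refine ⟨t, ht.1.trans hp, β, hβ, ?_⟩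
  intro ξ hξ η s hs hF
  obtain ⟨ρ', h1, h2⟩ := h ⟨ξ, hξ⟩ s.r (fun γ δ hc => (hs.trans ht.1).2 γ δ hc)
  have h3 : val (⟨ξ, hξ⟩, ρ') < β := hb _
  have h4 : F ξ (val (⟨ξ, hξ⟩, ρ')) (repl m (ext m ρ') t) := by
    simp only [val]
    rw [dif_pos h2]
    exact h2.choose_spec.2
  -- compare below `repl m (ext m ρ') s`
  have h5 : repl m (ext m ρ') s ≤ s := repl_le_self h1 (hs.trans ht.1)
  have h6 : repl m (ext m ρ') s ≤ repl m (ext m ρ') t :=
    repl_mono (fun γ δ _ => Ble.refl _) ht.1 hs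
  have h7 := hfun ξ _ _ _ (hopen _ _ _ _ hF h5) (hopen _ _ _ _ h4 h6)
  rw [h7]; exact h3

/-- the strong limit property is preserved -/
theorem strongCore (hκ : κ.IsInaccessible) : StrongCore (Cond κ.ord) κ.ord := by
  classical
  intro F p0 μ hμ hopen
  obtain ⟨p, hp, hμp⟩ := exists_ext_above hκ p0 hμ
  have hL := L_lt hκ p.mx_lt
  set m := mx p.s with hm
  -- an index set of size larger than the number of codes
  let N : Type 1 := Set (Set (Set.Iio μ × R m))
  have hN : #N ≤ lift.{1} (L m) := mk_setset_le hμp.le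
  have hJ1 : #(Set.Iio μ) ≤ lift.{1} (L m) := by
    rw [Cardinal.mk_Iio_ordinal, Cardinal.lift_le]
    refine (Ordinal.card_le_card hμp.le).trans ((Ordinal.card_le_beth _).trans ?_)
    rw [L, beth_le_beth]
    exact le_self_add
  have hJ : #(N × Set.Iio μ) ≤ lift.{1} (L m) := by
    rw [mk_prod, Cardinal.lift_id, Cardinal.lift_id]
    refine (mul_le_mul' hN hJ1).trans ?_
    rw [mul_eq_self]
    rw [← Cardinal.lift_aleph0.{1, 0}, Cardinal.lift_le]
    exact aleph0_le_L m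
  -- an injection of N into κ
  have hemb : #N ≤ #(Set.Iio κ.ord) := by
    rw [Cardinal.mk_Iio_ordinal, card_ord]
    exact hN.trans (Cardinal.lift_le.2 hL.le)
  obtain ⟨e⟩ := hemb
  obtain ⟨t, ht, h⟩ := decision hκ.isRegular hL (mk_R_le _) (J := N × Set.Iio μ) hJ
    (fun j q => F (e j.1).1 j.2.1 q ∨ ∀ q', q' ≤ q → ¬ F (e j.1).1 j.2.1 q') (by
      rintro j q q' (h | h) hq
      · exact Or.inl (hopen _ _ _ _ h hq)
      · exact Or.inr fun q'' hq'' => h q'' (hq''.trans hq)) (by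
      intro j q _
      by_cases h : ∃ q', q' ≤ q ∧ F (e j.1).1 j.2.1 q'
      · obtain ⟨q', h1, h2⟩ := h
        exact ⟨q', h1, Or.inl h2⟩
      · push Not at h
        exact ⟨q, le_rfl, Or.inr h⟩)
  -- codes
  let code : N → Set (Set.Iio μ × R m) := fun n => {i | F (e n).1 i.1.1 (repl m (ext m i.2) t)}
  obtain ⟨n, n', hne, hcode⟩ : ∃ n n' : N, n ≠ n' ∧ code n = code n' := by
    by_contra hcon
    push Not at hcon
    have hinj : Function.Injective code := by
      intro n n' h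
      by_contra h'
      exact hcon n n' h' h
    exact Function.cantor_injective code hinj
  refine ⟨t, ht.1.trans hp, (e n).1, (e n).2, (e n').1, (e n').2, ?_, ?_⟩
  · intro h'
    exact hne (e.injective (Subtype.ext h'))
  · intro η hη s hs
    have hsr : ∀ γ δ, Cons p.s γ δ → Ble (s.r γ δ) (p.r γ δ) := (hs.trans ht.1).2
    -- decide first for n, then for n'
    obtain ⟨ρ₁, h1, h2⟩ := h (n, ⟨η, hη⟩) s.r hsr
    obtain ⟨ρ₂, h3, h4⟩ := h (n', ⟨η, hη⟩) (ext m ρ₁) (fun γ δ hc => (h1 γ δ hc).trans (hsr γ δ hc))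
    have hle1 : repl m (ext m ρ₂) t ≤ repl m (ext m ρ₁) t := repl_mono h3 ht.1 le_rfl
    have h2' : F (e n).1 η (repl m (ext m ρ₂) t) ∨
        ∀ q', q' ≤ repl m (ext m ρ₂) t → ¬ F (e n).1 η q' := by
      rcases h2 with h2 | h2
      · exact Or.inl (hopen _ _ _ _ h2 hle1)
      · exact Or.inr fun q' hq' => h2 q' (hq'.trans hle1)
    have h5 : F (e n).1 η (repl m (ext m ρ₂) t) ↔ F (e n').1 η (repl m (ext m ρ₂) t) := by
      have := Set.ext_iff.1 hcode (⟨η, hη⟩, ρ₂)
      exact this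
    have h6 : repl m (ext m ρ₂) s ≤ s :=
      repl_le_self (fun γ δ hc => (h3 γ δ hc).trans (h1 γ δ hc)) (hs.trans ht.1)
    have h7 : repl m (ext m ρ₂) s ≤ repl m (ext m ρ₂) t :=
      repl_mono (fun γ δ _ => Ble.refl _) ht.1 hs
    refine ⟨repl m (ext m ρ₂) s, h6, ?_⟩
    rcases h2' with h8 | h8
    · exact Or.inl ⟨hopen _ _ _ _ h8 h7, hopen _ _ _ _ (h5.1 h8) h7⟩
    · have h9 : ¬ F (e n').1 η (repl m (ext m ρ₂) t) := fun h => h8 _ le_rfl (h5.2 h)
      have h10 : ∀ q', q' ≤ repl m (ext m ρ₂) t → ¬ F (e n').1 η q' := by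
        rcases h4 with h4 | h4
        · exact (h9 h4).elim
        · exact h4
      exact Or.inr fun t' ht' => ⟨h8 _ (ht'.trans h7), h10 _ (ht'.trans h7)⟩

end Pool.Agent.Lib.Forcing
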