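import Pool.Agent.Lib.Forcing.Closure

/-!
# The decision lemma
-/

set_option linter.unusedSectionVars false

open Cardinal Ordinal Set

namespace Pool.Agent.Lib.Forcing

variable {K : Ordinal.{0}}

/-- replace the part of the condition `t` up to `m` by `a` -/
noncomputable def repl (m : Ordinal.{0}) (a : ∀ γ δ : Ordinal.{0}, B γ δ) (t : Cond K) : Cond K :=
  open Classical in
  ⟨t.s, fun γ δ => if γ ≤ m ∧ δ ≤ m then a γ δ else t.r γ δ, t.good⟩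

@[simp] theorem repl_s (m : Ordinal.{0}) (a : ∀ γ δ : Ordinal.{0}, B γ δ) (t : Cond K) :
    (repl m a t).s = t.s := rfl

theorem repl_r_of_le {m : Ordinal.{0}} {a : ∀ γ δ : Ordinal.{0}, B γ δ} {t : Cond K}
    {γ δ : Ordinal.{0}} (h1 : γ ≤ m) (h2 : δ ≤ m) : (repl m a t).r γ δ = a γ δ := by
  simp only [repl]; rw [if_pos ⟨h1, h2⟩]

theorem repl_r_of_not {m : Ordinal.{0}} {a : ∀ γ δ : Ordinal.{0}, B γ δ} {t : Cond K}
    {γ δ : Ordinal.{0}} (h1 : ¬ (γ ≤ m ∧ δ ≤ m)) : (repl m a t).r γ δ = t.r γ δ := by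
  simp only [repl]; rw [if_neg h1]

/-- restriction of a total function to the part up to `m` -/
def res (m : Ordinal.{0}) (a : ∀ γ δ : Ordinal.{0}, B γ δ) : R m := fun c => a c.1.1 c.2.1

/-- extension by junk values -/
noncomputable def ext (m : Ordinal.{0}) (ρ : R m) : ∀ γ δ : Ordinal.{0}, B γ δ :=
  open Classical in
  fun γ δ => if h : γ ≤ m ∧ δ ≤ m then ρ (⟨γ, h.1⟩, ⟨δ, h.2⟩) else fun _ => ∅

theorem ext_res {m : Ordinal.{0}} {a : ∀ γ δ : Ordinal.{0}, B γ δ} {γ δ : Ordinal.{0}}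
    (h1 : γ ≤ m) (h2 : δ ≤ m) : ext m (res m a) γ δ = a γ δ := by
  unfold ext; rw [dif_pos ⟨h1, h2⟩]; rfl

theorem repl_ext_res {m : Ordinal.{0}} {a : ∀ γ δ : Ordinal.{0}, B γ δ} {t : Cond K} :
    repl m (ext m (res m a)) t = repl m a t := by
  unfold repl
  congr 1
  funext γ δ
  split_ifs with h
  · exact ext_res h.1 h.2
  · rfl

theorem Good.cons_le {s : Set Ordinal.{0}} (h : Good K s) {γ δ : Ordinal.{0}}
    (hc : Cons s γ δ) : γ ≤ mx s ∧ δ ≤ mx s := ⟨h.le_mx hc.1, h.le_mx hc.2.1⟩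

theorem repl_le {p t : Cond K} {a : ∀ γ δ : Ordinal.{0}, B γ δ}
    (ha : ∀ γ δ, Cons p.s γ δ → Ble (a γ δ) (p.r γ δ)) (ht : t ≤ p) :
    repl (mx p.s) a t ≤ p := by
  refine ⟨ht.1, fun γ δ hc => ?_⟩
  have h1 := p.good.cons_le hc
  rw [repl_r_of_le h1.1 h1.2]
  exact ha γ δ hc

/-- a consecutive pair of an end-extension which lies below the maximum is consecutive -/
theorem Cons.of_ext {s t : Set Ordinal.{0}} {γ δ : Ordinal.{0}} (h : EndExt t s)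
    (hc : Cons t γ δ) (hδ : δ ≤ mx s) : Cons s γ δ :=
  ⟨h.2 γ hc.1 (hc.2.2.1.le.trans hδ), h.2 δ hc.2.1 hδ, hc.2.2.1,
    fun x hx hx' => hc.2.2.2 x (h.1 hx) hx'⟩

theorem repl_mono {p t t' : Cond K} {a a' : ∀ γ δ : Ordinal.{0}, B γ δ}
    (ha : ∀ γ δ, Cons p.s γ δ → Ble (a' γ δ) (a γ δ)) (ht : t ≤ p) (h : t' ≤ t) :
    repl (mx p.s) a' t' ≤ repl (mx p.s) a t := by
  refine ⟨h.1, fun γ δ hc => ?_⟩
  have hc' : Cons t.s γ δ := hc
  by_cases h1 : γ ≤ mx p.s ∧ δ ≤ mx p.s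
  · rw [repl_r_of_le h1.1 h1.2, repl_r_of_le h1.1 h1.2]
    exact ha γ δ (hc'.of_ext ht.1 h1.2)
  · rw [repl_r_of_not h1, repl_r_of_not h1]
    exact h.2 γ δ hc'

/-- if `q ≤ t ≤ p` and `a ≤ q.r` on `p.s` then replacing strengthens `q` -/
theorem repl_le_self {p q : Cond K} {a : ∀ γ δ : Ordinal.{0}, B γ δ}
    (ha : ∀ γ δ, Cons p.s γ δ → Ble (a γ δ) (q.r γ δ)) (hq : q ≤ p) :
    repl (mx p.s) a q ≤ q := by
  refine ⟨EndExt.refl _, fun γ δ hc => ?_⟩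
  by_cases h1 : γ ≤ mx p.s ∧ δ ≤ mx p.s
  · rw [repl_r_of_le h1.1 h1.2]
    exact ha γ δ (hc.of_ext hq.1 h1.2)
  · rw [repl_r_of_not h1]; exact Ble.refl _

variable {κ : Cardinal.{0}}

theorem TailExt.refl (p : Cond K) : TailExt p p := ⟨le_rfl, fun _ _ _ _ => rfl⟩

/-- The decision lemma. -/
theorem decision (hκ : κ.IsRegular) {p : Cond κ.ord} (hL : L (mx p.s) < κ)
    (hR : #(R (mx p.s)) ≤ lift.{1} (L (mx p.s))) {J : Type 1}
    (hJ : #J ≤ lift.{1} (L (mx p.s))) (D : J → Cond κ.ord → Prop)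
    (hopen : ∀ j q q', D j q → q' ≤ q → D j q')
    (hdense : ∀ j q, q ≤ p → ∃ q', q' ≤ q ∧ D j q') :
    ∃ t, TailExt t p ∧ ∀ j (a : ∀ γ δ : Ordinal.{0}, B γ δ),
      (∀ γ δ, Cons p.s γ δ → Ble (a γ δ) (p.r γ δ)) →
      ∃ ρ' : R (mx p.s), (∀ γ δ, Cons p.s γ δ → Ble (ext _ ρ' γ δ) (a γ δ)) ∧
        D j (repl (mx p.s) (ext _ ρ') t) := by
  classical
  set m := mx p.s with hm
  let T : Type 1 := {t : Cond κ.ord // TailExt t p}
  have hcl : ChainClosed (lift.{1} (L m)) (fun x y : T => x ≤ y) := by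
    intro C hC hc
    rcases C.eq_empty_or_nonempty with rfl | ⟨z, hz⟩
    · exact ⟨⟨p, TailExt.refl p⟩, fun x hx => hx.elim⟩
    · obtain ⟨u, hu1, hu2⟩ := tail_chain hκ hL (Subtype.val '' C) ⟨z.1, z, hz, rfl⟩ (by
          rintro _ ⟨x, hx, rfl⟩ _ ⟨y, hy, rfl⟩
          exact hC x hx y hy) (mk_image_le.trans hc) (by
          rintro _ ⟨x, hx, rfl⟩
          exact x.2)
      exact ⟨⟨u, hu1⟩, fun y hy => hu2 _ ⟨y, hy, rfl⟩⟩
  have hI : #(J × R m) ≤ lift.{1} (L m) := by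
    rw [mk_prod, Cardinal.lift_id, Cardinal.lift_id]
    refine (mul_le_mul' hJ hR).trans ?_
    rw [mul_eq_self]
    rw [← Cardinal.lift_aleph0.{1, 0}, Cardinal.lift_le]
    exact aleph0_le_L m
  let D' : J × R m → T → Prop := fun i t =>
    (∀ γ δ, Cons p.s γ δ → Ble (ext m i.2 γ δ) (p.r γ δ)) →
      ∃ ρ' : R m, (∀ γ δ, Cons p.s γ δ → Ble (ext m ρ' γ δ) (ext m i.2 γ δ)) ∧
        D i.1 (repl m (ext m ρ') t.1)
  obtain ⟨t, _, ht⟩ := distrib hcl hI D' (by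
      rintro i t t' h htt hρ
      obtain ⟨ρ', h1, h2⟩ := h hρ
      exact ⟨ρ', h1, hopen _ _ _ h2 (repl_mono (fun γ δ _ => Ble.refl _) t.2.1 htt)⟩) (by
      rintro ⟨j, ρ⟩ t
      by_cases hρ : ∀ γ δ, Cons p.s γ δ → Ble (ext m ρ γ δ) (p.r γ δ)
      · obtain ⟨q, hq1, hq2⟩ := hdense j (repl m (ext m ρ) t.1) (repl_le hρ t.2.1)
        let t' : Cond κ.ord := repl m p.r q
        have ht't : t' ≤ t.1 := by
          refine ⟨hq1.1, fun γ δ hc => ?_⟩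
          by_cases h1 : γ ≤ m ∧ δ ≤ m
          · rw [repl_r_of_le h1.1 h1.2, t.2.2 γ δ h1.1 h1.2]; exact Ble.refl _
          · rw [repl_r_of_not h1]
            have h2 := hq1.2 γ δ hc
            rw [repl_r_of_not h1] at h2
            exact h2
        refine ⟨⟨t', ht't.trans t.2.1, fun γ δ h1 h2 => repl_r_of_le h1 h2⟩, ht't, ?_⟩
        intro _
        refine ⟨res m q.r, ?_, ?_⟩
        · intro γ δ hc
          have h1 := p.good.cons_le hc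
          rw [ext_res h1.1 h1.2]
          have h2 := hq1.2 γ δ (hc.ext t.2.1.1 p.good)
          rw [repl_r_of_le h1.1 h1.2] at h2
          exact h2
        · rw [repl_ext_res]
          refine hopen _ _ _ hq2 ?_
          refine ⟨EndExt.refl _, fun γ δ hc => ?_⟩
          show Ble ((repl m q.r (repl m p.r q)).r γ δ) (q.r γ δ)
          by_cases h1 : γ ≤ m ∧ δ ≤ m
          · rw [repl_r_of_le h1.1 h1.2]; exact Ble.refl _
          · rw [repl_r_of_not h1, repl_r_of_not h1]; exact Ble.refl _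
      · exact ⟨t, le_rfl, fun h => (hρ h).elim⟩) ⟨p, TailExt.refl p⟩
  refine ⟨t.1, t.2, fun j a ha => ?_⟩
  have h1 : ∀ γ δ, Cons p.s γ δ → ext m (res m a) γ δ = a γ δ := fun γ δ hc =>
    ext_res (p.good.cons_le hc).1 (p.good.cons_le hc).2
  obtain ⟨ρ', h2, h3⟩ := ht (j, res m a) (fun γ δ hc => by rw [h1 γ δ hc]; exact ha γ δ hc)
  exact ⟨ρ', fun γ δ hc => by rw [← h1 γ δ hc]; exact h2 γ δ hc, h3⟩

end Pool.Agent.Lib.Forcing
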