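import Mathlib

/-!
# Definitions: formulas of set theory, the Levy hierarchy (first level), ZFC, inaccessible
cardinals, `H(κ)` and the `Σ_1`-colouring property inside a structure `(M, E)`; weakly compact
cardinals.
-/

namespace Pool.Agent.Lib.Forcing

/-- Formulas of the first-order language with one binary relation symbol (membership) and
equality.  Variables are natural numbers (de Bruijn indices): in `fall φ` the variable `0` of
`φ` is the bound one, and the variable `n+1` of `φ` is the variable `n` outside. -/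
inductive Fml : Type
  | fmem : ℕ → ℕ → Fml
  | feq : ℕ → ℕ → Fml
  | fneg : Fml → Fml
  | fand : Fml → Fml → Fml
  | fall : Fml → Fml

/-- The assignment `x, v 0, v 1, ...`. -/
def cons {M : Type*} (x : M) (v : ℕ → M) : ℕ → M
  | 0 => x
  | n + 1 => v n

/-- Satisfaction of a formula in the structure `(M, E)` under an assignment. -/
def Sat {M : Type*} (E : M → M → Prop) : Fml → (ℕ → M) → Prop
  | .fmem i j, v => E (v i) (v j)
  | .feq i j, v => v i = v j
  | .fneg φ, v => ¬ Sat E φ v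
  | .fand φ ψ, v => Sat E φ v ∧ Sat E ψ v
  | .fall φ, v => ∀ x, Sat E φ (cons x v)

/-- The `Σ_0` (that is, `Δ_0`) formulas: built from atomic formulas by negation, conjunction
and bounded quantification `∀ x ∈ v_j, φ`, which is written `∀ x, ¬ (x ∈ v_j ∧ ¬ φ)`. -/
inductive Delta0 : Fml → Prop
  | dmem (i j : ℕ) : Delta0 (.fmem i j)
  | deq (i j : ℕ) : Delta0 (.feq i j)
  | dneg (φ : Fml) : Delta0 φ → Delta0 (.fneg φ)
  | dand (φ ψ : Fml) : Delta0 φ → Delta0 ψ → Delta0 (.fand φ ψ)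
  | dball (j : ℕ) (φ : Fml) : Delta0 φ →
      Delta0 (.fall (.fneg (.fand (.fmem 0 (j + 1)) (.fneg φ))))

/-- The `Σ_1` formulas: `∃ x, ψ` with `ψ` a `Σ_0` formula (`∃ x` is written `¬ ∀ x, ¬`). -/
def Sigma1 (φ : Fml) : Prop := ∃ ψ, Delta0 ψ ∧ φ = .fneg (.fall (.fneg ψ))

/-- `(M, E)` is a model of ZFC. -/
structure IsZFC (M : Type*) (E : M → M → Prop) : Prop where
  extensionality : ∀ x y, (∀ z, E z x ↔ E z y) → x = y
  foundation : ∀ x, (∃ y, E y x) → ∃ y, E y x ∧ ∀ z, E z y → ¬ E z x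
  pairing : ∀ x y, ∃ z, ∀ w, E w z ↔ w = x ∨ w = y
  union : ∀ x, ∃ y, ∀ z, E z y ↔ ∃ w, E w x ∧ E z w
  powerset : ∀ x, ∃ y, ∀ z, E z y ↔ ∀ w, E w z → E w x
  infinity : ∃ x, (∃ e, (∀ z, ¬ E z e) ∧ E e x) ∧
    ∀ y, E y x → ∃ z, E z x ∧ ∀ w, E w z ↔ E w y ∨ w = y
  separation : ∀ (φ : Fml) (v : ℕ → M) (x : M), ∃ y, ∀ z, E z y ↔ E z x ∧ Sat E φ (cons z v)
  replacement : ∀ (φ : Fml) (v : ℕ → M) (x : M),
    (∀ y, E y x → ∃! z, Sat E φ (cons y (cons z v))) →
    ∃ w, ∀ z, E z w ↔ ∃ y, E y x ∧ Sat E φ (cons y (cons z v))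
  choice : ∀ x, (∀ y, E y x → ∃ z, E z y) →
    (∀ y y', E y x → E y' x → y ≠ y' → ∀ z, ¬ (E z y ∧ E z y')) →
    ∃ c, ∀ y, E y x → ∃! z, E z c ∧ E z y

section Inside

variable {M : Type*} (E : M → M → Prop)

/-- `x ⊆ y` -/
def IsSub (x y : M) : Prop := ∀ z, E z x → E z y

/-- `z = {x, y}` -/
def IsUPair (z x y : M) : Prop := ∀ w, E w z ↔ w = x ∨ w = y

/-- `z = (x, y) = {{x}, {x, y}}` -/
def IsOPair (z x y : M) : Prop := ∃ a b, IsUPair E a x x ∧ IsUPair E b x y ∧ IsUPair E z a b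

/-- `(x, y) ∈ f` -/
def IsApp (f x y : M) : Prop := ∃ z, E z f ∧ IsOPair E z x y

/-- `f` is a function from `a` to `b`. -/
def IsFun (f a b : M) : Prop :=
  (∀ z, E z f → ∃ x y, E x a ∧ E y b ∧ IsOPair E z x y) ∧
  ∀ x, E x a → ∃! y, E y b ∧ IsApp E f x y

/-- there is an injective function from `a` to `b` -/
def HasInj (a b : M) : Prop :=
  ∃ f, IsFun E f a b ∧ ∀ x x' y, IsApp E f x y → IsApp E f x' y → x = x'

/-- there is a function from `a` onto `b` -/
def HasSurj (a b : M) : Prop := ∃ f, IsFun E f a b ∧ ∀ y, E y b → ∃ x, IsApp E f x y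

/-- `p` is the power set of `m` -/
def IsPower (p m : M) : Prop := ∀ z, E z p ↔ IsSub E z m

/-- `t` is a transitive set -/
def IsTrans (t : M) : Prop := ∀ x, E x t → IsSub E x t

/-- `a` is an ordinal (a transitive set of transitive sets) -/
def IsOrdinal (a : M) : Prop := IsTrans E a ∧ ∀ x, E x a → IsTrans E x

/-- `w` is a nonzero limit ordinal -/
def IsLimitOrd (w : M) : Prop :=
  IsOrdinal E w ∧ (∃ x, E x w) ∧ ∀ x, E x w → ∃ y, E y w ∧ E x y

/-- `k` is an inaccessible cardinal: an ordinal greater than some nonzero limit ordinal, such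
that every function from some `m < k` to `k` is bounded in `k`, and such that `k` does not
inject into the power set of any `m < k`. -/
def IsInacc (k : M) : Prop :=
  IsOrdinal E k ∧ (∃ w, E w k ∧ IsLimitOrd E w) ∧
  (∀ m, E m k → ∀ f, IsFun E f m k → ∃ b, E b k ∧ ∀ x y, IsApp E f x y → E y b) ∧
  (∀ m, E m k → ∀ p, IsPower E p m → ¬ HasInj E k p)

/-- `z ∈ H(k)`: `z` is a subset of a transitive set `t` which is the image of some `m < k`. -/
def InH (k z : M) : Prop := ∃ t, IsTrans E t ∧ IsSub E z t ∧ ∃ m, E m k ∧ HasSurj E m t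

/-- `y = 0` -/
def IsZero (y : M) : Prop := ∀ z, ¬ E z y

/-- `y = 1 = {0}` -/
def IsOne (y : M) : Prop := ∀ z, E z y ↔ IsZero E z

/-- The formula `φ`, with the parameters `k` and `z 0, z 1, ...`, defines a partition
`c : [k]^2 → 2`: for all `a < b < k`, exactly one `y` satisfies `φ(a, b, y, k, z 0, z 1, ...)`,
and this `y` is `0` or `1`. -/
def DefinesPartition (φ : Fml) (k : M) (z : ℕ → M) : Prop :=
  ∀ a b, E a b → E b k → ∃ y, (IsZero E y ∨ IsOne E y) ∧
    ∀ y', Sat E φ (cons a (cons b (cons y' (cons k z)))) ↔ y' = y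

/-- `k` has the (boldface) `Σ_1`-colouring property: for all parameters in `H(k)`, each
partition `c : [k]^2 → 2` that is `Σ_1`-definable from `k` and these parameters has a
homogeneous set `h ⊆ k` of cardinality `k`. -/
def Sigma1Colouring (k : M) : Prop :=
  ∀ φ, Sigma1 φ → ∀ z : ℕ → M, (∀ n, InH E k (z n)) → DefinesPartition E φ k z →
    ∃ h, IsSub E h k ∧ HasInj E k h ∧
      ∃ i, ∀ a b, E a h → E b h → E a b → Sat E φ (cons a (cons b (cons i (cons k z))))

end Inside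

/-- `κ` is a weakly compact cardinal: uncountable with `κ → (κ)^2_2`. The colouring is a
function of two ordinals, only its values at `a < b < κ.ord` matter. -/
def WeaklyCompact (κ : Cardinal.{0}) : Prop :=
  Cardinal.aleph0 < κ ∧ ∀ c : Ordinal.{0} → Ordinal.{0} → Bool, ∃ H : Set Ordinal.{0},
    H ⊆ Set.Iio κ.ord ∧ Cardinal.mk H = Cardinal.lift.{1} κ ∧
      ∃ i, ∀ a ∈ H, ∀ b ∈ H, a < b → c a b = i

end Pool.Agent.Lib.Forcing
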