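import Pool.Agent.Lib.Forcing.Colouring
import Pool.Agent.Lib.Forcing.Countable

namespace Pool.Agent.Lib.Forcing

/-- The main theorem, with a countable model. -/
theorem countable_consistency (h : ∃ κ : Cardinal.{0}, WeaklyCompact κ) :
    ∃ (M : Type) (E : M → M → Prop), Countable M ∧ IsZFC M E ∧
      ∃ k, IsInacc E k ∧ (∀ m, E m k → ¬ IsInacc E m) ∧ Sigma1Colouring E k := by
  obtain ⟨M, E, hZ, k, h1, h2, h3⟩ := main_consistency h
  obtain ⟨N, F, k', j, hc, rfl, hj⟩ := exists_countable_elementary E k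
  have hj' : Elem F E j := hj
  exact ⟨N, F, hc, hj'.isZFC k' hZ, k', hj'.isInacc.2 h1, hj'.least h2, hj'.colouring h3⟩

end Pool.Agent.Lib.Forcing
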