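import Pool.Agent.Lib.Forcing.ZFC

/-!
# Formulas expressing the notions of `Defs`, and their satisfaction lemmas
-/

set_option linter.unusedSimpArgs false

namespace Pool.Agent.Lib.Forcing

universe u

/-! ## `Δ_0` formulas -/

def dSub (x y : ℕ) : Fml := fball x (.fmem 0 (y + 1))

def dUPair (z x y : ℕ) : Fml :=
  .fand (.fmem x z) (.fand (.fmem y z) (fball z (ffor (.feq 0 (x + 1)) (.feq 0 (y + 1)))))

def dOPair (z x y : ℕ) : Fml :=
  fbex z (fbex (z + 1) (.fand (dUPair 1 (x + 2) (x + 2)) (.fand (dUPair 0 (x + 2) (y + 2))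
    (dUPair (z + 2) 1 0))))

def dApp (f x y : ℕ) : Fml := fbex f (dOPair 0 (x + 1) (y + 1))

def dFun (f a b : ℕ) : Fml :=
  .fand (fball f (fbex (a + 1) (fbex (b + 2) (dOPair 2 1 0))))
    (fball a (fbex (b + 1) (.fand (dApp (f + 2) 1 0)
      (fball (b + 2) (fimp (dApp (f + 3) 2 0) (.feq 0 1))))))

def dTrans (t : ℕ) : Fml := fball t (dSub 0 (t + 1))

def dSurj (f m t : ℕ) : Fml := fball t (fbex (m + 1) (dApp (f + 2) 0 1))

theorem delta0_dSub (x y : ℕ) : Delta0 (dSub x y) := (Delta0.dmem _ _).ball _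

theorem delta0_dUPair (z x y : ℕ) : Delta0 (dUPair z x y) :=
  .dand _ _ (.dmem _ _) (.dand _ _ (.dmem _ _) (((Delta0.deq _ _).or (.deq _ _)).ball _))

theorem delta0_dOPair (z x y : ℕ) : Delta0 (dOPair z x y) :=
  ((Delta0.dand _ _ (delta0_dUPair _ _ _) (.dand _ _ (delta0_dUPair _ _ _)
    (delta0_dUPair _ _ _))).bex _).bex _

theorem delta0_dApp (f x y : ℕ) : Delta0 (dApp f x y) := (delta0_dOPair _ _ _).bex _

theorem delta0_dFun (f a b : ℕ) : Delta0 (dFun f a b) :=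
  .dand _ _ (((delta0_dOPair _ _ _).bex _ |>.bex _).ball _)
    (((Delta0.dand _ _ (delta0_dApp _ _ _)
      (((delta0_dApp _ _ _).imp (.deq _ _)).ball _)).bex _).ball _)

theorem delta0_dTrans (t : ℕ) : Delta0 (dTrans t) := (delta0_dSub _ _).ball _

theorem delta0_dSurj (f m t : ℕ) : Delta0 (dSurj f m t) :=
  ((delta0_dApp _ _ _).bex _).ball _

section Sat

variable {M : Type*} {E : M → M → Prop} {v : ℕ → M}

@[simp] theorem sat_dSub {x y : ℕ} : Sat E (dSub x y) v ↔ IsSub E (v x) (v y) := by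
  simp only [dSub, IsSub, sat_ball, sat_mem, cons_zero, cons_succ]

@[simp] theorem sat_dUPair {z x y : ℕ} :
    Sat E (dUPair z x y) v ↔ IsUPair E (v z) (v x) (v y) := by
  simp only [dUPair, IsUPair, sat_ball, sat_and, sat_mem, sat_or, sat_eq, cons_zero, cons_succ]
  constructor
  · rintro ⟨h1, h2, h3⟩ w
    constructor
    · exact h3 w
    · rintro (rfl | rfl)
      · exact h1
      · exact h2
  · intro h
    exact ⟨(h _).2 (Or.inl rfl), (h _).2 (Or.inr rfl), fun w hw => (h w).1 hw⟩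

@[simp] theorem sat_dOPair {z x y : ℕ} :
    Sat E (dOPair z x y) v ↔ IsOPair E (v z) (v x) (v y) := by
  simp only [dOPair, IsOPair, sat_bex, sat_and, sat_dUPair, cons_zero, cons_succ, cons_one]
  constructor
  · rintro ⟨a, _, b, _, h⟩
    exact ⟨a, b, h⟩
  · rintro ⟨a, b, h1, h2, h3⟩
    exact ⟨a, (h3 _).2 (Or.inl rfl), b, (h3 _).2 (Or.inr rfl), h1, h2, h3⟩

@[simp] theorem sat_dApp {f x y : ℕ} :
    Sat E (dApp f x y) v ↔ IsApp E (v f) (v x) (v y) := by
  simp only [dApp, IsApp, sat_bex, sat_dOPair, cons_zero, cons_succ]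

@[simp] theorem sat_dFun {f a b : ℕ} :
    Sat E (dFun f a b) v ↔ IsFun E (v f) (v a) (v b) := by
  simp only [dFun, IsFun, sat_bex, sat_ball, sat_and, sat_imp, sat_eq, sat_dOPair, sat_dApp,
    cons_zero, cons_succ, cons_one, cons_two]
  refine and_congr ?_ ?_
  · refine forall₂_congr fun z _ => ?_
    constructor
    · rintro ⟨x, hx, y, hy, h⟩; exact ⟨x, y, hx, hy, h⟩
    · rintro ⟨x, y, hx, hy, h⟩; exact ⟨x, hx, y, hy, h⟩
  · refine forall₂_congr fun x _ => ?_
    constructor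
    · rintro ⟨y, hy, h1, h2⟩
      exact ⟨y, ⟨hy, h1⟩, fun y' hy' => h2 y' hy'.1 hy'.2⟩
    · rintro ⟨y, ⟨hy, h1⟩, h2⟩
      exact ⟨y, hy, h1, fun y' hy' h3 => h2 y' ⟨hy', h3⟩⟩

@[simp] theorem sat_dTrans {t : ℕ} : Sat E (dTrans t) v ↔ IsTrans E (v t) := by
  simp only [dTrans, IsTrans, sat_ball, sat_dSub, cons_zero, cons_succ]

@[simp] theorem sat_dSurj {f m t : ℕ} :
    Sat E (dSurj f m t) v ↔ ∀ y, E y (v t) → ∃ x, E x (v m) ∧ IsApp E (v f) x y := by
  simp only [dSurj, sat_ball, sat_bex, sat_dApp, cons_zero, cons_succ, cons_one]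

/-! ## Other formulas -/

def fOrdinal (a : ℕ) : Fml := .fand (dTrans a) (fball a (dTrans 0))

@[simp] theorem sat_fOrdinal {a : ℕ} : Sat E (fOrdinal a) v ↔ IsOrdinal E (v a) := by
  simp only [fOrdinal, IsOrdinal, sat_and, sat_dTrans, sat_ball, cons_zero]

def fLimit (w : ℕ) : Fml :=
  .fand (fOrdinal w) (.fand (fex (.fmem 0 (w + 1))) (fball w (fbex (w + 1) (.fmem 1 0))))

@[simp] theorem sat_fLimit {w : ℕ} : Sat E (fLimit w) v ↔ IsLimitOrd E (v w) := by
  simp only [fLimit, IsLimitOrd, sat_and, sat_fOrdinal, sat_ball, sat_bex, sat_ex, sat_mem,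
    cons_zero, cons_succ, cons_one]

def fPower (p m : ℕ) : Fml := .fall (fiff (.fmem 0 (p + 1)) (dSub 0 (m + 1)))

@[simp] theorem sat_fPower {p m : ℕ} : Sat E (fPower p m) v ↔ IsPower E (v p) (v m) := by
  simp only [fPower, IsPower, sat_all, sat_iff, sat_mem, sat_dSub, cons_zero, cons_succ]

/-- `f` is injective -/
def fInjRel (f : ℕ) : Fml :=
  .fall (.fall (.fall (fimp (dApp (f + 3) 2 0) (fimp (dApp (f + 3) 1 0) (.feq 2 1)))))

@[simp] theorem sat_fInjRel {f : ℕ} : Sat E (fInjRel f) v ↔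
    ∀ x x' y, IsApp E (v f) x y → IsApp E (v f) x' y → x = x' := by
  simp only [fInjRel, sat_all, sat_imp, sat_dApp, sat_eq, cons_zero, cons_succ, cons_one,
    cons_two]

def fInj (a b : ℕ) : Fml := fex (.fand (dFun 0 (a + 1) (b + 1)) (fInjRel 0))

@[simp] theorem sat_fInj {a b : ℕ} : Sat E (fInj a b) v ↔ HasInj E (v a) (v b) := by
  simp only [fInj, HasInj, sat_ex, sat_and, sat_dFun, sat_fInjRel, cons_zero, cons_succ]

def fReg (k : ℕ) : Fml :=
  fball k (.fall (fimp (dFun 0 1 (k + 2)) (fex (.fand (.fmem 0 (k + 3))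
    (.fall (.fall (fimp (dApp 3 1 0) (.fmem 0 2))))))))

@[simp] theorem sat_fReg {k : ℕ} : Sat E (fReg k) v ↔
    ∀ m, E m (v k) → ∀ f, IsFun E f m (v k) →
      ∃ b, E b (v k) ∧ ∀ x y, IsApp E f x y → E y b := by
  simp only [fReg, sat_ball, sat_all, sat_imp, sat_dFun, sat_ex, sat_and, sat_mem, sat_dApp,
    cons_zero, cons_succ, cons_one, cons_two, cons_three]

def fStrong (k : ℕ) : Fml :=
  fball k (.fall (fimp (fPower 0 1) (.fneg (fInj (k + 2) 0))))

@[simp] theorem sat_fStrong {k : ℕ} : Sat E (fStrong k) v ↔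
    ∀ m, E m (v k) → ∀ p, IsPower E p m → ¬ HasInj E (v k) p := by
  simp only [fStrong, sat_ball, sat_all, sat_imp, sat_neg, sat_fPower, sat_fInj,
    cons_zero, cons_succ, cons_one]

def fInacc (k : ℕ) : Fml :=
  .fand (fOrdinal k) (.fand (fbex k (fLimit 0)) (.fand (fReg k) (fStrong k)))

@[simp] theorem sat_fInacc {k : ℕ} : Sat E (fInacc k) v ↔ IsInacc E (v k) := by
  simp only [fInacc, IsInacc, sat_and, sat_fOrdinal, sat_bex, sat_fLimit, sat_fReg, sat_fStrong,
    cons_zero]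

def fZero (y : ℕ) : Fml := .fall (.fneg (.fmem 0 (y + 1)))

@[simp] theorem sat_fZero {y : ℕ} : Sat E (fZero y) v ↔ IsZero E (v y) := by
  simp only [fZero, IsZero, sat_all, sat_neg, sat_mem, cons_zero, cons_succ]

def fOne (y : ℕ) : Fml := .fall (fiff (.fmem 0 (y + 1)) (fZero 0))

@[simp] theorem sat_fOne {y : ℕ} : Sat E (fOne y) v ↔ IsOne E (v y) := by
  simp only [fOne, IsOne, sat_all, sat_iff, sat_mem, sat_fZero, cons_zero, cons_succ]

/-! ## `H(k)`, partitions and homogeneous sets -/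

def fSurj (a b : ℕ) : Fml :=
  fex (.fand (dFun 0 (a + 1) (b + 1)) (fball (b + 1) (fex (dApp 2 0 1))))

@[simp] theorem sat_fSurj {a b : ℕ} : Sat E (fSurj a b) v ↔ HasSurj E (v a) (v b) := by
  simp only [fSurj, HasSurj, sat_ex, sat_and, sat_dFun, sat_ball, sat_dApp, cons_zero, cons_succ,
    cons_one, cons_two]

def fInH (k z : ℕ) : Fml :=
  fex (.fand (dTrans 0) (.fand (dSub (z + 1) 0) (fex (.fand (.fmem 0 (k + 2)) (fSurj 0 1)))))

@[simp] theorem sat_fInH {k z : ℕ} : Sat E (fInH k z) v ↔ InH E (v k) (v z) := by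
  simp only [fInH, InH, sat_ex, sat_and, sat_dTrans, sat_dSub, sat_mem, sat_fSurj, cons_zero,
    cons_succ, cons_one, cons_two]

def renPart : ℕ → ℕ
  | 0 => 3
  | 1 => 2
  | 2 => 0
  | n + 3 => n + 4

def fPart (φ : Fml) : Fml :=
  .fall (.fall (fimp (.fmem 1 0) (fimp (.fmem 0 2) (fex (.fand (ffor (fZero 0) (fOne 0))
    (.fall (fiff (φ.ren renPart) (.feq 0 1))))))))

theorem sat_fPart {φ : Fml} {k : M} {z : ℕ → M} :
    Sat E (fPart φ) (cons k z) ↔ DefinesPartition E φ k z := by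
  simp only [fPart, DefinesPartition, sat_all, sat_imp, sat_mem, sat_ex, sat_and, sat_or,
    sat_fZero, sat_fOne, sat_iff, sat_eq, sat_ren, cons_zero, cons_one, cons_two]
  refine forall₂_congr fun a b => imp_congr Iff.rfl (imp_congr Iff.rfl (exists_congr fun y =>
    and_congr Iff.rfl (forall_congr' fun y' => ?_)))
  have : (fun i => cons y' (cons y (cons b (cons a (cons k z)))) (renPart i)) =
      cons a (cons b (cons y' (cons k z))) := by
    funext i
    match i with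
    | 0 => rfl
    | 1 => rfl
    | 2 => rfl
    | 3 => rfl
    | n + 4 => rfl
  rw [this]

def renConc : ℕ → ℕ
  | 0 => 1
  | 1 => 0
  | 2 => 2
  | n + 3 => n + 4

def fConc (φ : Fml) : Fml :=
  fex (.fand (dSub 0 1) (.fand (fInj 1 0) (fex (.fall (.fall (fimp (.fmem 1 3)
    (fimp (.fmem 0 3) (fimp (.fmem 1 0) (φ.ren renConc)))))))))

theorem sat_fConc {φ : Fml} {k : M} {z : ℕ → M} :
    Sat E (fConc φ) (cons k z) ↔ ∃ h, IsSub E h k ∧ HasInj E k h ∧
      ∃ i, ∀ a b, E a h → E b h → E a b → Sat E φ (cons a (cons b (cons i (cons k z)))) := by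
  simp only [fConc, sat_all, sat_imp, sat_mem, sat_ex, sat_and, sat_dSub, sat_fInj, sat_ren,
    cons_zero, cons_one, cons_two, cons_three]
  refine exists_congr fun h => and_congr Iff.rfl (and_congr Iff.rfl (exists_congr fun i =>
    forall₂_congr fun a b => ?_))
  have : (fun j => cons b (cons a (cons i (cons h (cons k z)))) (renConc j)) =
      cons a (cons b (cons i (cons k z))) := by
    funext j
    match j with
    | 0 => rfl
    | 1 => rfl
    | 2 => rfl
    | 3 => rfl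
    | n + 4 => rfl
  rw [this]

end Sat

end Pool.Agent.Lib.Forcing
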