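import Pool.Agent.Lib.Forcing.OrdNames

/-!
# Regular, strong limit and (non-)inaccessible ordinals in the models, from combinatorial
properties of the forcing notion
-/

set_option linter.unusedSimpArgs false
set_option linter.unusedSectionVars false

namespace Pool.Agent.Lib.Forcing

theorem IsFun.app_mem {M : Type*} {E : M → M → Prop} (H : IsZFC M E) {f a b x y : M}
    (h : IsFun E f a b) (h1 : IsApp E f x y) : E x a ∧ E y b := by
  obtain ⟨z, hz, h2⟩ := h1
  obtain ⟨x', y', hx, hy, h3⟩ := h.1 z hz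
  obtain ⟨rfl, rfl⟩ := h2.inj H h3
  exact ⟨hx, hy⟩

theorem IsFun.app_unique {M : Type*} {E : M → M → Prop} (H : IsZFC M E) {f a b x y y' : M}
    (h : IsFun E f a b) (h1 : IsApp E f x y) (h2 : IsApp E f x y') : y = y' := by
  have h3 := h.app_mem H h1
  have h4 := h.app_mem H h2
  exact (h.2 x h3.1).unique ⟨h3.2, h1⟩ ⟨h4.2, h2⟩

theorem IsFun.exists_app {M : Type*} {E : M → M → Prop} {f a b x : M}
    (h : IsFun E f a b) (hx : E x a) : ∃ y, E y b ∧ IsApp E f x y := (h.2 x hx).exists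

variable {P : Type 1} [Preorder P]

theorem GenUlt.Has.forces {U : GenUlt P} {p : P} (h : U.Has p) {φ : Fml} {v : ℕ → Name P}
    (h1 : Forces φ v p) : Sat (ModE U) φ (fun i => U.cl (v i)) :=
  forces_iff.1 h1 U h

theorem ev_memF_chk' {U : GenUlt P} {ρ : Name P} {o : Ordinal.{0}}
    (h : ModE U (U.cl ρ) (U.cl (chk o))) : U.Ev (fun p => ∃ x, x < o ∧ EqF ρ (chk x) p) :=
  ev_memF_chk.1 h

/-- name of a function given by a family of conditions -/
noncomputable def famN (lam del : Ordinal.{0}) (F : Ordinal.{0} → Ordinal.{0} → P → Prop) :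
    Name P :=
  relN (ι := Set.Iio lam × Set.Iio del) (fun i => chk i.1.1) (fun i => chk i.2.1)
    (fun i p => F i.1.1 i.2.1 p)

section Fam

variable {lam del : Ordinal.{0}} {F : Ordinal.{0} → Ordinal.{0} → P → Prop}

theorem isApp_famN (U : GenUlt P) (hopen : ∀ ξ η p q, F ξ η p → q ≤ p → F ξ η q)
    (σ τ : Name P) : IsApp (ModE U) (U.cl (famN lam del F)) (U.cl σ) (U.cl τ) ↔
      U.Ev (fun p => ∃ ξ η, ξ < lam ∧ η < del ∧ F ξ η p ∧ EqF σ (chk ξ) p ∧ EqF τ (chk η) p) := by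
  unfold famN
  rw [isApp_relN U _ _ (A := fun (i : Set.Iio lam × Set.Iio del) p => F i.1.1 i.2.1 p)
    (fun i p q h hq => hopen _ _ _ _ h hq)]
  constructor
  · intro h
    refine h.imp ?_
    rintro p ⟨i, h1, h2, h3⟩
    exact ⟨i.1.1, i.2.1, i.1.2, i.2.2, h1, h2, h3⟩
  · intro h
    refine h.imp ?_
    rintro p ⟨ξ, η, hξ, hη, h1, h2, h3⟩
    exact ⟨⟨⟨ξ, hξ⟩, ⟨η, hη⟩⟩, h1, h2, h3⟩

theorem isFun_famN (U : GenUlt P)
    (hopen : ∀ ξ η p q, F ξ η p → q ≤ p → F ξ η q)
    (hfun : ∀ ξ η η' p, F ξ η p → F ξ η' p → η = η')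
    (htot : U.Ev (fun r => ∀ ξ < lam, ∀ p, p ≤ r → ∃ q, q ≤ p ∧ ∃ η < del, F ξ η q)) :
    IsFun (ModE U) (U.cl (famN lam del F)) (U.cl (chk lam)) (U.cl (chk del)) := by
  constructor
  · intro z hz
    obtain ⟨ζ, rfl⟩ := exists_cl z
    rw [modE_cl, famN, relN, ev_memF_cn
      (A := fun (i : Set.Iio lam × Set.Iio del) p => F i.1.1 i.2.1 p)
      (fun i p q h hq => hopen _ _ _ _ h hq)] at hz
    have h1 : Sat (ModE U) (fbex 1 (fbex 3 (dOPair 2 1 0)))
        (fun i => U.cl (cons ζ (cons (chk lam) (fun _ => chk del)) i)) := by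
      rw [los]
      refine hz.imp ?_
      rintro p ⟨i, h1, h2⟩
      rw [forces_iff]
      intro V hV
      simp only [sat_bex, sat_dOPair, cons_zero, cons_one, cons_two, cons_three]
      refine ⟨V.cl (chk i.1.1), (mod_chk_mem V).2 i.1.2, V.cl (chk i.2.1),
        (mod_chk_mem V).2 i.2.2, ?_⟩
      rw [isOPair_iff]
      exact eqF_iff_models.1 h2 V hV
    simp only [sat_bex, sat_dOPair, cons_zero, cons_one, cons_two, cons_three] at h1
    obtain ⟨x, hx, y, hy, h1⟩ := h1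
    exact ⟨x, y, hx, hy, h1⟩
  · intro x hx
    obtain ⟨ρ, rfl⟩ := exists_cl x
    apply existsUnique_of_exists_of_unique
    · have h1 : Sat (ModE U) (fbex 1 (dApp 3 1 0))
          (fun i => U.cl (cons ρ (cons (chk del) (fun _ => famN lam del F)) i)) := by
        rw [los]
        refine (ev_memF_chk' hx).imp2 htot ?_
        rintro p ⟨ξ, hξ, h1⟩ hp
        apply Forces.dense
        intro q hq
        obtain ⟨q', hq', η, hη, h2⟩ := hp ξ hξ q hq
        refine ⟨q', hq', ?_⟩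
        rw [forces_iff]
        intro V hV
        simp only [sat_bex, sat_dApp, cons_zero, cons_one, cons_two, cons_three]
        refine ⟨V.cl (chk η), (mod_chk_mem V).2 hη, ?_⟩
        rw [isApp_famN V hopen]
        refine GenUlt.Ev.imp hV fun s hs => ⟨ξ, η, hξ, hη, hopen _ _ _ _ h2 hs,
          h1.mono (hs.trans (hq'.trans hq)), EqF.refl _ _⟩
      simp only [sat_bex, sat_dApp, cons_zero, cons_one, cons_two, cons_three] at h1
      exact h1
    · rintro y y' ⟨_, h1⟩ ⟨_, h2⟩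
      obtain ⟨υ, rfl⟩ := exists_cl y
      obtain ⟨υ', rfl⟩ := exists_cl y'
      rw [isApp_famN U hopen] at h1 h2
      rw [cl_eq]
      refine h1.imp2 h2 ?_
      rintro p ⟨ξ, η, _, _, h3, h4, h5⟩ ⟨ξ', η', _, _, h6, h7, h8⟩
      have e : ξ = ξ' := chk_inj (h4.symm.trans h7)
      subst e
      have e : η = η' := hfun _ _ _ _ h3 h6
      subst e
      exact h5.trans h8.symm

/-- singularity from a family of conditions -/
theorem not_inacc_of_fun (U : GenUlt P) (hlt : lam < del)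
    (hopen : ∀ ξ η p q, F ξ η p → q ≤ p → F ξ η q)
    (hfun : ∀ ξ η η' p, F ξ η p → F ξ η' p → η = η')
    (htot : U.Ev (fun r => ∀ ξ < lam, ∀ p, p ≤ r → ∃ q, q ≤ p ∧ ∃ η < del, F ξ η q))
    (hunb : U.Ev (fun r => ∀ β < del, ∀ p, p ≤ r →
      ∃ q, q ≤ p ∧ ∃ ξ < lam, ∃ η < del, β ≤ η ∧ F ξ η q)) :
    ¬ IsInacc (ModE U) (U.cl (chk del)) := by
  rintro ⟨-, -, hreg, -⟩
  obtain ⟨b, hb, h⟩ := hreg _ ((mod_chk_mem U).2 hlt) _ (isFun_famN U hopen hfun htot)
  obtain ⟨β', rfl⟩ := exists_cl b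
  have h1 := (los U (.fall (.fall (fimp (dApp 2 1 0) (.fmem 0 3))))
    (cons (famN lam del F) (fun _ => β'))).1 (by
      simp only [sat_all, sat_imp, sat_dApp, sat_mem, cons_zero, cons_one, cons_two, cons_three]
      exact h)
  obtain ⟨p, ⟨⟨β, hβ, h2⟩, h3⟩, h4⟩ := (((ev_memF_chk' hb).and h1).and hunb).exists
  obtain ⟨q, hq, ξ, hξ, η, hη, hle, h5⟩ := h4 β hβ p le_rfl
  have h6 := forces_imp.1 (h3 (chk ξ) (chk η)) q hq (by
    rw [forces_dApp]
    simp only [cons_zero, cons_one, cons_two]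
    rw [memF_iff_models]
    intro V hV
    rw [modE_cl, ← isApp_iff, isApp_famN V hopen]
    exact GenUlt.Ev.imp hV fun s hs => ⟨ξ, η, hξ, hη, hopen _ _ _ _ h5 hs, EqF.refl _ _,
      EqF.refl _ _⟩)
  have h7 : MemF (chk η) (chk β) q := MemF.congr_right (h2.mono hq) h6
  exact absurd (chk_mem_iff.1 h7) (not_lt.2 hle)

end Fam

/-- name of a set of ordinals below `μ` -/
noncomputable def setN (μ : Ordinal.{0}) (S : Set Ordinal.{0}) : Name P :=
  cn (ι := Set.Iio μ) (fun x => chk x.1) (fun x _ => x.1 ∈ S)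

theorem ev_memF_setN {U : GenUlt P} {ρ : Name P} {μ : Ordinal.{0}} {S : Set Ordinal.{0}} :
    U.Ev (MemF ρ (setN μ S)) ↔ U.Ev (fun p => ∃ x, x < μ ∧ x ∈ S ∧ EqF ρ (chk x) p) := by
  rw [setN, ev_memF_cn (fun _ _ _ h _ => h)]
  constructor
  · intro h
    refine h.imp ?_
    rintro p ⟨x, h1, h⟩
    exact ⟨x.1, x.2, h1, h⟩
  · intro h
    refine h.imp ?_
    rintro p ⟨x, hx, h1, h⟩
    exact ⟨⟨x, hx⟩, h1, h⟩

theorem mod_chk_mem_setN (U : GenUlt P) {x μ : Ordinal.{0}} {S : Set Ordinal.{0}} :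
    ModE U (U.cl (chk x)) (U.cl (setN μ S)) ↔ x < μ ∧ x ∈ S := by
  rw [modE_cl, ev_memF_setN]
  constructor
  · intro h
    obtain ⟨p, y, hy, h1, h2⟩ := h.exists
    rw [chk_inj h2]
    exact ⟨hy, h1⟩
  · rintro ⟨h1, h2⟩
    exact GenUlt.ev_true fun p => ⟨x, h1, h2, EqF.refl _ _⟩

theorem mod_setN_sub (U : GenUlt P) {μ : Ordinal.{0}} {S : Set Ordinal.{0}} :
    IsSub (ModE U) (U.cl (setN μ S)) (U.cl (chk μ)) := by
  intro z hz
  obtain ⟨ζ, rfl⟩ := exists_cl z
  rw [modE_cl, ev_memF_setN] at hz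
  rw [modE_cl, ev_memF_chk]
  refine hz.imp ?_
  rintro p ⟨x, hx, _, h⟩
  exact ⟨x, hx, h⟩

/-- function name `ξ ↦ N ξ` with domain `lam` -/
noncomputable def fnN (lam : Ordinal.{0}) (N : Ordinal.{0} → Name P) : Name P :=
  relN (ι := Set.Iio lam) (fun i => chk i.1) (fun i => N i.1) (fun _ _ => True)

theorem isApp_fnN (U : GenUlt P) {lam : Ordinal.{0}} {N : Ordinal.{0} → Name P}
    (σ τ : Name P) : IsApp (ModE U) (U.cl (fnN lam N)) (U.cl σ) (U.cl τ) ↔
      U.Ev (fun p => ∃ ξ, ξ < lam ∧ EqF σ (chk ξ) p ∧ EqF τ (N ξ) p) := by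
  unfold fnN
  rw [isApp_relN U _ _ (fun i p q h hq => h)]
  constructor
  · intro h
    refine h.imp ?_
    rintro p ⟨i, -, h2, h3⟩
    exact ⟨i.1, i.2, h2, h3⟩
  · intro h
    refine h.imp ?_
    rintro p ⟨ξ, hξ, h2, h3⟩
    exact ⟨⟨ξ, hξ⟩, trivial, h2, h3⟩

theorem isFun_fnN (U : GenUlt P) {lam : Ordinal.{0}} {N : Ordinal.{0} → Name P} {B : Name P}
    (h : ∀ ξ < lam, ∀ p, MemF (N ξ) B p) :
    IsFun (ModE U) (U.cl (fnN lam N)) (U.cl (chk lam)) (U.cl B) := by
  constructor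
  · intro z hz
    obtain ⟨ζ, rfl⟩ := exists_cl z
    rw [modE_cl, fnN, relN, ev_memF_cn (fun i p q h hq => h)] at hz
    have h1 : Sat (ModE U) (fbex 1 (fbex 3 (dOPair 2 1 0)))
        (fun i => U.cl (cons ζ (cons (chk lam) (fun _ => B)) i)) := by
      rw [los]
      refine hz.imp ?_
      rintro p ⟨i, -, h2⟩
      rw [forces_iff]
      intro V hV
      simp only [sat_bex, sat_dOPair, cons_zero, cons_one, cons_two, cons_three]
      refine ⟨V.cl (chk i.1), (mod_chk_mem V).2 i.2, V.cl (N i.1),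
        memF_iff_models.1 (h i.1 i.2 p) V hV, ?_⟩
      rw [isOPair_iff]
      exact eqF_iff_models.1 h2 V hV
    simp only [sat_bex, sat_dOPair, cons_zero, cons_one, cons_two, cons_three] at h1
    obtain ⟨x, hx, y, hy, h1⟩ := h1
    exact ⟨x, y, hx, hy, h1⟩
  · intro x hx
    obtain ⟨ρ, rfl⟩ := exists_cl x
    apply existsUnique_of_exists_of_unique
    · have h1 : Sat (ModE U) (fbex 1 (dApp 3 1 0))
          (fun i => U.cl (cons ρ (cons B (fun _ => fnN lam N)) i)) := by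
        rw [los]
        refine (ev_memF_chk' hx).imp ?_
        rintro p ⟨ξ, hξ, h1⟩
        rw [forces_iff]
        intro V hV
        simp only [sat_bex, sat_dApp, cons_zero, cons_one, cons_two, cons_three]
        refine ⟨V.cl (N ξ), memF_iff_models.1 (h ξ hξ p) V hV, ?_⟩
        rw [isApp_fnN]
        exact GenUlt.Ev.imp hV fun s hs => ⟨ξ, hξ, h1.mono hs, EqF.refl _ _⟩
      simp only [sat_bex, sat_dApp, cons_zero, cons_one, cons_two, cons_three] at h1
      exact h1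
    · rintro y y' ⟨_, h1⟩ ⟨_, h2⟩
      obtain ⟨υ, rfl⟩ := exists_cl y
      obtain ⟨υ', rfl⟩ := exists_cl y'
      rw [isApp_fnN U] at h1 h2
      rw [cl_eq]
      refine h1.imp2 h2 ?_
      rintro p ⟨ξ, _, h4, h5⟩ ⟨ξ', _, h7, h8⟩
      have e : ξ = ξ' := chk_inj (h4.symm.trans h7)
      subst e
      exact h5.trans h8.symm

/-- not strong limit from an injection in the ground model -/
theorem not_inacc_of_inj (U : GenUlt P) {μ del : Ordinal.{0}} (hlt : μ < del)
    (S : Ordinal.{0} → Set Ordinal.{0})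
    (hinj : ∀ ξ < del, ∀ ξ' < del, (∀ η < μ, η ∈ S ξ ↔ η ∈ S ξ') → ξ = ξ') :
    ¬ IsInacc (ModE U) (U.cl (chk del)) := by
  rintro ⟨-, -, -, hstr⟩
  obtain ⟨p, hp⟩ := (mod_isZFC U).powerset (U.cl (chk μ))
  have hp' : IsPower (ModE U) p (U.cl (chk μ)) := hp
  obtain ⟨π, rfl⟩ := exists_cl p
  apply hstr _ ((mod_chk_mem U).2 hlt) _ hp'
  -- localise: a condition forcing that π is the power set
  have h0 := (los U (fPower 0 1) (cons π (fun _ => chk μ))).1 (by
    rw [sat_fPower]; exact hp')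
  have h1 : Sat (ModE U) (fInj 0 1) (fun i => U.cl (cons (chk del) (fun _ => π) i)) := by
    rw [los]
    refine h0.imp ?_
    intro p hp
    rw [forces_iff]
    intro V hV
    have hpow : IsPower (ModE V) (V.cl π) (V.cl (chk μ)) := by
      have := hV.forces hp
      rw [sat_fPower] at this
      exact this
    rw [sat_fInj]
    simp only [cons_zero, cons_one]
    refine ⟨V.cl (fnN del (fun ξ => setN μ (S ξ))), ?_, ?_⟩
    · constructor
      · intro z hz
        obtain ⟨ζ, rfl⟩ := exists_cl z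
        rw [modE_cl, fnN, relN, ev_memF_cn (fun i p q h hq => h)] at hz
        have h1 : Sat (ModE V) (fbex 1 (fex (.fand (dSub 0 4) (dOPair 2 1 0))))
            (fun i => V.cl (cons ζ (cons (chk del) (fun _ => chk μ)) i)) := by
          rw [los]
          refine hz.imp ?_
          rintro p ⟨i, -, h2⟩
          rw [forces_iff]
          intro W hW
          simp only [sat_bex, sat_ex, sat_and, sat_dSub, sat_dOPair, cons_zero, cons_one,
            cons_two, cons_three, cons_four]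
          refine ⟨W.cl (chk i.1), (mod_chk_mem W).2 i.2, W.cl (setN μ (S i.1)),
            mod_setN_sub W, ?_⟩
          rw [isOPair_iff]
          exact eqF_iff_models.1 h2 W hW
        simp only [sat_bex, sat_ex, sat_and, sat_dSub, sat_dOPair, cons_zero, cons_one,
            cons_two, cons_three, cons_four] at h1
        obtain ⟨x, hx, y, hy, h1⟩ := h1
        exact ⟨x, y, hx, (hpow y).2 hy, h1⟩
      · intro x hx
        obtain ⟨ρ, rfl⟩ := exists_cl x
        apply existsUnique_of_exists_of_unique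
        · have h1 : Sat (ModE V) (fex (.fand (dSub 0 2) (dApp 3 1 0)))
              (fun i => V.cl (cons ρ (cons (chk μ)
                (fun _ => fnN del (fun ξ => setN μ (S ξ)))) i)) := by
            rw [los]
            refine (ev_memF_chk' hx).imp ?_
            rintro p ⟨ξ, hξ, h1⟩
            rw [forces_iff]
            intro W hW
            simp only [sat_ex, sat_and, sat_dSub, sat_dApp, cons_zero, cons_one, cons_two,
              cons_three]
            refine ⟨W.cl (setN μ (S ξ)), mod_setN_sub W, ?_⟩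
            rw [isApp_fnN]
            exact GenUlt.Ev.imp hW fun s hs => ⟨ξ, hξ, h1.mono hs, EqF.refl _ _⟩
          simp only [sat_ex, sat_and, sat_dSub, sat_dApp, cons_zero, cons_one, cons_two,
              cons_three] at h1
          obtain ⟨y, hy, h1⟩ := h1
          exact ⟨y, (hpow y).2 hy, h1⟩
        · rintro y y' ⟨_, h1⟩ ⟨_, h2⟩
          obtain ⟨υ, rfl⟩ := exists_cl y
          obtain ⟨υ', rfl⟩ := exists_cl y'
          rw [isApp_fnN V] at h1 h2
          rw [cl_eq]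
          refine h1.imp2 h2 ?_
          rintro p ⟨ξ, _, h4, h5⟩ ⟨ξ', _, h7, h8⟩
          have e : ξ = ξ' := chk_inj (h4.symm.trans h7)
          subst e
          exact h5.trans h8.symm
    · intro x x' y h1 h2
      obtain ⟨σ, rfl⟩ := exists_cl x
      obtain ⟨σ', rfl⟩ := exists_cl x'
      obtain ⟨υ, rfl⟩ := exists_cl y
      rw [isApp_fnN] at h1 h2
      rw [cl_eq]
      refine h1.imp2 h2 ?_
      rintro p ⟨ξ, hξ, h3, h4⟩ ⟨ξ', hξ', h5, h6⟩
      have e : ξ = ξ' := by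
        apply hinj ξ hξ ξ' hξ'
        intro η hη
        obtain ⟨W, hW⟩ := exists_genUlt p
        have e1 := eqF_iff_models.1 (h4.symm.trans h6) W hW
        have e2 := mod_chk_mem_setN W (x := η) (μ := μ) (S := S ξ)
        rw [e1, mod_chk_mem_setN W] at e2
        simp only [hη, true_and] at e2
        exact e2.symm
      subst e
      exact h3.trans h5.symm
  rw [sat_fInj] at h1
  exact h1

/-- A ground model notion implying non-inaccessibility in all extensions. -/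
def NI (δ : Ordinal.{0}) : Prop :=
  δ ≤ Ordinal.omega0 ∨
  (∃ μ < δ, ∃ f : Ordinal.{0} → Ordinal.{0}, (∀ ξ < μ, f ξ < δ) ∧ ∀ β < δ, ∃ ξ < μ, β ≤ f ξ) ∨
  (∃ μ < δ, ∃ S : Ordinal.{0} → Set Ordinal.{0},
    ∀ ξ < δ, ∀ ξ' < δ, (∀ η < μ, η ∈ S ξ ↔ η ∈ S ξ') → ξ = ξ')

theorem NI.not_inacc (U : GenUlt P) {δ : Ordinal.{0}} (h : NI δ) :
    ¬ IsInacc (ModE U) (U.cl (chk δ)) := by
  rcases h with h | ⟨μ, hμ, f, hf, hunb⟩ | ⟨μ, hμ, S, hS⟩
  · exact mod_not_inacc_of_le_omega U h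
  · refine not_inacc_of_fun U hμ (F := fun ξ η _ => f ξ = η) ?_ ?_ ?_ ?_
    · intro ξ η p q h _; exact h
    · intro ξ η η' p h h'; exact h.symm.trans h'
    · refine GenUlt.ev_true fun r ξ hξ p _ => ?_
      exact ⟨p, le_rfl, f ξ, hf ξ hξ, rfl⟩
    · refine GenUlt.ev_true fun r β hβ p _ => ?_
      obtain ⟨ξ, hξ, h1⟩ := hunb β hβ
      exact ⟨p, le_rfl, ξ, hξ, f ξ, hf ξ hξ, h1, rfl⟩
  · exact not_inacc_of_inj U hμ S hS

end Pool.Agent.Lib.Forcing
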