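import Pool.Agent.Lib.Forcing.Syntax

/-!
# Names and the forcing relation
-/

namespace Pool.Agent.Lib.Forcing

universe u

/-- `P`-names: a family of pairs (name, condition). -/
inductive Name (P : Type u) : Type (u + 1)
  | mk (ι : Type u) (nm : ι → Name P) (cd : ι → P) : Name P

namespace Name

variable {P : Type u}

def idx : Name P → Type u
  | mk ι _ _ => ι

def nm : (τ : Name P) → τ.idx → Name P
  | mk _ nm _ => nm

def cd : (τ : Name P) → τ.idx → P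
  | mk _ _ cd => cd

theorem eta (τ : Name P) : τ = mk τ.idx τ.nm τ.cd := by cases τ; rfl

end Name

variable {P : Type u} [Preorder P]

/-- `EqF σ τ p`: the condition `p` forces `σ = τ`. -/
def EqF : Name P → Name P → P → Prop
  | .mk _ σ c, .mk _ τ d, p =>
    (∀ i, ∀ r, r ≤ p → r ≤ c i → ∃ s, s ≤ r ∧ ∃ j, s ≤ d j ∧ EqF (σ i) (τ j) s) ∧
    (∀ j, ∀ r, r ≤ p → r ≤ d j → ∃ s, s ≤ r ∧ ∃ i, s ≤ c i ∧ EqF (σ i) (τ j) s)

/-- `MemF σ τ p`: the condition `p` forces `σ ∈ τ`. -/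
def MemF (σ τ : Name P) (p : P) : Prop :=
  ∀ r, r ≤ p → ∃ s, s ≤ r ∧ ∃ j, s ≤ τ.cd j ∧ EqF σ (τ.nm j) s

theorem eqF_iff (σ τ : Name P) (p : P) : EqF σ τ p ↔
    (∀ i, ∀ r, r ≤ p → r ≤ σ.cd i → ∃ s, s ≤ r ∧ ∃ j, s ≤ τ.cd j ∧ EqF (σ.nm i) (τ.nm j) s) ∧
    (∀ j, ∀ r, r ≤ p → r ≤ τ.cd j → ∃ s, s ≤ r ∧ ∃ i, s ≤ σ.cd i ∧ EqF (σ.nm i) (τ.nm j) s) := by
  cases σ; cases τ; rw [EqF]; rfl

theorem EqF.mono {σ τ : Name P} {p q : P} (h : EqF σ τ p) (hq : q ≤ p) : EqF σ τ q := by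
  rw [eqF_iff] at h ⊢
  exact ⟨fun i r hr hc => h.1 i r (hr.trans hq) hc, fun j r hr hc => h.2 j r (hr.trans hq) hc⟩

theorem MemF.mono {σ τ : Name P} {p q : P} (h : MemF σ τ p) (hq : q ≤ p) : MemF σ τ q :=
  fun r hr => h r (hr.trans hq)

theorem EqF.dense {σ τ : Name P} {p : P} (h : ∀ q, q ≤ p → ∃ r, r ≤ q ∧ EqF σ τ r) :
    EqF σ τ p := by
  rw [eqF_iff]
  constructor
  · intro i r hr hc
    obtain ⟨r', h1, h2⟩ := h r hr
    rw [eqF_iff] at h2
    obtain ⟨s, hs, j, h3⟩ := h2.1 i r' le_rfl (h1.trans hc)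
    exact ⟨s, hs.trans h1, j, h3⟩
  · intro i r hr hc
    obtain ⟨r', h1, h2⟩ := h r hr
    rw [eqF_iff] at h2
    obtain ⟨s, hs, j, h3⟩ := h2.2 i r' le_rfl (h1.trans hc)
    exact ⟨s, hs.trans h1, j, h3⟩

theorem MemF.dense {σ τ : Name P} {p : P} (h : ∀ q, q ≤ p → ∃ r, r ≤ q ∧ MemF σ τ r) :
    MemF σ τ p := by
  intro r hr
  obtain ⟨q, h1, h2⟩ := h r hr
  obtain ⟨s, hs, j, h3⟩ := h2 q le_rfl
  exact ⟨s, hs.trans h1, j, h3⟩

theorem EqF.refl (σ : Name P) : ∀ p, EqF σ σ p := by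
  induction σ with
  | mk ι nm cd ih =>
    intro p
    rw [eqF_iff]
    exact ⟨fun i r _ hc => ⟨r, le_rfl, i, hc, ih i r⟩, fun i r _ hc => ⟨r, le_rfl, i, hc, ih i r⟩⟩

theorem EqF.symm {σ τ : Name P} : ∀ {p : P}, EqF σ τ p → EqF τ σ p := by
  induction σ generalizing τ with
  | mk ι nm cd ih =>
    intro p h
    rw [eqF_iff] at h ⊢
    constructor
    · intro j r hr hc
      obtain ⟨s, hs, i, h1, h2⟩ := h.2 j r hr hc
      exact ⟨s, hs, i, h1, ih i h2⟩
    · intro i r hr hc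
      obtain ⟨s, hs, j, h1, h2⟩ := h.1 i r hr hc
      exact ⟨s, hs, j, h1, ih i h2⟩

theorem EqF.trans {σ τ ρ : Name P} : ∀ {p : P}, EqF σ τ p → EqF τ ρ p → EqF σ ρ p := by
  induction σ generalizing τ ρ with
  | mk ι nm cd ih =>
    intro p h h'
    rw [eqF_iff] at h h' ⊢
    constructor
    · intro i r hr hc
      obtain ⟨s, hs, j, h1, h2⟩ := h.1 i r hr hc
      obtain ⟨t, ht, k, h3, h4⟩ := h'.1 j s (hs.trans hr) h1
      exact ⟨t, ht.trans hs, k, h3, ih i (h2.mono ht) h4⟩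
    · intro k r hr hc
      obtain ⟨s, hs, j, h1, h2⟩ := h'.2 k r hr hc
      obtain ⟨t, ht, i, h3, h4⟩ := h.2 j s (hs.trans hr) h1
      exact ⟨t, ht.trans hs, i, h3, ih i h4 (h2.mono ht)⟩

theorem memF_of_idx {τ : Name P} (j : τ.idx) {p : P} (h : p ≤ τ.cd j) : MemF (τ.nm j) τ p :=
  fun r hr => ⟨r, le_rfl, j, hr.trans h, EqF.refl _ _⟩

theorem MemF.congr_left {σ σ' τ : Name P} {p : P} (h : EqF σ σ' p) (h' : MemF σ τ p) :
    MemF σ' τ p := by
  intro r hr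
  obtain ⟨s, hs, j, h1, h2⟩ := h' r hr
  exact ⟨s, hs, j, h1, (h.symm.mono (hs.trans hr)).trans h2⟩

theorem MemF.congr_right {σ τ τ' : Name P} {p : P} (h : EqF τ τ' p) (h' : MemF σ τ p) :
    MemF σ τ' p := by
  intro r hr
  obtain ⟨s, hs, j, h1, h2⟩ := h' r hr
  rw [eqF_iff] at h
  obtain ⟨t, ht, k, h3, h4⟩ := h.1 j s (hs.trans hr) h1
  exact ⟨t, ht.trans hs, k, h3, (h2.mono ht).trans h4⟩

theorem eqF_of_mem {σ τ : Name P} {p : P}
    (h1 : ∀ i r, r ≤ p → r ≤ σ.cd i → MemF (σ.nm i) τ r)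
    (h2 : ∀ i r, r ≤ p → r ≤ τ.cd i → MemF (τ.nm i) σ r) : EqF σ τ p := by
  rw [eqF_iff]
  refine ⟨fun i r hr hc => h1 i r hr hc r le_rfl, fun j r hr hc => ?_⟩
  obtain ⟨s, hs, i, h3, h4⟩ := h2 j r hr hc r le_rfl
  exact ⟨s, hs, i, h3, h4.symm⟩

/-- The forcing relation `p ⊩ φ[v]`. -/
def Forces : Fml → (ℕ → Name P) → P → Prop
  | .fmem i j, v, p => MemF (v i) (v j) p
  | .feq i j, v, p => EqF (v i) (v j) p
  | .fneg φ, v, p => ∀ q, q ≤ p → ¬ Forces φ v q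
  | .fand φ ψ, v, p => Forces φ v p ∧ Forces ψ v p
  | .fall φ, v, p => ∀ τ, Forces φ (cons τ v) p

theorem forces_mem {i j : ℕ} {v : ℕ → Name P} {p : P} :
    Forces (.fmem i j) v p ↔ MemF (v i) (v j) p := Iff.rfl

theorem forces_eq {i j : ℕ} {v : ℕ → Name P} {p : P} :
    Forces (.feq i j) v p ↔ EqF (v i) (v j) p := Iff.rfl

theorem forces_neg {φ : Fml} {v : ℕ → Name P} {p : P} :
    Forces (.fneg φ) v p ↔ ∀ q, q ≤ p → ¬ Forces φ v q := Iff.rfl

theorem forces_and {φ ψ : Fml} {v : ℕ → Name P} {p : P} :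
    Forces (.fand φ ψ) v p ↔ Forces φ v p ∧ Forces ψ v p := Iff.rfl

theorem forces_all {φ : Fml} {v : ℕ → Name P} {p : P} :
    Forces (.fall φ) v p ↔ ∀ τ, Forces φ (cons τ v) p := Iff.rfl

theorem Forces.mono {φ : Fml} : ∀ {v : ℕ → Name P} {p q : P}, Forces φ v p → q ≤ p →
    Forces φ v q := by
  induction φ with
  | fmem i j => intro v p q h hq; exact MemF.mono h hq
  | feq i j => intro v p q h hq; exact EqF.mono h hq
  | fneg φ _ => intro v p q h hq r hr; exact h r (hr.trans hq)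
  | fand φ ψ ih1 ih2 => intro v p q h hq; exact ⟨ih1 h.1 hq, ih2 h.2 hq⟩
  | fall φ ih => intro v p q h hq τ; exact ih (h τ) hq

theorem Forces.dense {φ : Fml} : ∀ {v : ℕ → Name P} {p : P},
    (∀ q, q ≤ p → ∃ r, r ≤ q ∧ Forces φ v r) → Forces φ v p := by
  induction φ with
  | fmem i j => intro v p h; exact MemF.dense h
  | feq i j => intro v p h; exact EqF.dense h
  | fneg φ _ =>
    intro v p h q hq hf
    obtain ⟨r, hr, h1⟩ := h q hq
    exact h1 r le_rfl (hf.mono hr)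
  | fand φ ψ ih1 ih2 =>
    intro v p h
    constructor
    · exact ih1 fun q hq => by
        obtain ⟨r, hr, h1⟩ := h q hq
        exact ⟨r, hr, h1.1⟩
    · exact ih2 fun q hq => by
        obtain ⟨r, hr, h1⟩ := h q hq
        exact ⟨r, hr, h1.2⟩
  | fall φ ih =>
    intro v p h τ
    exact ih fun q hq => by
      obtain ⟨r, hr, h1⟩ := h q hq
      exact ⟨r, hr, h1 τ⟩

theorem Forces.congr {φ : Fml} : ∀ {v w : ℕ → Name P} {p : P}, (∀ i, EqF (v i) (w i) p) →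
    Forces φ v p → Forces φ w p := by
  induction φ with
  | fmem i j =>
    intro v w p h hf
    exact MemF.congr_right (h j) (MemF.congr_left (h i) hf)
  | feq i j =>
    intro v w p h hf
    exact ((h i).symm.trans hf).trans (h j)
  | fneg φ ih =>
    intro v w p h hf q hq h1
    exact hf q hq (ih (fun i => ((h i).symm.mono hq)) h1)
  | fand φ ψ ih1 ih2 =>
    intro v w p h hf
    exact ⟨ih1 h hf.1, ih2 h hf.2⟩
  | fall φ ih =>
    intro v w p h hf τ
    refine ih ?_ (hf τ)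
    intro i
    cases i with
    | zero => exact EqF.refl _ _
    | succ n => exact h n

theorem Forces.congr_cons {φ : Fml} {v : ℕ → Name P} {σ τ : Name P} {p : P}
    (h : EqF σ τ p) (hf : Forces φ (cons σ v) p) : Forces φ (cons τ v) p := by
  refine hf.congr ?_
  intro i
  cases i with
  | zero => exact h
  | succ n => exact EqF.refl _ _

theorem forces_decide (φ : Fml) (v : ℕ → Name P) (p : P) :
    ∃ q, q ≤ p ∧ (Forces φ v q ∨ Forces (.fneg φ) v q) := by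
  by_cases h : ∃ q, q ≤ p ∧ Forces φ v q
  · obtain ⟨q, hq, h⟩ := h
    exact ⟨q, hq, Or.inl h⟩
  · push Not at h
    exact ⟨p, le_rfl, Or.inr h⟩

theorem forces_negneg {φ : Fml} {v : ℕ → Name P} {p : P} :
    Forces (.fneg (.fneg φ)) v p ↔ Forces φ v p := by
  constructor
  · intro h
    apply Forces.dense
    intro q hq
    have := h q hq
    rw [forces_neg] at this
    push Not at this
    exact this
  · intro h q hq h1
    exact h1 q le_rfl (h.mono hq)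

theorem forces_imp {φ ψ : Fml} {v : ℕ → Name P} {p : P} :
    Forces (fimp φ ψ) v p ↔ ∀ q, q ≤ p → Forces φ v q → Forces ψ v q := by
  constructor
  · intro h q hq h1
    apply Forces.dense
    intro r hr
    have h2 := h r (hr.trans hq)
    rw [forces_and] at h2
    push Not at h2
    have h3 := h2 (h1.mono hr)
    rw [forces_neg] at h3
    push Not at h3
    exact h3
  · intro h q hq h1
    exact h1.2 q le_rfl (h q hq h1.1)

theorem forces_or {φ ψ : Fml} {v : ℕ → Name P} {p : P} :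
    Forces (ffor φ ψ) v p ↔ ∀ q, q ≤ p → ∃ r, r ≤ q ∧ (Forces φ v r ∨ Forces ψ v r) := by
  constructor
  · intro h q hq
    have h2 := h q hq
    rw [forces_and, forces_neg, forces_neg] at h2
    by_contra hcon
    push Not at hcon
    exact h2 ⟨fun r hr => (hcon r hr).1, fun r hr => (hcon r hr).2⟩
  · intro h q hq h1
    obtain ⟨r, hr, h2 | h2⟩ := h q hq
    · exact h1.1 r hr h2
    · exact h1.2 r hr h2

theorem forces_ex {φ : Fml} {v : ℕ → Name P} {p : P} :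
    Forces (fex φ) v p ↔ ∀ q, q ≤ p → ∃ r, r ≤ q ∧ ∃ τ, Forces φ (cons τ v) r := by
  constructor
  · intro h q hq
    have h2 := h q hq
    rw [forces_all] at h2
    push Not at h2
    obtain ⟨τ, h2⟩ := h2
    rw [forces_neg] at h2
    push Not at h2
    obtain ⟨r, hr, h3⟩ := h2
    exact ⟨r, hr, τ, h3⟩
  · intro h q hq h1
    obtain ⟨r, hr, τ, h2⟩ := h q hq
    exact h1 τ r hr h2

theorem forces_ball {φ : Fml} {j : ℕ} {v : ℕ → Name P} {p : P} :
    Forces (fball j φ) v p ↔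
      ∀ i : (v j).idx, ∀ q, q ≤ p → q ≤ (v j).cd i → Forces φ (cons ((v j).nm i) v) q := by
  constructor
  · intro h i q hq hc
    have h1 := h ((v j).nm i)
    rw [forces_imp] at h1
    exact h1 q hq (memF_of_idx i hc)
  · intro h τ
    rw [forces_imp]
    intro q hq h1
    apply Forces.dense
    intro r hr
    obtain ⟨s, hs, i, h2, h3⟩ := h1 r hr
    exact ⟨s, hs, (h i s (hs.trans (hr.trans hq)) h2).congr_cons h3.symm⟩

end Pool.Agent.Lib.Forcing
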