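import Pool.Agent.Lib.Forcing.Core

/-!
# No ordinal below `κ` is inaccessible in the extension
-/

set_option linter.unusedSectionVars false

open Cardinal Ordinal Set

namespace Pool.Agent.Lib.Forcing

/-- every sufficiently closed and sufficiently small preorder is a coordinate -/
theorem exists_qidx {γ δ : Ordinal.{0}} {Z : Type 1} [Nonempty Z] (le : Z → Z → Prop)
    (hrefl : ∀ x, le x x) (htrans : ∀ x y z, le x y → le y z → le x z)
    (hcl : ChainClosed (lift.{1} (L γ)) le) (hZ : #Z ≤ #(X δ)) :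
    ∃ (Q : QIdx γ δ) (ρ : X δ → Z), Function.Surjective ρ ∧ ∀ x y, Q.le x y ↔ le (ρ x) (ρ y) := by
  obtain ⟨e⟩ := hZ
  let ρ : X δ → Z := Function.invFun e
  have hρ : Function.Surjective ρ := Function.invFun_surjective e.injective
  refine ⟨⟨fun x y => le (ρ x) (ρ y), fun x => hrefl _, fun x y z => htrans _ _ _, ?_⟩, ρ, hρ,
    fun x y => Iff.rfl⟩
  intro C hC hc
  obtain ⟨z, hz⟩ := hcl (ρ '' C) (by
    rintro _ ⟨x, hx, rfl⟩ _ ⟨y, hy, rfl⟩
    exact hC x hx y hy) (mk_image_le.trans hc)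
  obtain ⟨x, rfl⟩ := hρ z
  exact ⟨x, fun y hy => hz _ ⟨y, hy, rfl⟩⟩

/-- replace one coordinate -/
noncomputable def setCoord {K : Ordinal.{0}} (p : Cond K) (γ δ : Ordinal.{0}) (b : B γ δ) :
    Cond K :=
  open Classical in
  ⟨p.s, Function.update p.r γ (Function.update (p.r γ) δ b), p.good⟩

theorem setCoord_same {K : Ordinal.{0}} (p : Cond K) (γ δ : Ordinal.{0}) (b : B γ δ) :
    (setCoord p γ δ b).r γ δ = b := by
  simp [setCoord]

theorem setCoord_le {K : Ordinal.{0}} (p : Cond K) (γ δ : Ordinal.{0}) (b : B γ δ)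
    (h : Ble b (p.r γ δ)) : setCoord p γ δ b ≤ p := by
  classical
  refine ⟨EndExt.refl _, fun γ' δ' _ => ?_⟩
  by_cases h1 : γ' = γ
  · subst h1
    by_cases h2 : δ' = δ
    · subst h2
      rw [setCoord_same]; exact h
    · have : (setCoord p γ' δ b).r γ' δ' = p.r γ' δ' := by simp [setCoord, h2]
      rw [this]; exact Ble.refl _
  · have : (setCoord p γ δ b).r γ' δ' = p.r γ' δ' := by simp [setCoord, h1]
    rw [this]; exact Ble.refl _

/-- conditions of the collapse -/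
def Coll (lam del g : Ordinal.{0}) : Type 1 :=
  {A : Set (Set.Iio lam × Set.Iio del) //
    (∀ x y y', (x, y) ∈ A → (x, y') ∈ A → y = y') ∧ #A ≤ lift.{1} (L g)}

theorem coll_closed (lam del g : Ordinal.{0}) :
    ChainClosed (lift.{1} (L g)) (fun A A' : Coll lam del g => A'.1 ⊆ A.1) := by
  intro C hC hc
  refine ⟨⟨⋃ A : C, A.1.1, ?_, ?_⟩, ?_⟩
  · intro x y y' h h'
    simp only [mem_iUnion] at h h'
    obtain ⟨A, hA⟩ := h
    obtain ⟨A', hA'⟩ := h'
    rcases hC _ A.2 _ A'.2 with h1 | h1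
    · exact A.1.2.1 x y y' hA (h1 hA')
    · exact A'.1.2.1 x y y' (h1 hA) hA'
  · refine (mk_iUnion_le _).trans ?_
    refine (mul_le_mul' hc (ciSup_le' fun A => A.1.2.2)).trans ?_
    rw [mul_eq_self]
    rw [← Cardinal.lift_aleph0.{1, 0}, Cardinal.lift_le]
    exact aleph0_le_L g
  · intro A hA x hx
    simp only [mem_iUnion]
    exact ⟨⟨A, hA⟩, hx⟩

theorem mod_not_inacc {κ : Cardinal.{0}} (hκ : κ.IsInaccessible) (U : GenUlt (Cond κ.ord))
    {δ : Ordinal.{0}} (hδ : δ < κ.ord) : ¬ IsInacc (ModE U) (U.cl (chk δ)) := by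
  classical
  suffices h : ∀ p : Cond κ.ord, ∃ q, q ≤ p ∧ ∀ V : GenUlt (Cond κ.ord), V.Has q →
      ¬ IsInacc (ModE V) (V.cl (chk δ)) by
    have h1 : Sat (ModE U) (.fneg (fInacc 0)) (fun i => U.cl ((fun _ => chk δ) i)) := by
      rw [los]
      apply GenUlt.ev_of_dense
      intro p
      obtain ⟨q, hq, h2⟩ := h p
      refine ⟨q, hq, fun r hr => ?_⟩
      rw [forces_iff]
      intro V hV
      rw [sat_neg, sat_fInacc]
      exact h2 V (hV.mono hr)
    rw [sat_neg, sat_fInacc] at h1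
    exact h1
  intro p
  obtain ⟨q, hq, hlt⟩ := exists_ext_above hκ p hδ
  refine ⟨q, hq, ?_⟩
  -- the consecutive points around δ
  have hne1 : {x | x ∈ q.s ∧ x ≤ δ}.Nonempty := ⟨0, q.good.zero, zero_le⟩
  set g := sSup {x | x ∈ q.s ∧ x ≤ δ} with hg
  have hgs : g ∈ q.s := q.good.closed _ (fun x hx => hx.1) hne1
  have hgδ : g ≤ δ := csSup_le hne1 fun x hx => hx.2
  have hgmax : ∀ x ∈ q.s, x ≤ δ → x ≤ g := fun x hx h => le_csSup ⟨δ, fun x hx => hx.2⟩ ⟨hx, h⟩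
  have hne2 : {x | x ∈ q.s ∧ δ < x}.Nonempty := ⟨mx q.s, q.good.mx_mem, hlt⟩
  set g' := sInf {x | x ∈ q.s ∧ δ < x} with hg'
  have hg's : g' ∈ q.s ∧ δ < g' := csInf_mem hne2
  have hcons : Cons q.s g g' := by
    refine ⟨hgs, hg's.1, hgδ.trans_lt hg's.2, ?_⟩
    rintro x hx ⟨h1, h2⟩
    by_cases h3 : x ≤ δ
    · exact absurd (hgmax x hx h3) (not_le.2 h1)
    · have h4 : x ∈ {x | x ∈ q.s ∧ δ < x} := ⟨hx, not_le.1 h3⟩
      exact absurd (csInf_le (OrderBot.bddBelow _) h4) (not_le.2 h2)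
  rcases hgδ.eq_or_lt with he | hgδ'
  · intro V _
    exact NI.not_inacc V (he ▸ q.good.ni g hgs)
  by_cases hcase : δ ≤ (Order.succ (L g)).ord
  · intro V _
    exact NI.not_inacc V (NI_of_between hgδ' hcase)
  push Not at hcase
  set lam := (Order.succ (L g)).ord with hlam
  have hinf : Ordinal.omega0 ≤ g' := by
    have h1 : Ordinal.omega0 ≤ lam := by
      rw [hlam, ← Cardinal.ord_aleph0, ord_le_ord]
      exact (aleph0_le_L g).trans (Order.le_succ _)
    exact h1.trans (hcase.le.trans hg's.2.le)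
  have hZ : #(Coll lam δ g) ≤ #(X g') :=
    (mk_subtype_le _).trans (mk_prod_le (hcase.trans hg's.2) hg's.2 hinf)
  have : Nonempty (Coll lam δ g) := by
    refine ⟨⟨∅, fun x y y' h => h.elim, ?_⟩⟩
    rw [mk_eq_zero]; exact zero_le
  obtain ⟨Q, ρ, hρ, hQ⟩ := exists_qidx (γ := g) (δ := g')
    (fun A A' : Coll lam δ g => A'.1 ⊆ A.1) (fun A => subset_rfl)
    (fun A A' A'' h h' => h'.trans h) (coll_closed lam δ g) hZ
  -- the generic function
  let F : Ordinal.{0} → Ordinal.{0} → Cond κ.ord → Prop := fun ξ η p =>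
    p ≤ q ∧ ∃ (hξ : ξ < lam) (hη : η < δ), ((⟨ξ, hξ⟩, ⟨η, hη⟩) : Set.Iio lam × Set.Iio δ) ∈
      (ρ (p.r g g' (Q, 0))).1
  have hopen : ∀ ξ η p p', F ξ η p → p' ≤ p → F ξ η p' := by
    rintro ξ η p p' ⟨h1, hξ, hη, h2⟩ hp'
    refine ⟨hp'.trans h1, hξ, hη, ?_⟩
    have h3 := hp'.2 g g' (hcons.ext h1.1 q.good) (Q, 0)
    exact (hQ _ _).1 h3 h2
  have hfun : ∀ ξ η η' p, F ξ η p → F ξ η' p → η = η' := by
    rintro ξ η η' p ⟨_, hξ, hη, h2⟩ ⟨_, _, hη', h3⟩
    have := (ρ (p.r g g' (Q, 0))).2.1 _ _ _ h2 h3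
    exact congrArg Subtype.val this
  -- adding a value
  have hadd : ∀ p, p ≤ q → ∀ (ξ : Set.Iio lam) (η : Set.Iio δ),
      (∀ y, (ξ, y) ∉ (ρ (p.r g g' (Q, 0))).1) → ∃ q', q' ≤ p ∧ F ξ.1 η.1 q' := by
    intro p hp ξ η hfresh
    let A : Coll lam δ g := ⟨insert (ξ, η) (ρ (p.r g g' (Q, 0))).1, by
      rintro x y y' (h | h) (h' | h')
      · rw [Prod.mk.injEq] at h h'
        rw [h.2, h'.2]
      · rw [Prod.mk.injEq] at h
        rw [h.1] at h'
        exact (hfresh _ h').elim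
      · rw [Prod.mk.injEq] at h'
        rw [h'.1] at h
        exact (hfresh _ h).elim
      · exact (ρ (p.r g g' (Q, 0))).2.1 x y y' h h', by
      refine mk_insert_le.trans ?_
      refine (add_le_add (ρ (p.r g g' (Q, 0))).2.2 le_rfl).trans ?_
      have h1 : ℵ₀ ≤ lift.{1} (L g) := by
        rw [← Cardinal.lift_aleph0.{1, 0}, Cardinal.lift_le]
        exact aleph0_le_L g
      rw [add_one_eq h1]⟩
    obtain ⟨x, hx⟩ := hρ A
    let b : B g g' := Function.update (p.r g g') (Q, 0) x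
    have hb : Ble b (p.r g g') := by
      intro i
      by_cases hi : i = (Q, 0)
      · subst hi
        simp only [b, Function.update_self]
        rw [hQ, hx]
        exact subset_insert _ _
      · simp only [b, Function.update_of_ne hi]
        exact i.1.refl _
    refine ⟨setCoord p g g' b, setCoord_le p g g' b hb, (setCoord_le p g g' b hb).trans hp,
      ξ.2, η.2, ?_⟩
    rw [setCoord_same]
    simp only [b, Function.update_self]
    rw [hx]
    exact mem_insert _ _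
  intro V hV
  refine not_inacc_of_fun V hcase hopen hfun ?_ ?_
  · refine GenUlt.Ev.imp hV fun r hr ξ hξ p hp => ?_
    by_cases h1 : ∀ y, ((⟨ξ, hξ⟩, y) : Set.Iio lam × Set.Iio δ) ∉ (ρ (p.r g g' (Q, 0))).1
    · have hpos : (0 : Ordinal.{0}) < δ := zero_le.trans_lt hgδ'
      obtain ⟨q', h2, h3⟩ := hadd p (hp.trans hr) ⟨ξ, hξ⟩ ⟨0, hpos⟩ h1
      exact ⟨q', h2, 0, hpos, h3⟩
    · push Not at h1
      obtain ⟨y, hy⟩ := h1
      exact ⟨p, le_rfl, y.1, y.2, hp.trans hr, hξ, y.2, hy⟩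
  · refine GenUlt.Ev.imp hV fun r hr β hβ p hp => ?_
    obtain ⟨ξ, hξ⟩ := exists_fresh (ρ (p.r g g' (Q, 0))).1 (ρ (p.r g g' (Q, 0))).2.2
    obtain ⟨q', h2, h3⟩ := hadd p (hp.trans hr) ξ ⟨β, hβ⟩ hξ
    exact ⟨q', h2, ξ.1, ξ.2, β, hβ, le_rfl, h3⟩

end Pool.Agent.Lib.Forcing
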