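import Pool.Agent.Lib.Forcing.Fmls

/-!
# Ordered pairs, ordinals and functions in the models
-/

set_option linter.unusedSimpArgs false
set_option linter.unusedSectionVars false

namespace Pool.Agent.Lib.Forcing

universe u

/-! ## Ordered pairs in a model -/

section Internal

variable {M : Type*} {E : M → M → Prop}

theorem IsUPair.unique (H : IsZFC M E) {z z' x y : M} (h : IsUPair E z x y)
    (h' : IsUPair E z' x y) : z = z' :=
  H.extensionality _ _ fun w => by rw [h w, h' w]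

theorem IsUPair.eq_of_single {z x y x' : M} (h : IsUPair E z x y) (h' : IsUPair E z x' x') :
    x = x' ∧ y = x' := by
  have h1 := (h' x).1 ((h x).2 (Or.inl rfl))
  have h2 := (h' y).1 ((h y).2 (Or.inr rfl))
  simp only [or_self] at h1 h2
  exact ⟨h1, h2⟩

theorem IsOPair.inj (_H : IsZFC M E) {z x y x' y' : M} (h : IsOPair E z x y)
    (h' : IsOPair E z x' y') : x = x' ∧ y = y' := by
  obtain ⟨a, b, ha, hb, hz⟩ := h
  obtain ⟨a', b', ha', hb', hz'⟩ := h'
  have e1 : a = a' ∨ a = b' := (hz' a).1 ((hz a).2 (Or.inl rfl))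
  have e2 : b = a' ∨ b = b' := (hz' b).1 ((hz b).2 (Or.inr rfl))
  have e3 : a' = a ∨ a' = b := (hz a').1 ((hz' a').2 (Or.inl rfl))
  have e4 : b' = a ∨ b' = b := (hz b').1 ((hz' b').2 (Or.inr rfl))
  have hx : x = x' := by
    rcases e1 with e | e
    · exact (IsUPair.eq_of_single (e ▸ ha : IsUPair E a' x x) ha').1
    · exact ((IsUPair.eq_of_single hb' (e ▸ ha : IsUPair E b' x x)).1).symm
  subst hx
  refine ⟨rfl, ?_⟩
  rcases e4 with e | e
  · -- b' = a: {x, y'} = {x, x}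
    have h1 := (IsUPair.eq_of_single (e ▸ hb' : IsUPair E a x y') ha).2
    -- y' = x
    rcases e2 with e5 | e5
    · have h2 := (IsUPair.eq_of_single (e5 ▸ hb : IsUPair E a' x y) ha').2
      rw [h1, h2]
    · have h2 := (hb' y).1 (e5 ▸ (hb y).2 (Or.inr rfl))
      rcases h2 with h2 | h2
      · rw [h2, h1]
      · exact h2
  · have h1 := (hb y').1 (e ▸ (hb' y').2 (Or.inr rfl))
    have h2 := (hb' y).1 (e.symm ▸ (hb y).2 (Or.inr rfl))
    rcases h1 with h1 | h1
    · rcases h2 with h2 | h2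
      · rw [h1, h2]
      · exact h2
    · exact h1.symm

theorem exists_upair (H : IsZFC M E) (x y : M) : ∃ z, IsUPair E z x y := H.pairing x y

theorem exists_opair (H : IsZFC M E) (x y : M) : ∃ z, IsOPair E z x y := by
  obtain ⟨a, ha⟩ := exists_upair H x x
  obtain ⟨b, hb⟩ := exists_upair H x y
  obtain ⟨z, hz⟩ := exists_upair H a b
  exact ⟨z, a, b, ha, hb, hz⟩

theorem IsOPair.unique (H : IsZFC M E) {z z' x y : M} (h : IsOPair E z x y)
    (h' : IsOPair E z' x y) : z = z' := by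
  obtain ⟨a, b, ha, hb, hz⟩ := h
  obtain ⟨a', b', ha', hb', hz'⟩ := h'
  have e1 := ha.unique H ha'
  have e2 := hb.unique H hb'
  subst e1 e2
  exact hz.unique H hz'

theorem not_mem_self (H : IsZFC M E) (x : M) : ¬ E x x := by
  intro h
  obtain ⟨z, hz⟩ := exists_upair H x x
  obtain ⟨y, hy, h1⟩ := H.foundation z ⟨x, (hz x).2 (Or.inl rfl)⟩
  have : y = x := by simpa using (hz y).1 hy
  subst this
  exact h1 y h hy

end Internal

/-! ## Names for ordered pairs and relations -/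

section Names

variable {P : Type u} [Preorder P]

def opN (σ τ : Name P) : Name P := pairN (pairN σ σ) (pairN σ τ)

theorem mod_opN (U : GenUlt P) (σ τ : Name P) :
    IsOPair (ModE U) (U.cl (opN σ τ)) (U.cl σ) (U.cl τ) :=
  ⟨_, _, mod_pairN U σ σ, mod_pairN U σ τ, mod_pairN U _ _⟩

theorem isOPair_iff (U : GenUlt P) (z : Mod U) (σ τ : Name P) :
    IsOPair (ModE U) z (U.cl σ) (U.cl τ) ↔ z = U.cl (opN σ τ) := by
  constructor
  · intro h; exact h.unique (mod_isZFC U) (mod_opN U σ τ)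
  · rintro rfl; exact mod_opN U σ τ

theorem eqF_opN {σ τ σ' τ' : Name P} {p : P} :
    EqF (opN σ τ) (opN σ' τ') p ↔ EqF σ σ' p ∧ EqF τ τ' p := by
  constructor
  · intro h
    rw [eqF_iff_models] at h
    constructor
    · rw [eqF_iff_models]
      intro U hU
      have h1 := h U hU
      exact ((mod_opN U σ τ).inj (mod_isZFC U) (h1 ▸ mod_opN U σ' τ')).1
    · rw [eqF_iff_models]
      intro U hU
      have h1 := h U hU
      exact ((mod_opN U σ τ).inj (mod_isZFC U) (h1 ▸ mod_opN U σ' τ')).2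
  · rintro ⟨h1, h2⟩
    rw [eqF_iff_models] at h1 h2 ⊢
    intro U hU
    have h3 := mod_opN U σ τ
    rw [h1 U hU, h2 U hU, isOPair_iff] at h3
    exact h3

/-- name of the relation `{(a i, b i) : A i}` -/
def relN {ι : Type u} (a b : ι → Name P) (A : ι → P → Prop) : Name P :=
  cn (fun i => opN (a i) (b i)) A

theorem isApp_iff (U : GenUlt P) (f σ τ : Name P) :
    IsApp (ModE U) (U.cl f) (U.cl σ) (U.cl τ) ↔ U.Ev (MemF (opN σ τ) f) := by
  constructor
  · rintro ⟨z, hz, h⟩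
    rw [isOPair_iff] at h
    subst h
    exact hz
  · intro h
    exact ⟨U.cl (opN σ τ), modE_cl.2 h, mod_opN U σ τ⟩

theorem forces_dApp {f x y : ℕ} {v : ℕ → Name P} {p : P} :
    Forces (dApp f x y) v p ↔ MemF (opN (v x) (v y)) (v f) p := by
  rw [forces_iff, memF_iff_models]
  refine forall₂_congr fun U _ => ?_
  rw [sat_dApp, isApp_iff, modE_cl]

theorem isApp_relN (U : GenUlt P) {ι : Type u} (a b : ι → Name P) {A : ι → P → Prop}
    (hA : ∀ i p q, A i p → q ≤ p → A i q) (σ τ : Name P) :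
    IsApp (ModE U) (U.cl (relN a b A)) (U.cl σ) (U.cl τ) ↔
      U.Ev (fun p => ∃ i, A i p ∧ EqF σ (a i) p ∧ EqF τ (b i) p) := by
  rw [isApp_iff, relN, ev_memF_cn hA]
  constructor
  · intro h
    refine h.imp ?_
    rintro p ⟨i, h1, h2⟩
    exact ⟨i, h1, eqF_opN.1 h2⟩
  · intro h
    refine h.imp ?_
    rintro p ⟨i, h1, h2⟩
    exact ⟨i, h1, eqF_opN.2 h2⟩

end Names

/-! ## Ordinals -/

section Ord

variable {P : Type 1} [Preorder P]

/-- the canonical name of an ordinal -/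
noncomputable def chk : Ordinal.{0} → Name P
  | o => cn (ι := Set.Iio o) (fun x => chk x.1) (fun _ _ => True)
termination_by o => o
decreasing_by exact x.2

theorem chk_eq (o : Ordinal.{0}) :
    (chk o : Name P) = cn (ι := Set.Iio o) (fun x => chk x.1) (fun _ _ => True) := by
  rw [chk]

theorem memF_chk {ρ : Name P} {o : Ordinal.{0}} {p : P} : MemF ρ (chk o) p ↔
    ∀ r, r ≤ p → ∃ s, s ≤ r ∧ ∃ x, x < o ∧ EqF ρ (chk x) s := by
  rw [chk_eq, memF_cn (fun _ _ _ h _ => h)]
  refine forall₂_congr fun r _ => exists_congr fun s => and_congr Iff.rfl ?_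
  constructor
  · rintro ⟨x, _, h⟩; exact ⟨x.1, x.2, h⟩
  · rintro ⟨x, hx, h⟩; exact ⟨⟨x, hx⟩, trivial, h⟩

theorem chk_mem {x o : Ordinal.{0}} (h : x < o) (p : P) : MemF (chk x) (chk o) p :=
  memF_chk.2 fun r _ => ⟨r, le_rfl, x, h, EqF.refl _ _⟩

theorem ev_memF_chk {U : GenUlt P} {ρ : Name P} {o : Ordinal.{0}} :
    U.Ev (MemF ρ (chk o)) ↔ U.Ev (fun p => ∃ x, x < o ∧ EqF ρ (chk x) p) := by
  rw [chk_eq, ev_memF_cn (fun _ _ _ h _ => h)]
  constructor
  · intro h
    refine h.imp ?_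
    rintro p ⟨x, -, h⟩
    exact ⟨x.1, x.2, h⟩
  · intro h
    refine h.imp ?_
    rintro p ⟨x, hx, h⟩
    exact ⟨⟨x, hx⟩, trivial, h⟩

theorem not_memF_self {σ : Name P} {p : P} : ¬ MemF σ σ p := by
  intro h
  obtain ⟨U, hU⟩ := exists_genUlt p
  exact not_mem_self (mod_isZFC U) _ (memF_iff_models.1 h U hU)

theorem chk_inj {a b : Ordinal.{0}} {p : P} (h : EqF (chk a) (chk b) p) : a = b := by
  rcases lt_trichotomy a b with h1 | h1 | h1
  · exact (not_memF_self ((chk_mem h1 p).congr_right h.symm)).elim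
  · exact h1
  · exact (not_memF_self ((chk_mem h1 p).congr_right h)).elim

theorem chk_mem_iff {a b : Ordinal.{0}} {p : P} : MemF (chk a) (chk b) p ↔ a < b := by
  constructor
  · intro h
    obtain ⟨s, _, x, hx, h1⟩ := memF_chk.1 h p le_rfl
    rw [chk_inj h1]
    exact hx
  · intro h; exact chk_mem h p

theorem forces_ball_chk {φ : Fml} {j : ℕ} {v : ℕ → Name P} {p : P} {o : Ordinal.{0}}
    (hv : v j = chk o) :
    Forces (fball j φ) v p ↔ ∀ x, x < o → Forces φ (cons (chk x) v) p := by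
  constructor
  · intro h x hx
    have h1 := forces_imp.1 (h (chk x)) p le_rfl
    apply h1
    show MemF (chk x) (v j) p
    rw [hv]
    exact chk_mem hx p
  · intro h τ
    rw [forces_imp]
    intro q hq h1
    apply Forces.dense
    intro r hr
    have h1' : MemF τ (v j) q := h1
    rw [hv] at h1'
    obtain ⟨s, hs, x, hx, h2⟩ := memF_chk.1 h1' r hr
    exact ⟨s, hs, ((h x hx).mono ((hs.trans hr).trans hq)).congr_cons h2.symm⟩

theorem chk_subset {x o : Ordinal.{0}} (h : x ≤ o) {ρ : Name P} {p : P}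
    (h1 : MemF ρ (chk x) p) : MemF ρ (chk o) p := by
  rw [memF_chk] at h1 ⊢
  intro r hr
  obtain ⟨s, hs, y, hy, h2⟩ := h1 r hr
  exact ⟨s, hs, y, hy.trans_le h, h2⟩

theorem mod_trans_chk (U : GenUlt P) (o : Ordinal.{0}) : IsTrans (ModE U) (U.cl (chk o)) := by
  intro y hy z hz
  obtain ⟨σ, rfl⟩ := exists_cl y
  obtain ⟨ρ, rfl⟩ := exists_cl z
  rw [modE_cl, ev_memF_chk] at hy
  rw [modE_cl] at hz ⊢
  refine hy.imp2 hz ?_
  rintro p ⟨x, hx, h1⟩ h2
  exact chk_subset hx.le (h2.congr_right h1)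

theorem mod_ordinal_chk (U : GenUlt P) (o : Ordinal.{0}) :
    IsOrdinal (ModE U) (U.cl (chk o)) := by
  refine ⟨mod_trans_chk U o, ?_⟩
  have h : Sat (ModE U) (fball 0 (dTrans 0)) (fun i => U.cl ((fun _ => chk o) i)) := by
    rw [los]
    apply GenUlt.ev_true
    intro p
    rw [forces_ball_chk rfl]
    intro x _
    rw [forces_iff]
    intro V _
    simpa using mod_trans_chk V x
  simpa using h

theorem mod_chk_mem (U : GenUlt P) {a b : Ordinal.{0}} :
    ModE U (U.cl (chk a)) (U.cl (chk b)) ↔ a < b := by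
  rw [modE_cl]
  constructor
  · intro h
    obtain ⟨p, hp⟩ := h.exists
    exact chk_mem_iff.1 hp
  · intro h
    exact GenUlt.ev_true fun p => chk_mem h p

theorem mod_chk_eq (U : GenUlt P) {a b : Ordinal.{0}} :
    U.cl (chk a : Name P) = U.cl (chk b) ↔ a = b := by
  constructor
  · intro h
    rw [cl_eq] at h
    obtain ⟨p, hp⟩ := h.exists
    exact chk_inj hp
  · rintro rfl; rfl

theorem mod_limit_chk (U : GenUlt P) {o : Ordinal.{0}} (h0 : 0 < o)
    (hl : ∀ x < o, Order.succ x < o) : IsLimitOrd (ModE U) (U.cl (chk o)) := by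
  refine ⟨mod_ordinal_chk U o, ⟨_, (mod_chk_mem U).2 h0⟩, ?_⟩
  have h : Sat (ModE U) (fball 0 (fbex 1 (.fmem 1 0))) (fun i => U.cl ((fun _ => chk o) i)) := by
    rw [los]
    apply GenUlt.ev_true
    intro p
    rw [forces_ball_chk rfl]
    intro x hx
    rw [forces_iff]
    intro V _
    simp only [sat_bex, sat_mem, cons_one, cons_zero]
    exact ⟨V.cl (chk (Order.succ x)), (mod_chk_mem V).2 (hl x hx),
      (mod_chk_mem V).2 (Order.lt_succ x)⟩
  simpa using h

theorem mod_not_limit_chk_nat (U : GenUlt P) (n : ℕ) :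
    ¬ IsLimitOrd (ModE U) (U.cl (chk (n : Ordinal.{0}))) := by
  rintro ⟨-, ⟨x, hx⟩, h⟩
  obtain ⟨σ, rfl⟩ := exists_cl x
  rw [modE_cl, ev_memF_chk] at hx
  obtain ⟨p, y, hy, _⟩ := hx.exists
  cases n with
  | zero => simp at hy
  | succ m =>
    obtain ⟨z, hz, h2⟩ := h _ ((mod_chk_mem U (a := (m : Ordinal.{0}))).2 (by
      exact_mod_cast Nat.lt_succ_self m))
    obtain ⟨ζ, rfl⟩ := exists_cl z
    rw [modE_cl, ev_memF_chk] at hz
    rw [modE_cl] at h2
    obtain ⟨q, ⟨x, hx, h3⟩, h4⟩ := (hz.and h2).exists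
    have h5 : (m : Ordinal.{0}) < x := chk_mem_iff.1 (h4.congr_right h3)
    have h6 : x < Order.succ (m : Ordinal.{0}) := by
      have : ((m + 1 : ℕ) : Ordinal.{0}) = Order.succ (m : Ordinal.{0}) := by
        rw [Nat.cast_succ, Order.succ_eq_add_one]
      rw [← this]; exact hx
    exact absurd (Order.lt_succ_iff.1 h6) (not_le.2 h5)

theorem mod_not_inacc_of_le_omega (U : GenUlt P) {δ : Ordinal.{0}} (h : δ ≤ Ordinal.omega0) :
    ¬ IsInacc (ModE U) (U.cl (chk δ)) := by
  rintro ⟨-, ⟨w, hw, hl⟩, -, -⟩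
  have h1 : Sat (ModE U) (fball 0 (.fneg (fLimit 0))) (fun i => U.cl ((fun _ => chk δ) i)) := by
    rw [los]
    apply GenUlt.ev_true
    intro p
    rw [forces_ball_chk rfl]
    intro x hx
    rw [forces_iff]
    intro V _
    obtain ⟨n, rfl⟩ := Ordinal.lt_omega0.1 (hx.trans_le h)
    simpa using mod_not_limit_chk_nat V n
  have h2 : ∀ x, ModE U x (U.cl (chk δ)) → ¬ IsLimitOrd (ModE U) x := by simpa using h1
  exact h2 w hw hl

end Ord

end Pool.Agent.Lib.Forcing
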