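import Pool.Agent.Lib.Forcing.Inacc

/-!
# The forcing notion: definitions
-/

set_option linter.unusedSectionVars false

open Cardinal Ordinal Set

namespace Pool.Agent.Lib.Forcing

/-- The amount of closure above `γ`. -/
noncomputable def L (γ : Ordinal.{0}) : Cardinal.{0} := Cardinal.beth (γ + Ordinal.omega0)

/-- every chain of size at most `c` has a lower bound -/
def ChainClosed (c : Cardinal.{1}) {X : Type 1} (le : X → X → Prop) : Prop :=
  ∀ C : Set X, (∀ x ∈ C, ∀ y ∈ C, le x y ∨ le y x) → #C ≤ c → ∃ x, ∀ y ∈ C, le x y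

/-- the underlying type of the coordinates of `B γ δ` -/
abbrev X (δ : Ordinal.{0}) : Type 1 := Set (Set.Iio δ)

/-- `L γ`-closed preorders on `X δ` -/
structure QIdx (γ δ : Ordinal.{0}) : Type 1 where
  le : X δ → X δ → Prop
  refl : ∀ x, le x x
  trans : ∀ x y z, le x y → le y z → le x z
  closed : ChainClosed (lift.{1} (L γ)) le

/-- indices of the coordinates -/
abbrev Idx (γ δ : Ordinal.{0}) : Type 1 := QIdx γ δ × ℕ

/-- The universal product -/
abbrev B (γ δ : Ordinal.{0}) : Type 1 := Idx γ δ → X δ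

/-- the order of `B γ δ`: coordinatewise stronger -/
def Ble {γ δ : Ordinal.{0}} (b b' : B γ δ) : Prop := ∀ i : Idx γ δ, i.1.le (b i) (b' i)

/-- `s` is a closed spaced set of non-inaccessible ordinals below `K` containing `0`. -/
structure Good (K : Ordinal.{0}) (s : Set Ordinal.{0}) : Prop where
  zero : 0 ∈ s
  lt : ∀ x ∈ s, x < K
  ni : ∀ x ∈ s, NI x
  spaced : ∀ x ∈ s, ∀ y ∈ s, x < y → (L x).ord ≤ y
  closed : ∀ T : Set Ordinal.{0}, T ⊆ s → T.Nonempty → sSup T ∈ s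

/-- `γ < δ` are consecutive elements of `s` -/
def Cons (s : Set Ordinal.{0}) (γ δ : Ordinal.{0}) : Prop :=
  γ ∈ s ∧ δ ∈ s ∧ γ < δ ∧ ∀ x ∈ s, ¬ (γ < x ∧ x < δ)

/-- The conditions -/
structure Cond (K : Ordinal.{0}) : Type 1 where
  s : Set Ordinal.{0}
  r : ∀ γ δ : Ordinal.{0}, B γ δ
  good : Good K s

/-- the maximum of a good set -/
noncomputable def mx (s : Set Ordinal.{0}) : Ordinal.{0} := sSup s

/-- `t` is an end-extension of `s` -/
def EndExt (t s : Set Ordinal.{0}) : Prop := s ⊆ t ∧ ∀ x ∈ t, x ≤ mx s → x ∈ s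

/-- the part of a condition up to `m`: functions on pairs of ordinals `≤ m` -/
abbrev R (m : Ordinal.{0}) : Type 1 := ∀ c : Set.Iic m × Set.Iic m, B c.1.1 c.2.1

theorem Ble.refl {γ δ : Ordinal.{0}} (b : B γ δ) : Ble b b := fun i => i.1.refl _

theorem Ble.trans {γ δ : Ordinal.{0}} {b b' b'' : B γ δ} (h : Ble b b') (h' : Ble b' b'') :
    Ble b b'' := fun i => i.1.trans _ _ _ (h i) (h' i)

variable {K : Ordinal.{0}} {s t u : Set Ordinal.{0}}

theorem Good.bdd (h : Good K s) : BddAbove s := ⟨K, fun x hx => (h.lt x hx).le⟩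

theorem Good.le_mx (h : Good K s) {x : Ordinal.{0}} (hx : x ∈ s) : x ≤ mx s :=
  le_csSup h.bdd hx

theorem Good.mx_mem (h : Good K s) : mx s ∈ s := h.closed s subset_rfl ⟨0, h.zero⟩

theorem EndExt.refl (s : Set Ordinal.{0}) : EndExt s s := ⟨subset_rfl, fun _ h _ => h⟩

theorem EndExt.trans (h : EndExt u t) (h' : EndExt t s) (ht : Good K t) (hs : Good K s) :
    EndExt u s := by
  refine ⟨h'.1.trans h.1, fun x hx hle => ?_⟩
  exact h'.2 x (h.2 x hx (hle.trans (ht.le_mx (h'.1 hs.mx_mem)))) hle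

theorem Cons.ext {γ δ : Ordinal.{0}} (h : EndExt t s) (hs : Good K s) (hc : Cons s γ δ) :
    Cons t γ δ :=
  ⟨h.1 hc.1, h.1 hc.2.1, hc.2.2.1, fun x hx hx' =>
    hc.2.2.2 x (h.2 x hx (hx'.2.le.trans (hs.le_mx hc.2.1))) hx'⟩

instance (K : Ordinal.{0}) : Preorder (Cond K) where
  le q p := EndExt q.s p.s ∧ ∀ γ δ, Cons p.s γ δ → Ble (q.r γ δ) (p.r γ δ)
  le_refl p := ⟨EndExt.refl _, fun _ _ _ => Ble.refl _⟩
  le_trans q p p' h h' := ⟨h.1.trans h'.1 p.good p'.good, fun γ δ hc =>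
    (h.2 γ δ (hc.ext h'.1 p'.good)).trans (h'.2 γ δ hc)⟩

theorem Cond.le_def {p q : Cond K} : q ≤ p ↔
    EndExt q.s p.s ∧ ∀ γ δ, Cons p.s γ δ → Ble (q.r γ δ) (p.r γ δ) := Iff.rfl

end Pool.Agent.Lib.Forcing
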