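import Pool.Agent.Lib.Forcing.Defs

/-!
# Derived connectives, satisfaction lemmas, locality
-/

namespace Pool.Agent.Lib.Forcing

/-! ## Derived connectives -/

def fimp (φ ψ : Fml) : Fml := .fneg (.fand φ (.fneg ψ))

def ffor (φ ψ : Fml) : Fml := .fneg (.fand (.fneg φ) (.fneg ψ))

def fiff (φ ψ : Fml) : Fml := .fand (fimp φ ψ) (fimp ψ φ)

def fex (φ : Fml) : Fml := .fneg (.fall (.fneg φ))

/-- bounded universal quantifier -/
def fball (j : ℕ) (φ : Fml) : Fml := .fall (fimp (.fmem 0 (j + 1)) φ)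

/-- bounded existential quantifier -/
def fbex (j : ℕ) (φ : Fml) : Fml := .fneg (fball j (.fneg φ))

section Sat

variable {M : Type*} {E : M → M → Prop} {v : ℕ → M} {φ ψ : Fml} {i j : ℕ}

@[simp] theorem cons_zero (x : M) (v : ℕ → M) : cons x v 0 = x := rfl

@[simp] theorem cons_succ (x : M) (v : ℕ → M) (n : ℕ) : cons x v (n + 1) = v n := rfl

@[simp] theorem cons_one (x : M) (v : ℕ → M) : cons x v 1 = v 0 := rfl

@[simp] theorem cons_two (x : M) (v : ℕ → M) : cons x v 2 = v 1 := rfl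

@[simp] theorem cons_three (x : M) (v : ℕ → M) : cons x v 3 = v 2 := rfl

@[simp] theorem cons_four (x : M) (v : ℕ → M) : cons x v 4 = v 3 := rfl

@[simp] theorem cons_five (x : M) (v : ℕ → M) : cons x v 5 = v 4 := rfl

@[simp] theorem cons_six (x : M) (v : ℕ → M) : cons x v 6 = v 5 := rfl

@[simp] theorem cons_seven (x : M) (v : ℕ → M) : cons x v 7 = v 6 := rfl

@[simp] theorem cons_eight (x : M) (v : ℕ → M) : cons x v 8 = v 7 := rfl

@[simp] theorem cons_nine (x : M) (v : ℕ → M) : cons x v 9 = v 8 := rfl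

@[simp] theorem sat_mem : Sat E (.fmem i j) v ↔ E (v i) (v j) := Iff.rfl

@[simp] theorem sat_eq : Sat E (.feq i j) v ↔ v i = v j := Iff.rfl

@[simp] theorem sat_neg : Sat E (.fneg φ) v ↔ ¬ Sat E φ v := Iff.rfl

@[simp] theorem sat_and : Sat E (.fand φ ψ) v ↔ Sat E φ v ∧ Sat E ψ v := Iff.rfl

@[simp] theorem sat_all : Sat E (.fall φ) v ↔ ∀ x, Sat E φ (cons x v) := Iff.rfl

@[simp] theorem sat_imp : Sat E (fimp φ ψ) v ↔ (Sat E φ v → Sat E ψ v) := by
  simp only [fimp, sat_neg, sat_and]; tauto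

@[simp] theorem sat_or : Sat E (ffor φ ψ) v ↔ (Sat E φ v ∨ Sat E ψ v) := by
  simp only [ffor, sat_neg, sat_and]; tauto

@[simp] theorem sat_iff : Sat E (fiff φ ψ) v ↔ (Sat E φ v ↔ Sat E ψ v) := by
  simp only [fiff, sat_imp, sat_and]; tauto

@[simp] theorem sat_ex : Sat E (fex φ) v ↔ ∃ x, Sat E φ (cons x v) := by
  simp only [fex, sat_neg, sat_all]; push Not; rfl

@[simp] theorem sat_ball : Sat E (fball j φ) v ↔ ∀ x, E x (v j) → Sat E φ (cons x v) := by
  simp only [fball, sat_imp, sat_all, sat_mem, cons_zero, cons_succ]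

@[simp] theorem sat_bex : Sat E (fbex j φ) v ↔ ∃ x, E x (v j) ∧ Sat E φ (cons x v) := by
  simp only [fbex, sat_neg, sat_ball]; push Not; rfl

theorem cons_eta (v : ℕ → M) : cons (v 0) (fun n => v (n + 1)) = v := by
  funext n; cases n <;> rfl

end Sat

/-! ## Locality -/

/-- A bound for the free variables of a formula. -/
def Fml.bd : Fml → ℕ
  | .fmem i j => max (i + 1) (j + 1)
  | .feq i j => max (i + 1) (j + 1)
  | .fneg φ => φ.bd
  | .fand φ ψ => max φ.bd ψ.bd
  | .fall φ => φ.bd - 1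

theorem sat_congr {M : Type*} {E : M → M → Prop} (φ : Fml) :
    ∀ {v w : ℕ → M}, (∀ i, i < φ.bd → v i = w i) → (Sat E φ v ↔ Sat E φ w) := by
  induction φ with
  | fmem i j =>
    intro v w h
    have h1 := h i (by simp [Fml.bd])
    have h2 := h j (by simp [Fml.bd])
    simp only [sat_mem, h1, h2]
  | feq i j =>
    intro v w h
    have h1 := h i (by simp [Fml.bd])
    have h2 := h j (by simp [Fml.bd])
    simp only [sat_eq, h1, h2]
  | fneg φ ih =>
    intro v w h
    simp only [sat_neg, ih h]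
  | fand φ ψ ih1 ih2 =>
    intro v w h
    simp only [sat_and]
    rw [ih1 (fun i hi => h i (lt_of_lt_of_le hi (le_max_left _ _))),
      ih2 (fun i hi => h i (lt_of_lt_of_le hi (le_max_right _ _)))]
  | fall φ ih =>
    intro v w h
    simp only [sat_all]
    refine forall_congr' fun x => ih ?_
    intro i hi
    cases i with
    | zero => rfl
    | succ n => exact h n (by simp only [Fml.bd]; omega)

/-! ## Renaming of variables -/

def liftRen (f : ℕ → ℕ) : ℕ → ℕ
  | 0 => 0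
  | n + 1 => f n + 1

def Fml.ren : (ℕ → ℕ) → Fml → Fml
  | f, .fmem i j => .fmem (f i) (f j)
  | f, .feq i j => .feq (f i) (f j)
  | f, .fneg φ => .fneg (φ.ren f)
  | f, .fand φ ψ => .fand (φ.ren f) (ψ.ren f)
  | f, .fall φ => .fall (φ.ren (liftRen f))

theorem sat_ren {M : Type*} {E : M → M → Prop} (φ : Fml) : ∀ {f : ℕ → ℕ} {v : ℕ → M},
    Sat E (φ.ren f) v ↔ Sat E φ (fun i => v (f i)) := by
  induction φ with
  | fmem i j => intro f v; rfl
  | feq i j => intro f v; rfl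
  | fneg φ ih => intro f v; exact not_congr ih
  | fand φ ψ ih1 ih2 => intro f v; exact and_congr ih1 ih2
  | fall φ ih =>
    intro f v
    refine forall_congr' fun x => ?_
    rw [ih]
    have : (fun i => cons x v (liftRen f i)) = cons x (fun i => v (f i)) := by
      funext i; cases i <;> rfl
    rw [this]

theorem Delta0.imp {φ ψ : Fml} (h1 : Delta0 φ) (h2 : Delta0 ψ) : Delta0 (fimp φ ψ) :=
  .dneg _ (.dand _ _ h1 (.dneg _ h2))

theorem Delta0.or {φ ψ : Fml} (h1 : Delta0 φ) (h2 : Delta0 ψ) : Delta0 (ffor φ ψ) :=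
  .dneg _ (.dand _ _ (.dneg _ h1) (.dneg _ h2))

theorem Delta0.iff {φ ψ : Fml} (h1 : Delta0 φ) (h2 : Delta0 ψ) : Delta0 (fiff φ ψ) :=
  .dand _ _ (h1.imp h2) (h2.imp h1)

theorem Delta0.ball {φ : Fml} (j : ℕ) (h : Delta0 φ) : Delta0 (fball j φ) := .dball j φ h

theorem Delta0.bex {φ : Fml} (j : ℕ) (h : Delta0 φ) : Delta0 (fbex j φ) :=
  .dneg _ (.dball j _ (.dneg _ h))

end Pool.Agent.Lib.Forcing
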