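import Pool.Agent.Lib.Forcing.Names

/-!
# The models obtained from ultrafilters containing all open dense sets

`Mod U` is the quotient of the class of names by forced equality modulo `U`; truth in `Mod U` is
`U`-eventual forcing (`los`), and `p ⊩ φ` iff `φ` holds in all `Mod U` with `p` in `U`.
-/

namespace Pool.Agent.Lib.Forcing

universe u

variable {P : Type u} [Preorder P]

/-- The filter of sets containing an open set that is dense below `p`. -/
def denseFilter (p : P) : Filter P where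
  sets := {A | ∀ q, q ≤ p → ∃ r, r ≤ q ∧ ∀ s, s ≤ r → s ∈ A}
  univ_sets := fun q _ => ⟨q, le_rfl, fun _ _ => trivial⟩
  sets_of_superset := fun {A B} hA hAB q hq => by
    obtain ⟨r, hr, h⟩ := hA q hq
    exact ⟨r, hr, fun s hs => hAB (h s hs)⟩
  inter_sets := fun {A B} hA hB q hq => by
    obtain ⟨r, hr, h⟩ := hA q hq
    obtain ⟨r', hr', h'⟩ := hB r (hr.trans hq)
    exact ⟨r', hr'.trans hr, fun s hs => ⟨h s (hs.trans hr'), h' s hs⟩⟩

theorem mem_denseFilter {p : P} {A : Set P} :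
    A ∈ denseFilter p ↔ ∀ q, q ≤ p → ∃ r, r ≤ q ∧ ∀ s, s ≤ r → s ∈ A := Iff.rfl

instance (p : P) : (denseFilter p).NeBot := by
  rw [Filter.neBot_iff]
  intro h
  have h1 : (∅ : Set P) ∈ denseFilter p := by rw [h]; trivial
  obtain ⟨r, _, h2⟩ := h1 p le_rfl
  exact h2 r le_rfl

variable (P) in
/-- Ultrafilters on `P` which contain all open dense subsets of `P`. -/
structure GenUlt where
  U : Ultrafilter P
  gen : ∀ A : Set P, (∀ p, ∃ q, q ≤ p ∧ ∀ r, r ≤ q → r ∈ A) → A ∈ U

/-- `U.Ev A`: the set of conditions with property `A` belongs to the ultrafilter. -/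
def GenUlt.Ev (U : GenUlt P) (A : P → Prop) : Prop := {p | A p} ∈ U.U

/-- `p` belongs to the generic ultrafilter. -/
def GenUlt.Has (U : GenUlt P) (p : P) : Prop := U.Ev (fun q => q ≤ p)

theorem exists_genUlt (p : P) : ∃ U : GenUlt P, U.Has p := by
  refine ⟨⟨Ultrafilter.of (denseFilter p), ?_⟩, ?_⟩
  · intro A hA
    exact Ultrafilter.of_le (denseFilter p) (fun q _ => hA q)
  · exact Ultrafilter.of_le (denseFilter p) (fun q hq => ⟨q, le_rfl, fun s hs => hs.trans hq⟩)

namespace GenUlt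

variable {U : GenUlt P} {A B C : P → Prop}

theorem Ev.imp (h : U.Ev A) (hAB : ∀ p, A p → B p) : U.Ev B :=
  Filter.mem_of_superset h hAB

theorem Ev.and (h : U.Ev A) (h' : U.Ev B) : U.Ev (fun p => A p ∧ B p) :=
  Filter.inter_mem h h'

theorem Ev.imp2 (h : U.Ev A) (h' : U.Ev B) (hAB : ∀ p, A p → B p → C p) : U.Ev C :=
  (h.and h').imp fun p hp => hAB p hp.1 hp.2

theorem Ev.imp3 {D : P → Prop} (h : U.Ev A) (h' : U.Ev B) (h'' : U.Ev C)
    (hAB : ∀ p, A p → B p → C p → D p) : U.Ev D :=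
  ((h.and h').and h'').imp fun p hp => hAB p hp.1.1 hp.1.2 hp.2

theorem Ev.exists (h : U.Ev A) : ∃ p, A p := by
  by_contra hcon
  push Not at hcon
  have : ({p | A p} : Set P) = ∅ := by ext p; simp [hcon p]
  have h1 : (∅ : Set P) ∈ U.U := this ▸ h
  exact Ultrafilter.empty_notMem h1

theorem ev_not : U.Ev (fun p => ¬ A p) ↔ ¬ U.Ev A := by
  have := Ultrafilter.compl_mem_iff_notMem (f := U.U) (s := {p | A p})
  exact this

theorem ev_or : U.Ev (fun p => A p ∨ B p) ↔ (U.Ev A ∨ U.Ev B) :=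
  Ultrafilter.union_mem_iff (f := U.U) (s := {p | A p}) (t := {p | B p})

theorem ev_true (h : ∀ p, A p) : U.Ev A := by
  have : ({p | A p} : Set P) = Set.univ := by ext p; simp [h p]
  unfold Ev
  rw [this]
  exact Filter.univ_mem

theorem ev_const {a : Prop} (h : U.Ev (fun _ => a)) : a := by
  obtain ⟨_, h⟩ := h.exists
  exact h

/-- open dense sets are in `U`. -/
theorem ev_of_dense (h : ∀ p, ∃ q, q ≤ p ∧ ∀ r, r ≤ q → A r) : U.Ev A := U.gen _ h

/-- For open `A`, `U`-eventually either `A` or no extension has `A`. -/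
theorem ev_decide (hA : ∀ p q, A p → q ≤ p → A q) :
    U.Ev (fun p => A p ∨ ∀ q, q ≤ p → ¬ A q) := by
  apply ev_of_dense
  intro p
  by_cases h : ∃ q, q ≤ p ∧ A q
  · obtain ⟨q, hq, h⟩ := h
    exact ⟨q, hq, fun r hr => Or.inl (hA q r h hr)⟩
  · push Not at h
    exact ⟨p, le_rfl, fun r hr => Or.inr fun q hq => h q (hq.trans hr)⟩

theorem ev_of_dense_ev (hA : ∀ p q, A p → q ≤ p → A q)
    (h : U.Ev (fun p => ∀ q, q ≤ p → ∃ r, r ≤ q ∧ A r)) : U.Ev A := by
  refine h.imp2 (ev_decide hA) ?_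
  rintro p h1 (h2 | h2)
  · exact h2
  · obtain ⟨r, hr, h3⟩ := h1 p le_rfl
    exact (h2 r hr h3).elim

/-- localised form of `ev_of_dense`: `D` is dense below `U`-many conditions, `D` open. -/
theorem Has.ev_of_dense {p : P} (hp : U.Has p) (hA : ∀ p q, A p → q ≤ p → A q)
    (h : ∀ q, q ≤ p → ∃ r, r ≤ q ∧ A r) : U.Ev A :=
  ev_of_dense_ev hA (Ev.imp hp fun _ hq _ hr => h _ (hr.trans hq))

theorem Has.mono {p q : P} (hp : U.Has p) (h : p ≤ q) : U.Has q :=
  Ev.imp hp fun _ hr => hr.trans h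

theorem ev_finite {ι : Type*} {s : Set ι} (hs : s.Finite) {A : ι → P → Prop}
    (h : ∀ i ∈ s, U.Ev (A i)) : U.Ev (fun p => ∀ i ∈ s, A i p) := by
  have h1 := (Filter.biInter_mem (f := (U.U : Filter P)) hs (s := fun i => {p | A i p})).2 h
  refine Filter.mem_of_superset h1 ?_
  intro p hp i hi
  simp only [Set.mem_iInter] at hp
  exact hp i hi

end GenUlt

/-- The equality of names modulo `U`. -/
def nameSetoid (U : GenUlt P) : Setoid (Name P) where
  r σ τ := U.Ev (EqF σ τ)
  iseqv :=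
    { refl := fun σ => GenUlt.ev_true fun p => EqF.refl σ p
      symm := fun h => h.imp fun _ h => h.symm
      trans := fun h h' => h.imp2 h' fun _ h h' => h.trans h' }

/-- The model given by a generic ultrafilter. -/
def Mod (U : GenUlt P) : Type (u + 1) := Quotient (nameSetoid U)

/-- The class of a name in the model. -/
def GenUlt.cl (U : GenUlt P) (σ : Name P) : Mod U := Quotient.mk (nameSetoid U) σ

/-- The membership relation of the model. -/
def ModE (U : GenUlt P) : Mod U → Mod U → Prop :=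
  Quotient.lift₂ (fun σ τ => U.Ev (MemF σ τ)) (by
    intro a b c d (h : U.Ev (EqF a c)) (h' : U.Ev (EqF b d))
    apply propext
    constructor
    · intro h1
      exact h1.imp3 h h' fun p h1 h h' => MemF.congr_right h' (MemF.congr_left h h1)
    · intro h1
      exact h1.imp3 h h' fun p h1 h h' => MemF.congr_right h'.symm (MemF.congr_left h.symm h1))

theorem modE_cl {U : GenUlt P} {σ τ : Name P} :
    ModE U (U.cl σ) (U.cl τ) ↔ U.Ev (MemF σ τ) := Iff.rfl

theorem cl_eq {U : GenUlt P} {σ τ : Name P} : U.cl σ = U.cl τ ↔ U.Ev (EqF σ τ) := by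
  constructor
  · intro h; exact Quotient.exact h
  · intro h; exact Quotient.sound h

theorem exists_cl {U : GenUlt P} (x : Mod U) : ∃ σ, x = U.cl σ := by
  obtain ⟨σ, h⟩ := Quotient.exists_rep x
  exact ⟨σ, h.symm⟩

theorem cl_surj {U : GenUlt P} (v : ℕ → Mod U) : ∃ w : ℕ → Name P, v = fun i => U.cl (w i) := by
  choose w hw using fun i => exists_cl (v i)
  exact ⟨w, funext hw⟩

/-! ## The maximum principle -/

instance : Nonempty (Name P) := ⟨.mk PEmpty PEmpty.elim PEmpty.elim⟩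

theorem exists_max_antichain (S : P → Prop) : ∃ W : Set P, (∀ w ∈ W, S w) ∧
    (∀ w ∈ W, ∀ w' ∈ W, ∀ r, r ≤ w → r ≤ w' → w = w') ∧
    (∀ p, S p → ∃ w ∈ W, ∃ r, r ≤ p ∧ r ≤ w) := by
  obtain ⟨W, hW⟩ := zorn_subset
    {W : Set P | (∀ w ∈ W, S w) ∧ (∀ w ∈ W, ∀ w' ∈ W, ∀ r, r ≤ w → r ≤ w' → w = w')} (by
      intro c hc hchain
      refine ⟨⋃₀ c, ⟨?_, ?_⟩, fun s hs => Set.subset_sUnion_of_mem hs⟩
      · rintro w ⟨s, hs, hw⟩
        exact (hc hs).1 w hw
      · rintro w ⟨s, hs, hw⟩ w' ⟨s', hs', hw'⟩ r hr hr'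
        rcases hchain.total hs hs' with h | h
        · exact (hc hs').2 w (h hw) w' hw' r hr hr'
        · exact (hc hs).2 w hw w' (h hw') r hr hr')
  refine ⟨W, hW.prop.1, hW.prop.2, ?_⟩
  intro p hp
  by_contra hcon
  push Not at hcon
  have h1 : insert p W ∈ {W : Set P | (∀ w ∈ W, S w) ∧
      (∀ w ∈ W, ∀ w' ∈ W, ∀ r, r ≤ w → r ≤ w' → w = w')} := by
    refine ⟨?_, ?_⟩
    · rintro w (rfl | hw)
      · exact hp
      · exact hW.prop.1 w hw
    · rintro w (rfl | hw) w' (rfl | hw') r hr hr'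
      · rfl
      · exact (hcon w' hw' r hr hr').elim
      · exact (hcon w hw r hr' hr).elim
      · exact hW.prop.2 w hw w' hw' r hr hr'
  have h2 : p ∈ W := hW.le_of_ge h1 (Set.subset_insert p W) (Set.mem_insert p W)
  exact hcon p h2 p le_rfl le_rfl

/-- Mixing: names for a maximal antichain can be glued. -/
theorem max_principle (A : Name P → P → Prop)
    (hmono : ∀ σ p q, A σ p → q ≤ p → A σ q)
    (hdense : ∀ σ p, (∀ q, q ≤ p → ∃ r, r ≤ q ∧ A σ r) → A σ p)
    (hcongr : ∀ σ τ p, EqF σ τ p → A σ p → A τ p) :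
    ∃ τ, ∀ p, (∀ q, q ≤ p → ∃ r, r ≤ q ∧ ∃ σ, A σ r) → A τ p := by
  classical
  obtain ⟨W, hW1, hW2, hW3⟩ := exists_max_antichain (fun r : P => ∃ σ, A σ r)
  choose! s hs using hW1
  let τ : Name P := .mk (Σ w : W, {x : (s w).idx × P // x.2 ≤ (s w).cd x.1 ∧ x.2 ≤ w.1})
    (fun y => (s y.1).nm y.2.1.1) (fun y => y.2.1.2)
  have key : ∀ w ∈ W, EqF τ (s w) w := by
    intro w hw
    rw [eqF_iff]
    constructor
    · rintro ⟨w', ⟨⟨i, q⟩, h1, h2⟩⟩ r hr hc
      have hc' : r ≤ q := hc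
      have : w = w' := hW2 w hw w' w'.2 r hr (hc'.trans h2)
      subst this
      exact ⟨r, le_rfl, i, hc'.trans h1, EqF.refl _ _⟩
    · intro i r hr hc
      exact ⟨r, le_rfl, ⟨⟨w, hw⟩, ⟨(i, r), hc, hr⟩⟩, le_rfl, EqF.refl _ _⟩
  refine ⟨τ, fun p hp => hdense τ p fun q hq => ?_⟩
  obtain ⟨r, hr, σ, h1⟩ := hp q hq
  obtain ⟨w, hw, r', h2, h3⟩ := hW3 r ⟨σ, h1⟩
  exact ⟨r', h2.trans hr, hmono _ _ _ (hcongr _ _ _ (key w hw).symm (hs w hw)) h3⟩

theorem forces_ex_iff {φ : Fml} {v : ℕ → Name P} :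
    ∃ τ, ∀ p, Forces (fex φ) v p → Forces φ (cons τ v) p := by
  obtain ⟨τ, h⟩ := max_principle (fun σ p => Forces φ (cons σ v) p)
    (fun σ p q h hq => h.mono hq) (fun σ p h => Forces.dense h)
    (fun σ τ p h h1 => h1.congr_cons h)
  exact ⟨τ, fun p hp => h p (forces_ex.1 hp)⟩

/-! ## The truth lemma -/

theorem cl_cons {U : GenUlt P} (τ : Name P) (v : ℕ → Name P) :
    (fun i => U.cl (cons τ v i)) = cons (U.cl τ) (fun i => U.cl (v i)) := by
  funext i; cases i <;> rfl

theorem los (U : GenUlt P) (φ : Fml) : ∀ v : ℕ → Name P,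
    Sat (ModE U) φ (fun i => U.cl (v i)) ↔ U.Ev (Forces φ v) := by
  induction φ with
  | fmem i j => intro v; exact modE_cl
  | feq i j => intro v; exact cl_eq
  | fneg φ ih =>
    intro v
    rw [sat_neg, ih, ← GenUlt.ev_not]
    constructor
    · intro h
      refine h.imp2 (GenUlt.ev_decide (A := Forces φ v) (fun p q h hq => h.mono hq)) ?_
      rintro p h1 (h2 | h2)
      · exact (h1 h2).elim
      · exact h2
    · intro h
      exact h.imp fun p hp => hp p le_rfl
  | fand φ ψ ih1 ih2 =>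
    intro v
    rw [sat_and, ih1, ih2]
    constructor
    · intro h; exact h.1.and h.2
    · intro h; exact ⟨h.imp fun p hp => hp.1, h.imp fun p hp => hp.2⟩
  | fall φ ih =>
    intro v
    rw [sat_all]
    constructor
    · intro h
      by_contra hcon
      rw [← GenUlt.ev_not] at hcon
      obtain ⟨τ, hτ⟩ := forces_ex_iff (P := P) (φ := .fneg φ) (v := v)
      have h1 : U.Ev (Forces (.fneg φ) (cons τ v)) := by
        refine hcon.imp2 (GenUlt.ev_decide (A := Forces (.fall φ) v)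
          (fun p q h hq => h.mono hq)) ?_
        rintro p h1 (h2 | h2)
        · exact (h1 h2).elim
        · apply hτ
          intro q hq h3
          refine h2 q hq ?_
          intro σ
          exact forces_negneg.1 (h3 σ)
      have h2 := h (U.cl τ)
      rw [← cl_cons, ih] at h2
      obtain ⟨p, hp1, hp2⟩ := (h1.and h2).exists
      exact hp1 p le_rfl hp2
    · intro h x
      obtain ⟨τ, rfl⟩ := exists_cl x
      rw [← cl_cons, ih]
      exact h.imp fun p hp => hp τ

/-- Completeness: what holds in all models through `p` is forced by `p`. -/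
theorem forces_iff {φ : Fml} {v : ℕ → Name P} {p : P} :
    Forces φ v p ↔ ∀ U : GenUlt P, U.Has p → Sat (ModE U) φ (fun i => U.cl (v i)) := by
  constructor
  · intro h U hU
    rw [los]
    exact GenUlt.Ev.imp hU fun q hq => h.mono hq
  · intro h
    apply Forces.dense
    intro q hq
    by_contra hcon
    push Not at hcon
    obtain ⟨U, hU⟩ := exists_genUlt q
    have h1 := h U (hU.mono hq)
    rw [los] at h1
    obtain ⟨r, h2, h3⟩ := (GenUlt.Ev.and hU h1).exists
    exact hcon r h2 h3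

end Pool.Agent.Lib.Forcing
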