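import Pool.Agent.Lib.Forcing.Ultra

/-!
# `Mod U` is a model of ZFC
-/

namespace Pool.Agent.Lib.Forcing

universe u

variable {P : Type u} [Preorder P]

/-- Name of `{(nm i, p) : A i p}`. -/
def cn {ι : Type u} (nm : ι → Name P) (A : ι → P → Prop) : Name P :=
  .mk {x : ι × P // A x.1 x.2} (fun x => nm x.1.1) (fun x => x.1.2)

theorem memF_cn {ι : Type u} {nm : ι → Name P} {A : ι → P → Prop}
    (hA : ∀ i p q, A i p → q ≤ p → A i q) {ρ : Name P} {p : P} :
    MemF ρ (cn nm A) p ↔ ∀ r, r ≤ p → ∃ s, s ≤ r ∧ ∃ i, A i s ∧ EqF ρ (nm i) s := by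
  constructor
  · intro h r hr
    obtain ⟨s, hs, ⟨⟨i, q⟩, h1⟩, h2, h3⟩ := h r hr
    exact ⟨s, hs, i, hA i q s h1 h2, h3⟩
  · intro h r hr
    obtain ⟨s, hs, i, h1, h2⟩ := h r hr
    exact ⟨s, hs, ⟨⟨i, s⟩, h1⟩, le_rfl, h2⟩

theorem memF_cn_of {ι : Type u} {nm : ι → Name P} {A : ι → P → Prop} {p : P} (i : ι)
    (h : A i p) : MemF (nm i) (cn nm A) p := fun r hr =>
  ⟨r, le_rfl, ⟨⟨i, p⟩, h⟩, hr, EqF.refl _ _⟩

theorem ev_memF {U : GenUlt P} {ρ τ : Name P} :
    U.Ev (MemF ρ τ) ↔ U.Ev (fun p => ∃ j, p ≤ τ.cd j ∧ EqF ρ (τ.nm j) p) := by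
  constructor
  · intro h
    refine GenUlt.ev_of_dense_ev ?_ h
    rintro p q ⟨j, h1, h2⟩ hq
    exact ⟨j, hq.trans h1, h2.mono hq⟩
  · intro h
    refine h.imp ?_
    rintro p ⟨j, h1, h2⟩ r hr
    exact ⟨r, le_rfl, j, hr.trans h1, h2.mono hr⟩

theorem ev_memF_cn {U : GenUlt P} {ι : Type u} {nm : ι → Name P} {A : ι → P → Prop}
    (hA : ∀ i p q, A i p → q ≤ p → A i q) {ρ : Name P} :
    U.Ev (MemF ρ (cn nm A)) ↔ U.Ev (fun p => ∃ i, A i p ∧ EqF ρ (nm i) p) := by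
  constructor
  · intro h
    refine GenUlt.ev_of_dense_ev ?_ (h.imp fun p hp => (memF_cn hA).1 hp)
    rintro p q ⟨j, h1, h2⟩ hq
    exact ⟨j, hA _ _ _ h1 hq, h2.mono hq⟩
  · intro h
    refine h.imp ?_
    rintro p ⟨j, h1, h2⟩
    exact (memF_cn_of j h1).congr_left h2.symm

theorem forces_ex_of {φ : Fml} {v : ℕ → Name P} {p : P} (τ : Name P)
    (h : Forces φ (cons τ v) p) : Forces (fex φ) v p :=
  forces_ex.2 fun q hq => ⟨q, le_rfl, τ, h.mono hq⟩

theorem forces_bex {φ : Fml} {j : ℕ} {v : ℕ → Name P} {p : P} :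
    Forces (fbex j φ) v p ↔ ∀ q, q ≤ p → ∃ r, r ≤ q ∧ ∃ i : (v j).idx, r ≤ (v j).cd i ∧
      Forces φ (cons ((v j).nm i) v) r := by
  constructor
  · intro h q hq
    have h1 := h q hq
    rw [forces_ball] at h1
    push Not at h1
    obtain ⟨i, r, hr, h2, h3⟩ := h1
    rw [forces_neg] at h3
    push Not at h3
    obtain ⟨s, hs, h4⟩ := h3
    exact ⟨s, hs.trans hr, i, hs.trans h2, h4⟩
  · intro h q hq h1
    rw [forces_ball] at h1
    obtain ⟨r, hr, i, h2, h3⟩ := h q hq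
    exact h1 i r hr h2 r le_rfl h3

/-- equality of names from semantic equality in all models -/
theorem eqF_iff_models {σ τ : Name P} {p : P} :
    EqF σ τ p ↔ ∀ U : GenUlt P, U.Has p → U.cl σ = U.cl τ :=
  forces_iff (φ := .feq 0 1) (v := cons σ fun _ => τ)

theorem memF_iff_models {σ τ : Name P} {p : P} :
    MemF σ τ p ↔ ∀ U : GenUlt P, U.Has p → ModE U (U.cl σ) (U.cl τ) :=
  forces_iff (φ := .fmem 0 1) (v := cons σ fun _ => τ)

section Axioms

variable (U : GenUlt P)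

theorem mod_ext (x y : Mod U) (h : ∀ z, ModE U z x ↔ ModE U z y) : x = y := by
  obtain ⟨σ, rfl⟩ := exists_cl x
  obtain ⟨τ, rfl⟩ := exists_cl y
  rw [cl_eq]
  have h1 := (los U (.fall (fiff (.fmem 0 1) (.fmem 0 2))) (cons σ fun _ => τ)).1 (by
    simpa using h)
  refine h1.imp fun p hp => eqF_of_mem ?_ ?_
  · intro i r hr hc
    exact forces_imp.1 ((hp (σ.nm i)).1) r hr (memF_of_idx i hc)
  · intro i r hr hc
    exact forces_imp.1 ((hp (τ.nm i)).2) r hr (memF_of_idx i hc)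

theorem mod_found (x : Mod U) (hx : ∃ y, ModE U y x) :
    ∃ y, ModE U y x ∧ ∀ z, ModE U z y → ¬ ModE U z x := by
  by_contra hcon
  push Not at hcon
  obtain ⟨τ, rfl⟩ := exists_cl x
  obtain ⟨y, hy⟩ := hx
  obtain ⟨σ, rfl⟩ := exists_cl y
  have h1 := (los U (fball 0 (fbex 0 (.fmem 0 2))) (fun _ => τ)).1 (by
    simpa using hcon)
  obtain ⟨p, hp1, hp2⟩ := (h1.and (modE_cl.1 hy)).exists
  have key : ∀ σ : Name P, ∀ q, q ≤ p → ¬ MemF σ τ q := by
    intro σ
    induction σ with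
    | mk ι nm cd ih =>
      intro q hq hmem
      have h2 := forces_imp.1 (hp1 (.mk ι nm cd)) q hq hmem
      rw [forces_bex] at h2
      obtain ⟨r, hr, i, _, h4⟩ := h2 q le_rfl
      exact ih i r (hr.trans hq) h4
  exact key σ p le_rfl hp2

/-- pair name -/
def pairN (σ τ : Name P) : Name P :=
  cn (ι := ULift.{u} Bool) (fun b => if b.down then σ else τ) (fun _ _ => True)

theorem mod_pairN (σ τ : Name P) (w : Mod U) :
    ModE U w (U.cl (pairN σ τ)) ↔ w = U.cl σ ∨ w = U.cl τ := by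
  obtain ⟨ρ, rfl⟩ := exists_cl w
  rw [modE_cl, pairN, ev_memF_cn (fun _ _ _ h _ => h), cl_eq, cl_eq, ← GenUlt.ev_or]
  constructor
  · intro h
    refine h.imp ?_
    rintro p ⟨⟨b⟩, -, h⟩
    cases b
    · right; simpa using h
    · left; simpa using h
  · intro h
    refine h.imp ?_
    rintro p (h | h)
    · exact ⟨⟨true⟩, trivial, by simpa using h⟩
    · exact ⟨⟨false⟩, trivial, by simpa using h⟩

theorem mod_pair (x y : Mod U) : ∃ z, ∀ w, ModE U w z ↔ w = x ∨ w = y := by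
  obtain ⟨σ, rfl⟩ := exists_cl x
  obtain ⟨τ, rfl⟩ := exists_cl y
  exact ⟨U.cl (pairN σ τ), mod_pairN U σ τ⟩

theorem mod_union (x : Mod U) : ∃ y, ∀ z, ModE U z y ↔ ∃ w, ModE U w x ∧ ModE U z w := by
  obtain ⟨τ, rfl⟩ := exists_cl x
  let A : (Σ i : τ.idx, (τ.nm i).idx) → P → Prop :=
    fun k p => p ≤ τ.cd k.1 ∧ p ≤ (τ.nm k.1).cd k.2
  have hA : ∀ k p q, A k p → q ≤ p → A k q := fun k p q h hq => ⟨hq.trans h.1, hq.trans h.2⟩
  refine ⟨U.cl (cn (ι := Σ i : τ.idx, (τ.nm i).idx) (fun k => (τ.nm k.1).nm k.2) A), ?_⟩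
  intro z
  obtain ⟨ρ, rfl⟩ := exists_cl z
  rw [modE_cl]
  constructor
  · intro h
    rw [ev_memF_cn hA] at h
    have h1 : Sat (ModE U) (fex (.fand (.fmem 0 2) (.fmem 1 0)))
        (fun i => U.cl (cons ρ (fun _ => τ) i)) := by
      rw [los]
      refine h.imp ?_
      rintro p ⟨k, ⟨h1, h2⟩, h3⟩
      refine forces_ex_of (τ.nm k.1) ⟨memF_of_idx k.1 h1, ?_⟩
      exact (memF_of_idx k.2 h2).congr_left h3.symm
    simpa using h1
  · rintro ⟨w, h1, h2⟩
    obtain ⟨ω, rfl⟩ := exists_cl w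
    rw [modE_cl, ev_memF] at h1
    rw [modE_cl] at h2
    refine h1.imp2 h2 ?_
    rintro p ⟨i, h3, h4⟩ h5
    rw [memF_cn hA]
    intro r hr
    obtain ⟨s, hs, j, h6, h7⟩ := (h5.congr_right h4) r hr
    exact ⟨s, hs, ⟨i, j⟩, ⟨(hs.trans hr).trans h3, h6⟩, h7⟩

theorem mod_power (x : Mod U) : ∃ y, ∀ z, ModE U z y ↔ ∀ w, ModE U w z → ModE U w x := by
  obtain ⟨τ, rfl⟩ := exists_cl x
  let A : (τ.idx → P → Prop) → τ.idx → P → Prop := fun S i p => p ≤ τ.cd i ∧ S i p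
  let N : (τ.idx → P → Prop) → Name P := fun S => cn τ.nm (A S)
  refine ⟨U.cl (cn (ι := τ.idx → P → Prop) N (fun _ _ => True)), ?_⟩
  intro z
  obtain ⟨ζ, rfl⟩ := exists_cl z
  rw [modE_cl, ev_memF_cn (fun _ _ _ h _ => h)]
  constructor
  · intro h w hw
    obtain ⟨ρ, rfl⟩ := exists_cl w
    rw [modE_cl] at hw ⊢
    refine h.imp2 hw ?_
    rintro p ⟨S, -, h1⟩ h2
    intro r hr
    obtain ⟨s, hs, ⟨⟨i, q⟩, h3⟩, h4, h5⟩ := (h2.congr_right h1) r hr
    have h4' : s ≤ q := h4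
    exact ⟨s, hs, i, h4'.trans h3.1, h5⟩
  · intro h
    have h1 := (los U (.fall (fimp (.fmem 0 1) (.fmem 0 2))) (cons ζ fun _ => τ)).1 (by
      simpa using h)
    refine h1.imp fun p hp => ?_
    refine ⟨fun i q => MemF (τ.nm i) ζ q, trivial, ?_⟩
    apply eqF_of_mem
    · intro j r hr hc
      apply MemF.dense
      intro q hq
      have h2 : MemF (ζ.nm j) τ r := forces_imp.1 (hp (ζ.nm j)) r hr (memF_of_idx j hc)
      obtain ⟨s, hs, i, h3, h4⟩ := h2 q hq
      refine ⟨s, hs, ?_⟩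
      refine MemF.congr_left h4.symm ?_
      exact memF_cn_of i ⟨h3, MemF.congr_left h4 (memF_of_idx j ((hs.trans hq).trans hc))⟩
    · rintro ⟨⟨i, q⟩, h2, h3⟩ r hr hc
      exact h3.mono hc

/-- name of the successor `σ ∪ {σ}` -/
def succN (σ : Name P) : Name P :=
  cn (ι := Option σ.idx) (fun o => o.elim σ σ.nm) (fun o p => o.elim True fun i => p ≤ σ.cd i)

theorem mod_succN (σ : Name P) (w : Mod U) :
    ModE U w (U.cl (succN σ)) ↔ ModE U w (U.cl σ) ∨ w = U.cl σ := by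
  obtain ⟨ρ, rfl⟩ := exists_cl w
  rw [modE_cl, succN, ev_memF_cn, modE_cl, ev_memF, cl_eq, ← GenUlt.ev_or]
  · constructor
    · intro h
      refine h.imp ?_
      rintro p ⟨o, h1, h2⟩
      cases o with
      | none => right; exact h2
      | some i => left; exact ⟨i, h1, h2⟩
    · intro h
      refine h.imp ?_
      rintro p (⟨i, h1, h2⟩ | h)
      · exact ⟨some i, h1, h2⟩
      · exact ⟨none, trivial, h⟩
  · intro o p q h hq
    cases o with
    | none => trivial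
    | some i => exact hq.trans h

/-- name of the natural number `n` -/
def natN : ℕ → Name P
  | 0 => cn (ι := PEmpty) (fun x => x.elim) (fun _ _ => True)
  | n + 1 => succN (natN n)

/-- name of the set of natural numbers -/
def omegaN : Name P := cn (ι := ULift.{u} ℕ) (fun n => natN n.down) (fun _ _ => True)

theorem mod_natN_zero (w : Mod U) : ¬ ModE U w (U.cl (natN 0)) := by
  obtain ⟨ρ, rfl⟩ := exists_cl w
  rw [modE_cl, natN, ev_memF_cn (fun _ _ _ h _ => h)]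
  intro h
  obtain ⟨p, i, _⟩ := h.exists
  exact i.elim

theorem mod_inf : ∃ x, (∃ e, (∀ z, ¬ ModE U z e) ∧ ModE U e x) ∧
    ∀ y, ModE U y x → ∃ z, ModE U z x ∧ ∀ w, ModE U w z ↔ ModE U w y ∨ w = y := by
  refine ⟨U.cl omegaN, ⟨U.cl (natN 0), mod_natN_zero U, ?_⟩, ?_⟩
  · rw [modE_cl]
    exact GenUlt.ev_true fun p => memF_cn_of (A := fun _ _ => True)
      (nm := fun n : ULift.{u} ℕ => natN n.down) ⟨0⟩ trivial
  · intro y hy
    obtain ⟨σ, rfl⟩ := exists_cl y
    refine ⟨U.cl (succN σ), ?_, mod_succN U σ⟩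
    rw [modE_cl, omegaN, ev_memF_cn (fun _ _ _ h _ => h)] at hy ⊢
    refine hy.imp ?_
    rintro p ⟨⟨n⟩, -, h⟩
    refine ⟨⟨n + 1⟩, trivial, ?_⟩
    rw [eqF_iff_models] at h ⊢
    intro V hV
    have h1 := h V hV
    apply mod_ext
    intro z
    rw [mod_succN, h1]
    exact (mod_succN V (natN n) z).symm

theorem mod_sep (φ : Fml) (v : ℕ → Mod U) (x : Mod U) :
    ∃ y, ∀ z, ModE U z y ↔ ModE U z x ∧ Sat (ModE U) φ (cons z v) := by
  obtain ⟨w, rfl⟩ := cl_surj v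
  obtain ⟨τ, rfl⟩ := exists_cl x
  let A : τ.idx → P → Prop := fun i p => p ≤ τ.cd i ∧ Forces φ (cons (τ.nm i) w) p
  have hA : ∀ k p q, A k p → q ≤ p → A k q := fun k p q h hq => ⟨hq.trans h.1, h.2.mono hq⟩
  refine ⟨U.cl (cn τ.nm A), ?_⟩
  intro z
  obtain ⟨ρ, rfl⟩ := exists_cl z
  rw [← cl_cons, los, modE_cl, modE_cl, ev_memF_cn hA, ev_memF]
  constructor
  · intro h
    constructor
    · refine h.imp ?_
      rintro p ⟨i, h1, h2⟩
      exact ⟨i, h1.1, h2⟩
    · refine h.imp ?_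
      rintro p ⟨i, h1, h2⟩
      exact h1.2.congr_cons h2.symm
  · rintro ⟨h1, h2⟩
    refine h1.imp2 h2 ?_
    rintro p ⟨i, h3, h4⟩ h5
    exact ⟨i, ⟨h3, h5.congr_cons h4⟩, h4⟩

theorem mod_repl (φ : Fml) (v : ℕ → Mod U) (x : Mod U)
    (h : ∀ y, ModE U y x → ∃! z, Sat (ModE U) φ (cons y (cons z v))) :
    ∃ w, ∀ z, ModE U z w ↔ ∃ y, ModE U y x ∧ Sat (ModE U) φ (cons y (cons z v)) := by
  classical
  obtain ⟨w, rfl⟩ := cl_surj v
  obtain ⟨τ, rfl⟩ := exists_cl x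
  let R : τ.idx × P → Name P := fun k =>
    if h : ∃ ρ, Forces φ (cons (τ.nm k.1) (cons ρ w)) k.2 then h.choose else natN 0
  let A : τ.idx × P → P → Prop := fun k p => p ≤ k.2 ∧ p ≤ τ.cd k.1 ∧
    Forces φ (cons (τ.nm k.1) (cons (R k) w)) p
  have hA : ∀ k p q, A k p → q ≤ p → A k q :=
    fun k p q h hq => ⟨hq.trans h.1, hq.trans h.2.1, h.2.2.mono hq⟩
  refine ⟨U.cl (cn R A), ?_⟩
  intro z
  obtain ⟨ζ, rfl⟩ := exists_cl z
  rw [modE_cl, ev_memF_cn hA]
  constructor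
  · intro h1
    -- choose a witness name through the maximum principle
    obtain ⟨η, hη⟩ := forces_ex_iff (P := P)
      (φ := .fand (.fmem 0 2) φ) (v := cons ζ (cons τ w))
    -- we avoid substitution in formulas: use mixing directly
    obtain ⟨η, hη⟩ := max_principle (P := P)
      (fun σ p => MemF σ τ p ∧ Forces φ (cons σ (cons ζ w)) p)
      (fun σ p q h hq => ⟨h.1.mono hq, h.2.mono hq⟩)
      (fun σ p h => ⟨MemF.dense fun q hq => by
          obtain ⟨r, hr, h2⟩ := h q hq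
          exact ⟨r, hr, h2.1⟩, Forces.dense fun q hq => by
          obtain ⟨r, hr, h2⟩ := h q hq
          exact ⟨r, hr, h2.2⟩⟩)
      (fun σ σ' p he h => ⟨h.1.congr_left he, h.2.congr_cons he⟩)
    have h2 : U.Ev (fun p => MemF η τ p ∧ Forces φ (cons η (cons ζ w)) p) := by
      refine h1.imp ?_
      rintro p ⟨k, ⟨_, hk2, hk3⟩, hk4⟩
      apply hη
      intro q hq
      refine ⟨q, le_rfl, τ.nm k.1, memF_of_idx k.1 (hq.trans hk2), ?_⟩
      refine (hk3.mono hq).congr ?_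
      intro i
      match i with
      | 0 => exact EqF.refl _ _
      | 1 => exact hk4.symm.mono hq
      | (n + 2) => exact EqF.refl _ _
    refine ⟨U.cl η, ?_, ?_⟩
    · rw [modE_cl]; exact h2.imp fun p hp => hp.1
    · rw [← cl_cons, ← cl_cons, los]; exact h2.imp fun p hp => hp.2
  · rintro ⟨y, hy, hs⟩
    obtain ⟨η, rfl⟩ := exists_cl y
    rw [← cl_cons, ← cl_cons, los] at hs
    have hy' := hy
    rw [modE_cl, ev_memF] at hy'
    -- U-eventually, uniqueness is forced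
    have huniq : U.Ev (fun p => ∀ ρ, Forces φ (cons η (cons ρ w)) p → EqF ρ ζ p) := by
      by_contra hcon
      rw [← GenUlt.ev_not] at hcon
      obtain ⟨ρ, hρ⟩ := max_principle (P := P)
        (fun σ p => Forces φ (cons η (cons σ w)) p ∧ ∀ q, q ≤ p → ¬ EqF σ ζ q)
        (fun σ p q h hq => ⟨h.1.mono hq, fun r hr => h.2 r (hr.trans hq)⟩)
        (fun σ p h => ⟨Forces.dense fun q hq => by
            obtain ⟨r, hr, h2⟩ := h q hq
            exact ⟨r, hr, h2.1⟩, fun q hq he => by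
            obtain ⟨r, hr, h2⟩ := h q hq
            exact h2.2 r le_rfl (he.mono hr)⟩)
        (fun σ σ' p he h => ⟨h.1.congr (by
            intro i
            match i with
            | 0 => exact EqF.refl _ _
            | 1 => exact he
            | (n + 2) => exact EqF.refl _ _), fun q hq he' =>
            h.2 q hq ((he.mono hq).trans he')⟩)
      have h3 : U.Ev (fun p => Forces φ (cons η (cons ρ w)) p ∧ ∀ q, q ≤ p → ¬ EqF ρ ζ q) := by
        have hopen := GenUlt.ev_decide (U := U)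
          (A := fun p => ∀ ρ, ∀ q, q ≤ p → Forces φ (cons η (cons ρ w)) q → EqF ρ ζ q)
          (fun p q h hq ρ r hr => h ρ r (hr.trans hq))
        refine hcon.imp2 hopen ?_
        rintro p h4 (h5 | h5)
        · exact (h4 fun ρ hρ => h5 ρ p le_rfl hρ).elim
        · apply hρ
          intro q hq
          have h6 := h5 q hq
          push Not at h6
          obtain ⟨σ, r, hr, h7, h8⟩ := h6
          -- below r, find a condition forcing inequality
          have h9 : ∃ s, s ≤ r ∧ ∀ t, t ≤ s → ¬ EqF σ ζ t := by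
            by_contra h10
            push Not at h10
            exact h8 (EqF.dense h10)
          obtain ⟨s, hs, h10⟩ := h9
          exact ⟨s, hs.trans hr, σ, h7.mono hs, h10⟩
      have h4 : Sat (ModE U) φ (cons (U.cl η) (cons (U.cl ρ) fun i => U.cl (w i))) := by
        rw [← cl_cons, ← cl_cons, los]; exact h3.imp fun p hp => hp.1
      have h5 : Sat (ModE U) φ (cons (U.cl η) (cons (U.cl ζ) fun i => U.cl (w i))) := by
        rw [← cl_cons, ← cl_cons, los]; exact hs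
      have h6 := (h _ hy).unique h4 h5
      rw [cl_eq] at h6
      obtain ⟨p, hp1, hp2⟩ := (h3.and h6).exists
      exact hp1.2 p le_rfl hp2
    refine GenUlt.Ev.imp3 hy' hs huniq ?_
    rintro p ⟨i, h1, h2⟩ h3 h4
    have h5 : Forces φ (cons (τ.nm i) (cons ζ w)) p := h3.congr_cons h2
    have h6 : ∃ ρ, Forces φ (cons (τ.nm i) (cons ρ w)) p := ⟨ζ, h5⟩
    have h7 : Forces φ (cons (τ.nm i) (cons (R (i, p)) w)) p := by
      have : R (i, p) = h6.choose := dif_pos h6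
      rw [this]
      exact h6.choose_spec
    exact ⟨(i, p), ⟨le_rfl, h1, h7⟩, (h4 _ (h7.congr_cons h2.symm)).symm⟩

theorem mod_choice (x : Mod U) (hne : ∀ y, ModE U y x → ∃ z, ModE U z y)
    (hdis : ∀ y y', ModE U y x → ModE U y' x → y ≠ y' → ∀ z, ¬ (ModE U z y ∧ ModE U z y')) :
    ∃ c, ∀ y, ModE U y x → ∃! z, ModE U z c ∧ ModE U z y := by
  classical
  obtain ⟨τ, rfl⟩ := exists_cl x
  let K := Σ i : τ.idx, (τ.nm i).idx
  let N : K → Name P := fun k => (τ.nm k.1).nm k.2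
  let lt : K → K → Prop := WellOrderingRel
  let B : K → P → Prop := fun k p => p ≤ τ.cd k.1 ∧ p ≤ (τ.nm k.1).cd k.2
  let A : K → P → Prop := fun k p => B k p ∧
    ∀ k', lt k' k → ∀ q, q ≤ p → ¬ (B k' q ∧ MemF (N k') (τ.nm k.1) q)
  have hB : ∀ k p q, B k p → q ≤ p → B k q := fun k p q h hq => ⟨hq.trans h.1, hq.trans h.2⟩
  have hA : ∀ k p q, A k p → q ≤ p → A k q :=
    fun k p q h hq => ⟨hB _ _ _ h.1 hq, fun k' hk' r hr => h.2 k' hk' r (hr.trans hq)⟩
  -- disjointness is forced eventually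
  have hdisF : U.Ev (fun p => ∀ σ σ' ρ : Name P, ∀ q, q ≤ p → MemF σ τ q → MemF σ' τ q →
      MemF ρ σ q → MemF ρ σ' q → EqF σ σ' q) := by
    have h1 := (los U (.fall (.fall (.fall (fimp (.fand (.fmem 2 3) (.fand (.fmem 1 3)
      (.fand (.fmem 0 2) (.fmem 0 1)))) (.feq 2 1))))) (fun _ => τ)).1 (by
        simp only [sat_all, sat_imp, sat_and, sat_mem, sat_eq, cons_zero, cons_one, cons_two,
          cons_three]
        rintro a b c ⟨h1, h2, h3, h4⟩
        by_contra hne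
        exact hdis a b h1 h2 hne c ⟨h3, h4⟩)
    refine h1.imp ?_
    intro p hp σ σ' ρ q hq h1 h2 h3 h4
    exact forces_imp.1 (hp σ σ' ρ) q hq ⟨h1, h2, h3, h4⟩
  refine ⟨U.cl (cn N A), ?_⟩
  intro y hy
  obtain ⟨η, rfl⟩ := exists_cl y
  have hy' := hy
  rw [modE_cl, ev_memF] at hy'
  apply existsUnique_of_exists_of_unique
  · -- existence
    have hnon := hne _ hy
    obtain ⟨z, hz⟩ := hnon
    obtain ⟨ζ, rfl⟩ := exists_cl z
    rw [modE_cl] at hz
    have h1 : Sat (ModE U) (fex (.fand (.fmem 0 1) (.fmem 0 2)))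
        (fun i => U.cl (cons (cn N A) (fun _ => η) i)) := by
      rw [los]
      refine GenUlt.Ev.imp2 hdisF (hy'.and hz) ?_
      rintro p h1 ⟨⟨i, h2, h3⟩, h4⟩
      rw [forces_ex]
      intro q hq
      -- the set of candidates
      let C : K → Prop := fun k => ∃ r, r ≤ q ∧ B k r ∧ MemF (N k) (τ.nm i) r
      have hC : ∃ k, C k := by
        obtain ⟨r, hr, j, h5, h6⟩ := (h4.congr_right h3) q hq
        exact ⟨⟨i, j⟩, r, hr, ⟨(hr.trans hq).trans h2, h5⟩, memF_of_idx j h5⟩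
      obtain ⟨k, ⟨r, hr, h5, h6⟩, hmin⟩ :=
        (IsWellFounded.wf (r := (WellOrderingRel : K → K → Prop))).has_min {k | C k} hC
      refine ⟨r, hr, N k, ?_, ?_⟩
      · refine memF_cn_of k ⟨h5, ?_⟩
        rintro k' hk' s hs ⟨h7, h8⟩
        refine hmin k' ?_ hk'
        refine ⟨s, hs.trans hr, h7, ?_⟩
        have h9 : EqF (τ.nm k.1) (τ.nm i) s :=
          h1 _ _ (N k) s ((hs.trans hr).trans hq) (memF_of_idx _ (hs.trans h5.1))
            (memF_of_idx _ (((hs.trans hr).trans hq).trans h2))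
            ((memF_of_idx (τ := τ.nm k.1) k.2 (hs.trans h5.2))) (h6.mono hs)
        exact h8.congr_right h9
      · exact h6.congr_right (h3.symm.mono (hr.trans hq))
    simpa using h1
  · -- uniqueness
    rintro z z' ⟨h1, h2⟩ ⟨h3, h4⟩
    obtain ⟨ζ, rfl⟩ := exists_cl z
    obtain ⟨ζ', rfl⟩ := exists_cl z'
    rw [modE_cl, ev_memF_cn hA] at h1 h3
    rw [modE_cl] at h2 h4
    rw [cl_eq]
    refine GenUlt.Ev.imp3 (h1.and h2) (h3.and h4) (hdisF.and (modE_cl.1 hy)) ?_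
    rintro p ⟨⟨k, h5, h6⟩, h7⟩ ⟨⟨k', h8, h9⟩, h10⟩ ⟨h11, h12⟩
    have e1 : EqF (τ.nm k.1) η p := h11 _ _ (N k) p le_rfl (memF_of_idx _ h5.1.1) h12
      (memF_of_idx _ h5.1.2) (h7.congr_left h6)
    have e2 : EqF (τ.nm k'.1) η p := h11 _ _ (N k') p le_rfl (memF_of_idx _ h8.1.1) h12
      (memF_of_idx _ h8.1.2) (h10.congr_left h9)
    have h13 : k = k' := by
      rcases trichotomous_of (WellOrderingRel : K → K → Prop) k k' with h | h | h
      · refine (h8.2 k h p le_rfl ⟨h5.1, ?_⟩).elim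
        exact (h7.congr_left h6).congr_right e2.symm
      · exact h
      · refine (h5.2 k' h p le_rfl ⟨h8.1, ?_⟩).elim
        exact (h10.congr_left h9).congr_right e1.symm
    subst h13
    exact h6.trans h9.symm

theorem mod_isZFC : IsZFC (Mod U) (ModE U) where
  extensionality := mod_ext U
  foundation := mod_found U
  pairing := mod_pair U
  union := mod_union U
  powerset := mod_power U
  infinity := mod_inf U
  separation := mod_sep U
  replacement := mod_repl U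
  choice := mod_choice U

end Axioms

end Pool.Agent.Lib.Forcing
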